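import Pool.Agent.Helper57.RH.Base

/-!
# The bilinear inequality (AVG)
-/

set_option autoImplicit false

namespace Pool.Agent.Helper57.RH

open Pool.Agent.Y519.HB Pool.Agent.W666.GB Pool.Agent.W669.HD Finset

section avg

variable {J : Type} [Fintype J] [DecidableEq J]

/-- the trace of the product of two nonnegative forms -/
theorem avg_had (A B : J → J → ℝ) (hA : ∀ x : J → ℝ, 0 ≤ ∑ j, ∑ l, A j l * (x j * x l))
    (hBs : ∀ j l, B l j = B j l) (hB : ∀ x : J → ℝ, 0 ≤ ∑ j, ∑ l, B j l * (x j * x l)) :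
    0 ≤ ∑ j, ∑ l, A j l * B j l := by
  have hp : (Matrix.of B).PosSemidef := by
    refine Matrix.PosSemidef.of_dotProduct_mulVec_nonneg ?_ ?_
    · ext j l
      simp [Matrix.conjTranspose, hBs]
    · intro x
      have h := hB x
      have e : star x ⬝ᵥ (Matrix.of B).mulVec x = ∑ j, ∑ l, B j l * (x j * x l) := by
        simp only [dotProduct, Matrix.mulVec, Pi.star_apply, star_trivial, Matrix.of_apply,
          mul_sum]
        exact sum_congr rfl fun j _ => sum_congr rfl fun l _ => by ring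
      rw [e]
      exact h
  obtain ⟨m, v, hv⟩ := Matrix.posSemidef_iff_eq_sum_vecMulVec.mp hp
  have hB' : ∀ j l, B j l = ∑ s, v s j * v s l := by
    intro j l
    have := congrFun (congrFun hv j) l
    simpa [Matrix.sum_apply, Matrix.vecMulVec_apply] using this
  have e : ∑ j, ∑ l, A j l * B j l = ∑ s, ∑ j, ∑ l, A j l * (v s j * v s l) := by
    calc ∑ j, ∑ l, A j l * B j l = ∑ j, ∑ l, ∑ s, A j l * (v s j * v s l) := by
          simp only [hB', mul_sum]
      _ = ∑ j, ∑ s, ∑ l, A j l * (v s j * v s l) := sum_congr rfl fun j _ => sum_comm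
      _ = ∑ s, ∑ j, ∑ l, A j l * (v s j * v s l) := sum_comm
  rw [e]
  exact sum_nonneg fun s _ => hA (fun j => v s j)

/-- signs -/
def sg (b : Bool) : ℝ := if b then 1 else -1

theorem sg_sq (b : Bool) : sg b * sg b = 1 := by cases b <;> simp [sg]

theorem sg_not (b : Bool) : sg (!b) = - sg b := by cases b <;> simp [sg]

theorem flip_sum (a : J) (f : (J → Bool) → ℝ)
    (h : ∀ ε, f (Function.update ε a (!ε a)) = - f ε) : ∑ ε, f ε = 0 := by
  have e : ∑ ε, f (Function.update ε a (!ε a)) = ∑ ε, f ε := by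
    refine Fintype.sum_equiv ⟨fun ε => Function.update ε a (!ε a),
      fun ε => Function.update ε a (!ε a), fun ε => ?_, fun ε => ?_⟩ _ _ fun ε => rfl
    · simp
    · simp
  have : ∑ ε, f ε = - ∑ ε, f ε := by
    conv_lhs => rw [← e]
    rw [← sum_neg_distrib]
    exact sum_congr rfl fun ε _ => h ε
  linarith

theorem sg2 {a c : J} (h : a ≠ c) : ∑ ε : J → Bool, sg (ε a) * sg (ε c) = 0 := by
  refine flip_sum a _ fun ε => ?_
  rw [Function.update_self, Function.update_of_ne h.symm, sg_not]
  ring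

theorem sg4 {a c e g : J} (h1 : a ≠ c) (h2 : a ≠ e) (h3 : a ≠ g) :
    ∑ ε : J → Bool, sg (ε a) * sg (ε c) * sg (ε e) * sg (ε g) = 0 := by
  refine flip_sum a _ fun ε => ?_
  rw [Function.update_self, Function.update_of_ne h1.symm, Function.update_of_ne h2.symm,
    Function.update_of_ne h3.symm, sg_not]
  ring

theorem card_signs : ∑ _ε : J → Bool, (1 : ℝ) = 2 ^ Fintype.card J := by
  simp

/-- fourth moments -/
theorem fourth (a c e g : J) :
    ∑ ε : J → Bool, sg (ε a) * sg (ε c) * sg (ε e) * sg (ε g) +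
      2 ^ Fintype.card J * (2 * ∑ s : J, (if a = s then 1 else 0) * (if c = s then 1 else 0) *
        (if e = s then 1 else 0) * (if g = s then 1 else 0)) =
    2 ^ Fintype.card J * ((if a = c then 1 else 0) * (if e = g then 1 else 0) +
      (if a = e then 1 else 0) * (if c = g then 1 else 0) +
      (if a = g then 1 else 0) * (if c = e then 1 else 0) : ℝ) := by
  have hs : ∑ s : J, ((if a = s then 1 else 0) * (if c = s then 1 else 0) *
        (if e = s then 1 else 0) * (if g = s then 1 else 0) : ℝ) =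
      (if c = a then 1 else 0) * (if e = a then 1 else 0) * (if g = a then 1 else 0) := by
    rw [sum_eq_single a]
    · simp
    · intro s _ hs
      simp [hs.symm]
    · simp
  rw [hs]
  by_cases hac : a = c
  · subst hac
    by_cases heg : e = g
    · subst heg
      have : ∀ ε : J → Bool, sg (ε a) * sg (ε a) * sg (ε e) * sg (ε e) = 1 := by
        intro ε
        rw [sg_sq, one_mul, sg_sq]
      simp only [this, card_signs]
      by_cases hae : a = e
      · subst hae
        simp
        ring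
      · simp [hae, Ne.symm hae]
    · have : ∀ ε : J → Bool, sg (ε a) * sg (ε a) * sg (ε e) * sg (ε g) =
          sg (ε e) * sg (ε g) := by
        intro ε
        rw [sg_sq, one_mul]
      simp only [this, sg2 heg]
      by_cases hae : a = e
      · subst hae
        simp [heg, Ne.symm heg]
      · simp [hae, heg, Ne.symm hae]
  · by_cases hae : a = e
    · subst hae
      have : ∀ ε : J → Bool, sg (ε a) * sg (ε c) * sg (ε a) * sg (ε g) =
          sg (ε c) * sg (ε g) := by
        intro ε
        have := sg_sq (ε a)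
        linear_combination sg (ε c) * sg (ε g) * this
      simp only [this]
      by_cases hcg : c = g
      · subst hcg
        simp only [sg_sq, card_signs]
        simp [hac, Ne.symm hac]
      · rw [sg2 hcg]
        simp [hac, Ne.symm hac, hcg]
    · by_cases hag : a = g
      · subst hag
        have : ∀ ε : J → Bool, sg (ε a) * sg (ε c) * sg (ε e) * sg (ε a) =
            sg (ε c) * sg (ε e) := by
          intro ε
          have := sg_sq (ε a)
          linear_combination sg (ε c) * sg (ε e) * this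
        simp only [this]
        by_cases hce : c = e
        · subst hce
          simp only [sg_sq, card_signs]
          simp [hac, Ne.symm hac]
        · rw [sg2 hce]
          simp [hac, Ne.symm hac, hce]
      · rw [sg4 hac hae hag]
        simp [hac, hae, hag, Ne.symm hac]

theorem del (f : J → ℝ) (a : J) : ∑ c, (if a = c then 1 else 0) * f c = f a := by
  simp

theorem del1 (M : J → J → J → J → ℝ) : ∑ a, ∑ c, ∑ e, ∑ g,
    (if a = c then 1 else 0) * (if e = g then 1 else 0) * M a c e g = ∑ a, ∑ e, M a a e e := by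
  refine sum_congr rfl fun a _ => ?_
  simp only [mul_assoc, ← mul_sum, del]

theorem del2 (M : J → J → J → J → ℝ) : ∑ a, ∑ c, ∑ e, ∑ g,
    (if a = e then 1 else 0) * (if c = g then 1 else 0) * M a c e g = ∑ a, ∑ c, M a c a c := by
  refine sum_congr rfl fun a _ => sum_congr rfl fun c _ => ?_
  simp only [mul_assoc, ← mul_sum, del]

theorem del3 (M : J → J → J → J → ℝ) : ∑ a, ∑ c, ∑ e, ∑ g,
    (if a = g then 1 else 0) * (if c = e then 1 else 0) * M a c e g = ∑ a, ∑ c, M a c c a := by
  refine sum_congr rfl fun a _ => sum_congr rfl fun c _ => ?_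
  simp only [mul_assoc, del]

/-- averages of quartic forms -/
theorem quartic (M : J → J → J → J → ℝ)
    (h : ∀ x : J → ℝ, 0 ≤ ∑ a, ∑ c, ∑ e, ∑ g, x a * x c * x e * x g * M a c e g) :
    0 ≤ (∑ a, ∑ e, M a a e e) + (∑ a, ∑ c, M a c a c) + ∑ a, ∑ c, M a c c a := by
  have h1 : 0 ≤ ∑ ε : J → Bool, ∑ a, ∑ c, ∑ e, ∑ g,
      sg (ε a) * sg (ε c) * sg (ε e) * sg (ε g) * M a c e g :=
    sum_nonneg fun ε _ => h fun j => sg (ε j)
  have h2 : 0 ≤ ∑ s : J, ∑ a, ∑ c, ∑ e, ∑ g,
      (if a = s then 1 else 0) * (if c = s then 1 else 0) * (if e = s then 1 else 0) *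
        (if g = s then 1 else 0) * M a c e g :=
    sum_nonneg fun s _ => h fun j => if j = s then 1 else 0
  have e1 : ∑ ε : J → Bool, ∑ a, ∑ c, ∑ e, ∑ g,
      sg (ε a) * sg (ε c) * sg (ε e) * sg (ε g) * M a c e g = ∑ a, ∑ c, ∑ e, ∑ g,
      (∑ ε : J → Bool, sg (ε a) * sg (ε c) * sg (ε e) * sg (ε g)) * M a c e g := by
    rw [sum_comm]
    refine sum_congr rfl fun a _ => ?_
    rw [sum_comm]
    refine sum_congr rfl fun c _ => ?_
    rw [sum_comm]
    refine sum_congr rfl fun e _ => ?_
    rw [sum_comm]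
    refine sum_congr rfl fun g _ => ?_
    rw [sum_mul]
  have e2 : ∑ s : J, ∑ a, ∑ c, ∑ e, ∑ g,
      (if a = s then 1 else 0) * (if c = s then 1 else 0) * (if e = s then 1 else 0) *
        (if g = s then 1 else 0) * M a c e g = ∑ a, ∑ c, ∑ e, ∑ g,
      (∑ s : J, (if a = s then 1 else 0) * (if c = s then 1 else 0) *
        (if e = s then 1 else 0) * (if g = s then 1 else 0)) * M a c e g := by
    rw [sum_comm]
    refine sum_congr rfl fun a _ => ?_
    rw [sum_comm]
    refine sum_congr rfl fun c _ => ?_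
    rw [sum_comm]
    refine sum_congr rfl fun e _ => ?_
    rw [sum_comm]
    refine sum_congr rfl fun g _ => ?_
    rw [sum_mul]
  rw [e1] at h1
  rw [e2] at h2
  have hN : (0 : ℝ) < 2 ^ Fintype.card J := by positivity
  have e3 : ∑ a, ∑ c, ∑ e, ∑ g, (∑ ε : J → Bool, sg (ε a) * sg (ε c) * sg (ε e) * sg (ε g)) *
        M a c e g + 2 ^ Fintype.card J * (2 * ∑ a, ∑ c, ∑ e, ∑ g,
      (∑ s : J, (if a = s then 1 else 0) * (if c = s then 1 else 0) *
        (if e = s then 1 else 0) * (if g = s then 1 else 0)) * M a c e g) =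
      2 ^ Fintype.card J * ((∑ a, ∑ e, M a a e e) + (∑ a, ∑ c, M a c a c) +
        ∑ a, ∑ c, M a c c a) := by
    have : ∀ a c e g, (∑ ε : J → Bool, sg (ε a) * sg (ε c) * sg (ε e) * sg (ε g)) *
        M a c e g + 2 ^ Fintype.card J * (2 *
      ((∑ s : J, (if a = s then 1 else 0) * (if c = s then 1 else 0) *
        (if e = s then 1 else 0) * (if g = s then 1 else 0)) * M a c e g)) =
        2 ^ Fintype.card J * ((if a = c then 1 else 0) * (if e = g then 1 else 0) * M a c e g +
      (if a = e then 1 else 0) * (if c = g then 1 else 0) * M a c e g +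
      (if a = g then 1 else 0) * (if c = e then 1 else 0) * M a c e g) := by
      intro a c e g
      have := fourth a c e g
      linear_combination M a c e g * this
    have l1 : ∀ f : J → J → J → J → ℝ, ∀ t : ℝ, t * ∑ a, ∑ c, ∑ e, ∑ g, f a c e g =
        ∑ a, ∑ c, ∑ e, ∑ g, t * f a c e g := by
      intro f t
      simp only [mul_sum]
    have l2 : ∀ f g' : J → J → J → J → ℝ, (∑ a, ∑ c, ∑ e, ∑ g, f a c e g) +
        ∑ a, ∑ c, ∑ e, ∑ g, g' a c e g = ∑ a, ∑ c, ∑ e, ∑ g, (f a c e g + g' a c e g) := by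
      intro f g'
      simp only [sum_add_distrib]
    rw [l1, l1, l2]
    simp only [this]
    rw [← l1, ← l2, ← l2, del1, del2, del3]
  have : 0 ≤ 2 ^ Fintype.card J * ((∑ a, ∑ e, M a a e e) + (∑ a, ∑ c, M a c a c) +
        ∑ a, ∑ c, M a c c a) := by
    rw [← e3]
    exact add_nonneg h1 (mul_nonneg hN.le (mul_nonneg zero_le_two h2))
  exact nonneg_of_mul_nonneg_right this hN

/-- Ricci -/
def ri (P : J → J → J → J → ℝ) (j l : J) : ℝ := ∑ i, P i j i l

theorem mv (f : J → J → J → ℝ) : ∑ j, ∑ l, ∑ a, f j l a = ∑ a, ∑ j, ∑ l, f j l a := by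
  calc ∑ j, ∑ l, ∑ a, f j l a = ∑ j, ∑ a, ∑ l, f j l a := sum_congr rfl fun j _ => sum_comm
    _ = ∑ a, ∑ j, ∑ l, f j l a := sum_comm

theorem mv4 (f : J → J → J → J → ℝ) :
    ∑ j, ∑ l, ∑ a, ∑ c, f a j c l = ∑ a, ∑ j, ∑ c, ∑ l, f a j c l := by
  rw [mv]
  exact sum_congr rfl fun a _ => sum_congr rfl fun j _ => sum_comm

theorem qform (P : J → J → J → J → ℝ) (x y : J → ℝ) :
    ∑ j, ∑ l, (∑ a, ∑ c, x a * x c * P a j c l) * (y j * y l) = ev4 P x y x y := by
  rw [ev4_eq, ← mv4]
  refine sum_congr rfl fun j _ => sum_congr rfl fun l _ => ?_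
  rw [sum_mul]
  refine sum_congr rfl fun a _ => ?_
  rw [sum_mul]
  refine sum_congr rfl fun c _ => ?_
  ring

theorem six (u w : J → J → J → J → ℝ) :
    ∑ j, ∑ l, (∑ a, ∑ c, u a c j l) * (∑ e, ∑ g, w e g j l) =
      ∑ a, ∑ c, ∑ e, ∑ g, ∑ j, ∑ l, u a c j l * w e g j l := by
  have : ∀ j l, (∑ a, ∑ c, u a c j l) * (∑ e, ∑ g, w e g j l) =
      ∑ a, ∑ c, ∑ e, ∑ g, u a c j l * w e g j l := by
    intro j l
    simp only [sum_mul]
    simp only [mul_sum]
  simp only [this]
  rw [mv]
  refine sum_congr rfl fun a _ => ?_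
  rw [mv]
  refine sum_congr rfl fun c _ => ?_
  rw [mv]
  refine sum_congr rfl fun e _ => ?_
  rw [mv]

theorem avg_main (P D : J → J → J → J → ℝ) (hP : Cu P) (hS : Se P)
    (hD1 : ∀ i j k l, D j i k l = - D i j k l) (hD2 : ∀ i j k l, D k l i j = D i j k l)
    (hD : Se D) :
    0 ≤ (∑ j, ∑ l, ri P j l * ri D j l) +
      3 / 2 * ∑ i, ∑ j, ∑ k, ∑ l, P i j k l * D i j k l := by
  set M : J → J → J → J → ℝ := fun a c e g => ∑ j, ∑ l, P a j c l * D e j g l with hM
  have hq : ∀ x : J → ℝ, 0 ≤ ∑ a, ∑ c, ∑ e, ∑ g, x a * x c * x e * x g * M a c e g := by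
    intro x
    have h := avg_had (fun j l => ∑ a, ∑ c, x a * x c * P a j c l)
      (fun j l => ∑ e, ∑ g, x e * x g * D e j g l) ?_ ?_ ?_
    · have e : ∑ j, ∑ l, (∑ a, ∑ c, x a * x c * P a j c l) * (∑ e, ∑ g, x e * x g * D e j g l) =
        ∑ a, ∑ c, ∑ e, ∑ g, x a * x c * x e * x g * M a c e g := by
        rw [six (fun a c j l => x a * x c * P a j c l) (fun e g j l => x e * x g * D e j g l)]
        refine sum_congr rfl fun a _ => sum_congr rfl fun c _ => sum_congr rfl fun e _ =>
          sum_congr rfl fun g _ => ?_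
        simp only [hM, mul_sum]
        refine sum_congr rfl fun j _ => sum_congr rfl fun l _ => ?_
        ring
      rw [← e]
      exact h
    · intro y
      rw [qform]
      exact hS x y
    · intro j l
      rw [sum_comm]
      refine sum_congr rfl fun e _ => sum_congr rfl fun g _ => ?_
      rw [hD2]
      ring
    · intro y
      rw [qform]
      exact hD x y
  have h := quartic M hq
  have e1 : ∑ a, ∑ e, M a a e e = ∑ j, ∑ l, ri P j l * ri D j l := by
    have : ∀ j l, ri P j l * ri D j l = ∑ a, ∑ e, P a j a l * D e j e l := by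
      intro j l
      simp only [ri, sum_mul]
      simp only [mul_sum]
    simp only [this]
    rw [mv]
    refine sum_congr rfl fun a _ => ?_
    rw [mv]
  have e2 : ∑ a, ∑ c, M a c a c = ∑ i, ∑ j, ∑ k, ∑ l, P i j k l * D i j k l :=
    sum_congr rfl fun a _ => sum_comm
  have e3 : ∑ a, ∑ c, M a c c a = ∑ a, ∑ j, ∑ c, ∑ l, P a j c l * D c j a l :=
    sum_congr rfl fun a _ => sum_comm
  set T : ℝ := ∑ a, ∑ j, ∑ c, ∑ l, P a j c l * D c j a l with hT
  set S : ℝ := ∑ i, ∑ j, ∑ k, ∑ l, P i j k l * D i j k l with hSd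
  have hb : ∑ a, ∑ j, ∑ c, ∑ l, P c j a l * D c j a l = S := by
    rw [sum_congr rfl fun a _ => sum_comm, sum_comm]
    exact sum_congr rfl fun a _ => sum_comm
  have ha : ∑ a, ∑ j, ∑ c, ∑ l, P c a j l * D c j a l = T := by
    refine sum_congr rfl fun a _ => ?_
    rw [sum_comm]
    refine sum_congr rfl fun j _ => sum_congr rfl fun c _ => sum_congr rfl fun l _ => ?_
    rw [hP.a12, hD1]
    ring
  have hc : T = S - T := by
    nth_rewrite 2 [← ha]
    rw [← hb, hT]
    simp only [← sum_sub_distrib]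
    refine sum_congr rfl fun a _ => sum_congr rfl fun j _ => sum_congr rfl fun c _ =>
      sum_congr rfl fun l _ => ?_
    have h1 := hP.bia a j c l
    have h2 := hP.a12 c j a l
    linear_combination D c j a l * h1 - D c j a l * h2
  rw [e1, e2, e3] at h
  linarith

theorem avg : S_AVG := by
  intro J _ _ P D ρ hP hS hR hD1 hD2 hD
  have h := avg_main P D hP hS hD1 hD2 hD
  have hT := avg_had (fun j l => ρ * (if j = l then 1 else 0) - ri P j l) (fun j l => ri D j l)
    ?_ ?_ ?_
  · have e1 : ∑ j, ∑ l, (ρ * (if j = l then 1 else 0) - ri P j l) * ri D j l =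
      ρ * ∑ j, ri D j j - ∑ j, ∑ l, ri P j l * ri D j l := by
      simp only [sub_mul, sum_sub_distrib, mul_assoc, del, ← mul_sum]
    have e2 : ∑ i, ∑ j, ∑ k, ∑ l, unitCurv i j k l * D i j k l = 2 * ∑ j, ri D j j := by
      have h1 : ∀ i j k l : J, unitCurv i j k l * D i j k l =
          (if i = k then 1 else 0) * (if j = l then 1 else 0) * D i j k l -
            (if i = l then 1 else 0) * (if j = k then 1 else 0) * D i j k l := by
        intro i j k l
        rw [unitCurv, sub_mul]
      simp only [h1, sum_sub_distrib, del2, del3]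
      have h2 : ∀ i j, D i j j i = - D i j i j := by
        intro i j
        rw [← hD2, hD1]
      have h3 : ∑ i, ∑ j, D i j i j = ∑ j, ri D j j := sum_comm
      simp only [h2, sum_neg_distrib, h3]
      ring
    simp only [e1] at hT
    rw [e2]
    linarith
  · intro x
    have := hR x
    have e : ∑ j, ∑ l, (ρ * (if j = l then 1 else 0) - ri P j l) * (x j * x l) =
        ρ * ∑ j, x j ^ 2 - ∑ j, ∑ l, (∑ i, P i j i l) * (x j * x l) := by
      simp only [sub_mul, sum_sub_distrib, mul_assoc, del, ← mul_sum, ri]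
      congr 1
      congr 1
      exact sum_congr rfl fun j _ => by ring
    rw [e]
    linarith
  · intro j l
    exact sum_congr rfl fun i _ => hD2 _ _ _ _
  · intro x
    have e : ∑ j, ∑ l, ri D j l * (x j * x l) = ∑ i, ev4 D (fun a => if i = a then 1 else 0) x
        (fun a => if i = a then 1 else 0) x := by
      simp only [ri, sum_mul]
      rw [mv]
      refine sum_congr rfl fun i _ => ?_
      rw [← qform]
      refine sum_congr rfl fun j _ => sum_congr rfl fun l _ => ?_
      simp only [mul_assoc, del, ← mul_sum]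
    rw [e]
    exact sum_nonneg fun i _ => hD _ _

end avg

end Pool.Agent.Helper57.RH
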