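import Pool.Graph.R_seed8.Y519.HB.Hopf

/-!
# Ricci pinching and the Gauss-Bonnet-Chern integrand in all even dimensions: module statements
-/

set_option autoImplicit false

namespace Pool.Agent.Helper57.RH

open Pool.Agent.Y519.HB Pool.Agent.W666.GB Pool.Agent.W669.HD Finset Polynomial

/-- Ricci curvature at most `ρ` -/
def RicLe {J : Type*} [Fintype J] (ρ : ℝ) (P : J → J → J → J → ℝ) : Prop :=
  ∀ x : J → ℝ, ∑ j, ∑ l, (∑ i, P i j i l) * (x j * x l) ≤ ρ * ∑ j, x j ^ 2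

/-- AVG: the bilinear inequality -/
def S_AVG : Prop :=
  ∀ (J : Type) [Fintype J] [DecidableEq J] (P D : J → J → J → J → ℝ) (ρ : ℝ), Cu P → Se P →
    RicLe ρ P → (∀ i j k l, D j i k l = - D i j k l) → (∀ i j k l, D k l i j = D i j k l) → Se D →
    0 ≤ (∑ i, ∑ j, ∑ k, ∑ l, P i j k l * D i j k l) +
      ρ / 3 * ∑ i, ∑ j, ∑ k, ∑ l, unitCurv i j k l * D i j k l

/-- BETA: the expansion of `(1 + x)^m` at `x = -m/(m-2)` -/
def S_BETA : Prop :=
  ∀ m : ℕ, 3 ≤ m → ∃ β : ℕ → ℝ, (∀ k, 0 ≤ β k) ∧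
    ((X + 1 : ℝ[X]) ^ m = 1 + C (m : ℝ) * X +
      X ^ 2 * ∑ k ∈ Finset.range (m - 1), C (β k) * (X + C ((m : ℝ) / (m - 2))) ^ k)

/-- FRAME: change of frame -/
def S_FRAME : Prop :=
  ∀ (m : ℕ) (T : Type) [Fintype T] [DecidableEq T] (C : T → T4 m), (∀ b, Cu (C b)) →
    ∀ (θ : Fin (Fintype.card T) ≃ T) (y : T × Bool → Fin m × Bool → ℝ),
    EE C y = 0 ∨ ∃ (c : ℝ) (u : Fin (Fintype.card T) × Bool → Fin m × Bool → ℝ),
      (∀ p q, ∑ j, u p j * u q j = if p = q then 1 else 0) ∧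
      EE C y = c ^ 2 * gm (fun b => pul (C (θ b)) u)

/-- PUL: pullbacks by orthonormal families -/
def S_PUL : Prop :=
  ∀ (J T : Type) [Fintype J] [DecidableEq J] [Fintype T] [DecidableEq T] (u : T → J → ℝ),
    (∀ p q, ∑ j, u p j * u q j = if p = q then 1 else 0) →
    (∀ i j k l, pul unitCurv u i j k l = unitCurv i j k l) ∧
    ∀ (P : J → J → J → J → ℝ) (ρ : ℝ), Cu P → Se P → RicLe ρ P → RicLe ρ (pul P u)

/-- CONTR: contraction in one place -/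
def S_CONTR : Prop :=
  ∀ (m : ℕ) (C : Fin m → T4 m) (b₀ : Fin m), (∀ b i j k l, C b k l i j = C b i j k l) →
    ∃ D : T4 m, (∀ i j k l, D j i k l = - D i j k l) ∧ (∀ i j k l, D k l i j = D i j k l) ∧
      gm C = ∑ i, ∑ j, ∑ k, ∑ l, C b₀ i j k l * D i j k l ∧
      ∀ x y : Fin m × Bool → ℝ, ∃ (c : ℝ) (z : ↥(univ.erase b₀) × Bool → Fin m × Bool → ℝ),
        ev4 D x y x y = c ^ 2 * EE (fun b : ↥(univ.erase b₀) => C b) z

/-- POLY: mixed sums of combinations of two tensors are given by a linear functional on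
polynomials -/
def S_POLY : Prop :=
  ∀ (m : ℕ) (P Q : T4 m), ∃ L : ℝ[X] →ₗ[ℝ] ℝ, ∀ α γ : Fin m → ℝ,
    gm (fun b => (fun i j k l => α b * P i j k l + γ b * Q i j k l : T4 m)) =
      L (∏ b, (C (α b) * X + C (γ b)))

end Pool.Agent.Helper57.RH
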