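import Pool.Agent.Helper57.RH.Base
import Pool.Agent.Helper57.RH.Defs

/-!
# Intermediate Ricci pinching: module statements
-/

set_option autoImplicit false

namespace Pool.Agent.Helper57.RH

open Pool.Agent.Y519.HB Pool.Agent.W669.HD Finset Polynomial
open Pool.Agent.W666.GB hiding EE

/-- BETA2: the Newton expansion of `(1 + x)^m` at the nodes `0, 0, -r 3, -r 4, …` -/
def S_BETA2 : Prop :=
  ∀ (m : ℕ) (r : ℕ → ℝ), 3 ≤ m → (∀ j, 3 ≤ j → j ≤ m → 0 ≤ r j) →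
    (∀ j, 3 ≤ j → j < m → r j ≤ r (j + 1)) → ∑ j ∈ Icc 3 m, r j ≤ m →
    ∃ β : ℕ → ℝ, (∀ k, 0 ≤ β k) ∧
      ((X + 1 : ℝ[X]) ^ m = 1 + C (m : ℝ) * X +
        X ^ 2 * ∑ k ∈ range (m - 1), C (β k) * ∏ j ∈ Icc 3 (k + 2), (X + C (r j)))

/-- FRIC: the Ricci curvature of restrictions, in orthonormal frames -/
def S_FRIC : Prop :=
  ∀ (m k : ℕ) (V : Type) [NormedAddCommGroup V] [InnerProductSpace ℝ V]
    (e : OrthonormalBasis (Fin m × Bool) ℝ V) (R : V → V → V → V → ℝ) (ρ : ℝ), AlgCurv R →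
    1 ≤ k → IRicGe R (2 * k - 1) ρ →
    ∀ u : Fin k × Bool → Fin m × Bool → ℝ,
      (∀ p q, ∑ j, u p j * u q j = if p = q then 1 else 0) →
      ∀ x : Fin k × Bool → ℝ, ρ * ∑ p, x p ^ 2 ≤
        ∑ p, R (∑ j, u p j • e j) (∑ q, x q • ∑ j, u q j • e j)
          (∑ j, u p j • e j) (∑ q, x q • ∑ j, u q j • e j)

end Pool.Agent.Helper57.RH
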