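import Pool.Agent.Helper57.RH.Base

/-!
# BETA: the expansion of `(X + 1)^m` with nonnegative coefficients
-/

set_option autoImplicit false

namespace Pool.Agent.Helper57.RH.Beta

open Finset Polynomial

/-- coefficients of `(Z - s)^n` -/
noncomputable def a (s : ℝ) (k p : ℕ) : ℝ := (-s) ^ p * (Nat.choose (k + p) k : ℝ)

noncomputable def S (s : ℝ) (k p : ℕ) : ℝ := ∑ i ∈ range (p + 1), a s k i

noncomputable def F (s : ℝ) (k p : ℕ) : ℝ := ∑ i ∈ range (p + 1), S s k i

lemma a_zero (s : ℝ) (k : ℕ) : a s k 0 = 1 := by simp [a]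

lemma S_zero (s : ℝ) (k : ℕ) : S s k 0 = 1 := by simp [S, a_zero]

lemma F_zero (s : ℝ) (k : ℕ) : F s k 0 = 1 := by simp [F, S_zero]

lemma S_succ (s : ℝ) (k p : ℕ) : S s k (p + 1) = S s k p + a s k (p + 1) := by
  simp [S, sum_range_succ]

lemma F_succ (s : ℝ) (k p : ℕ) : F s k (p + 1) = F s k p + S s k (p + 1) := by
  simp [F, sum_range_succ]

lemma a_succ (s : ℝ) (k p : ℕ) :
    ((p : ℝ) + 1) * a s k (p + 1) = - s * ((k : ℝ) + p + 1) * a s k p := by
  have h : (k + p + 1).choose k * (p + 1) = (k + p).choose k * (k + p + 1) := by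
    have h1 := Nat.add_one_mul_choose_eq (k + p) p
    have h2 : (k + p).choose k = (k + p).choose p := by
      rw [← Nat.choose_symm_add]
    have h3 : (k + p + 1).choose k = (k + p + 1).choose (p + 1) := by
      rw [show k + p + 1 = k + (p + 1) by ring, ← Nat.choose_symm_add]
    rw [h2, h3]
    linarith
  have h' : (((k + p + 1).choose k : ℕ) : ℝ) * ((p : ℝ) + 1)
      = (((k + p).choose k : ℕ) : ℝ) * ((k : ℝ) + p + 1) := by exact_mod_cast h
  unfold a
  rw [show k + (p + 1) = k + p + 1 by ring, pow_succ]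
  linear_combination (-s) ^ p * (-s) * h'

lemma a_one (s : ℝ) (k : ℕ) : a s k 1 = - s * ((k : ℝ) + 1) := by
  have := a_succ s k 0
  simp [a_zero] at this
  simpa using this

/-- the three-term relation -/
lemma rel (s : ℝ) (k q : ℕ) :
    ((q : ℝ) + 2) * S s k (q + 2) =
      F s k (q + 1) - s * ((k : ℝ) + 2 + q) * S s k (q + 1) + s * F s k q := by
  induction q with
  | zero =>
    have h1 := a_one s k
    have h2 := a_succ s k 1
    norm_num at h2 ⊢
    rw [show (2 : ℕ) = 1 + 1 from rfl, S_succ s k 1, show S s k 1 = S s k 0 + a s k 1 from S_succ s k 0,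
      show F s k 1 = F s k 0 + S s k 1 from F_succ s k 0, F_zero,
      show S s k 1 = S s k 0 + a s k 1 from S_succ s k 0, S_zero]
    linear_combination h2 + h1
  | succ q ih =>
    have h := a_succ s k (q + 2)
    have h1 := S_succ s k (q + 2)
    have h2 := S_succ s k (q + 1)
    have h3 := F_succ s k (q + 1)
    have h4 := F_succ s k q
    push_cast at h ⊢
    rw [show q + 1 + 2 = q + 2 + 1 by ring, show q + 1 + 1 = q + 2 by ring] at *
    rw [show q + 2 + 1 = q + 3 by ring] at *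
    linear_combination h + (q + 3 : ℝ) * h1 + ih + s * (k + 3 + q : ℝ) * h2 - h3 - s * h4

lemma F_nonneg (n k : ℕ) (hn : 1 ≤ n) : ∀ p : ℕ, p + k ≤ n → 0 ≤ F (2 / (n : ℝ)) k p := by
  have hn' : (0 : ℝ) < n := by exact_mod_cast hn
  set s : ℝ := 2 / (n : ℝ) with hs
  have hs0 : 0 ≤ s := by positivity
  have hsn : s * n = 2 := by rw [hs]; field_simp
  intro p
  induction p using Nat.strong_induction_on with
  | _ p ih =>
    intro hp
    match p, ih, hp with
    | 0, _, _ => rw [F_zero]; norm_num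
    | 1, _, hp =>
      rw [show F s k 1 = F s k 0 + S s k 1 from F_succ s k 0,
        show S s k 1 = S s k 0 + a s k 1 from S_succ s k 0, F_zero, S_zero, a_one]
      have : ((1 : ℝ) + k) ≤ n := by exact_mod_cast hp
      nlinarith
    | (q + 2), ih, hp =>
      have h0 : 0 ≤ F s k q := ih q (by omega) (by omega)
      have h1 : 0 ≤ F s k (q + 1) := ih (q + 1) (by omega) (by omega)
      have hr := rel s k q
      have e1 : F s k (q + 2) = F s k (q + 1) + S s k (q + 2) := F_succ s k (q + 1)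
      have e2 : F s k (q + 1) = F s k q + S s k (q + 1) := F_succ s k q
      have hq : ((q : ℝ) + 2 + k) ≤ n := by exact_mod_cast hp
      have hsq : s * ((q : ℝ) + 2 + k) ≤ 2 := by
        calc s * ((q : ℝ) + 2 + k) ≤ s * n := mul_le_mul_of_nonneg_left hq hs0
          _ = 2 := hsn
      have key : ((q : ℝ) + 2) * F s k (q + 2) =
          ((q : ℝ) + 3 - s * ((q : ℝ) + 2 + k)) * F s k (q + 1) +
            s * ((q : ℝ) + 3 + k) * F s k q := by
        linear_combination (q + 2 : ℝ) * e1 + hr + s * ((k : ℝ) + 2 + q) * (e2)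
      have hpos : 0 ≤ ((q : ℝ) + 2) * F s k (q + 2) := by
        rw [key]
        have : (0 : ℝ) ≤ (q : ℝ) := Nat.cast_nonneg q
        apply add_nonneg
        · apply mul_nonneg _ h1
          linarith
        · positivity
      have hq2 : (0 : ℝ) < (q : ℝ) + 2 := by positivity
      exact nonneg_of_mul_nonneg_right hpos hq2

/-- summation of a table along antidiagonals -/
lemma table (f g : ℕ → ℕ → ℝ) (h0 : ∀ k, g k 0 = f k 0)
    (h1 : ∀ k p, g k (p + 1) = g k p + f k (p + 1)) (Z : ℝ[X]) (n : ℕ) :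
    ∑ k ∈ range (n + 2), C (g k (n + 1 - k)) * Z ^ k =
      ∑ k ∈ range (n + 1), C (g k (n - k)) * Z ^ k +
        ∑ k ∈ range (n + 2), C (f k (n + 1 - k)) * Z ^ k := by
  rw [sum_range_succ _ (n + 1), sum_range_succ (fun k => C (f k (n + 1 - k)) * Z ^ k) (n + 1),
    ← add_assoc, ← sum_add_distrib]
  have e : g (n + 1) (n + 1 - (n + 1)) = f (n + 1) (n + 1 - (n + 1)) := by
    simp [h0]
  rw [e]
  congr 1
  apply sum_congr rfl
  intro k hk
  have hk' : k ≤ n := by simpa [Nat.lt_succ_iff] using hk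
  rw [show n + 1 - k = (n - k) + 1 by omega, h1, C_add, add_mul]

lemma U_eq (s : ℝ) (Z : ℝ[X]) (n : ℕ) :
    ∑ k ∈ range (n + 1), C (a s k (n - k)) * Z ^ k = (Z + C (-s)) ^ n := by
  rw [add_pow]
  apply sum_congr rfl
  intro k hk
  have hk' : k ≤ n := by simpa [Nat.lt_succ_iff] using hk
  unfold a
  rw [show k + (n - k) = n by omega, C_mul, C_pow, map_natCast]
  ring

lemma H_eq (s : ℝ) (Y : ℝ[X]) (hY : Y + C (-s) = X + 1) (n : ℕ) :
    X * ∑ k ∈ range (n + 1), C (S s k (n - k)) * Y ^ k = (X + 1) ^ (n + 1) - 1 := by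
  induction n with
  | zero => simp [S_zero]
  | succ n ih =>
    rw [table (a s) (S s) (fun k => by rw [S_zero, a_zero]) (S_succ s) Y n, U_eq, mul_add, ih, hY]
    ring

lemma G_eq (s : ℝ) (Y : ℝ[X]) (hY : Y + C (-s) = X + 1) (n : ℕ) :
    X ^ 2 * ∑ k ∈ range (n + 1), C (F s k (n - k)) * Y ^ k =
      (X + 1) ^ (n + 2) - 1 - C ((n : ℝ) + 2) * X := by
  induction n with
  | zero =>
    simp [F_zero]
    rw [show (C 2 : ℝ[X]) = 2 from rfl]
    ring
  | succ n ih =>
    have hH := H_eq s Y hY (n + 1)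
    rw [table (S s) (F s) (fun k => by rw [S_zero, F_zero]) (F_succ s) Y n, mul_add, ih]
    have : X ^ 2 * ∑ k ∈ range (n + 2), C (S s k (n + 1 - k)) * Y ^ k
        = X * ((X + 1) ^ (n + 1 + 1) - 1) := by
      rw [← hH]; ring
    rw [this]
    push_cast
    have hC : (C ((n : ℝ) + 1 + 2) : ℝ[X]) = C ((n : ℝ) + 2) + 1 := by
      rw [show ((n : ℝ) + 1 + 2) = ((n : ℝ) + 2) + 1 by ring, C_add, C_1]
    rw [hC]
    ring

theorem beta : S_BETA := by
  intro m hm
  obtain ⟨n, rfl⟩ : ∃ n, m = n + 2 := ⟨m - 2, by omega⟩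
  have hn : 1 ≤ n := by omega
  have hn' : (0 : ℝ) < n := by exact_mod_cast hn
  refine ⟨fun k => if k ≤ n then F (2 / (n : ℝ)) k (n - k) else 0, ?_, ?_⟩
  · intro k
    dsimp only
    split_ifs with h
    · exact F_nonneg n k hn (n - k) (by omega)
    · exact le_rfl
  · have hG := G_eq (2 / (n : ℝ)) (X + C (((n + 2 : ℕ) : ℝ) / (((n + 2 : ℕ) : ℝ) - 2))) (by
      rw [add_assoc, ← C_add]
      congr 1
      rw [← C_1]
      congr 1
      push_cast
      rw [show (n : ℝ) + 2 - 2 = n by ring]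
      field_simp
      ring) n
    have hs : ∑ k ∈ Finset.range (n + 2 - 1),
        C ((fun k => if k ≤ n then F (2 / (n : ℝ)) k (n - k) else 0) k) *
          (X + C (((n + 2 : ℕ) : ℝ) / (((n + 2 : ℕ) : ℝ) - 2))) ^ k =
        ∑ k ∈ Finset.range (n + 1), C (F (2 / (n : ℝ)) k (n - k)) *
          (X + C (((n + 2 : ℕ) : ℝ) / (((n + 2 : ℕ) : ℝ) - 2))) ^ k := by
      rw [show n + 2 - 1 = n + 1 by omega]
      apply sum_congr rfl
      intro k hk
      have hk' : k ≤ n := by simpa [Nat.lt_succ_iff] using hk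
      simp only [hk', if_true]
    rw [hs, hG]
    push_cast
    ring

end Pool.Agent.Helper57.RH.Beta

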