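import Pool.Agent.Helper57.RH.Base2

/-!
# BETA2: the Newton expansion of `(X + 1)^m` with nonnegative coefficients
-/

set_option autoImplicit false

namespace Pool.Agent.Helper57.RH.Beta2

open Finset

/-- the geometric series -/
noncomputable def G (y : ℝ) : PowerSeries ℝ := PowerSeries.mk fun n => y ^ n

lemma G_inv (y : ℝ) : (1 - PowerSeries.C y * PowerSeries.X) * G y = 1 := by
  ext n
  cases n with
  | zero =>
    rw [sub_mul, one_mul, map_sub, mul_assoc, PowerSeries.coeff_C_mul,
      PowerSeries.coeff_zero_X_mul]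
    simp [G]
  | succ n =>
    rw [sub_mul, one_mul, map_sub, mul_assoc, PowerSeries.coeff_C_mul,
      PowerSeries.coeff_succ_X_mul, PowerSeries.coeff_one]
    simp [G, pow_succ]
    ring

lemma G_mul (a b : ℝ) : G a * G b =
    G (a + b) - PowerSeries.C (a * b) * (PowerSeries.X ^ 2 * (G a * G b * G (a + b))) := by
  have h1 := G_inv a
  have h2 := G_inv b
  have h3 := G_inv (a + b)
  rw [map_add] at h3
  rw [map_mul]
  linear_combination (-(G a * G b)) * h3 +
    (1 - PowerSeries.C b * PowerSeries.X) * G b * G (a + b) * h1 + G (a + b) * h2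

lemma G_sub (y a : ℝ) : G y = G a + PowerSeries.C (y - a) * (PowerSeries.X * (G a * G y)) := by
  have h1 := G_inv a
  have h2 := G_inv y
  rw [map_sub]
  linear_combination (-(G y)) * h1 + G a * h2

/-- complete homogeneous symmetric polynomials -/
noncomputable def h (p : ℕ) (s : Multiset ℝ) : ℝ := PowerSeries.coeff p (s.map G).prod

lemma h_zero (s : Multiset ℝ) : h 0 s = 1 := by
  unfold h
  rw [PowerSeries.coeff_zero_eq_constantCoeff_apply, map_multiset_prod, Multiset.map_map]
  have : ((s.map (⇑(PowerSeries.constantCoeff (R := ℝ)) ∘ G))) = s.map (fun _ => (1 : ℝ)) := by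
    apply Multiset.map_congr rfl
    intro x _
    simp [G]
  rw [this]
  simp

lemma h_split (p : ℕ) (a c : ℝ) (O : Multiset ℝ) : h (p + 2) (a ::ₘ c ::ₘ O) =
    h (p + 2) ((a + c) ::ₘ O) - a * c * h p (a ::ₘ c ::ₘ (a + c) ::ₘ O) := by
  unfold h
  simp only [Multiset.map_cons, Multiset.prod_cons]
  rw [← mul_assoc, G_mul, sub_mul, map_sub, mul_assoc, mul_assoc, PowerSeries.coeff_C_mul,
    PowerSeries.coeff_X_pow_mul]
  congr 3
  ring_nf

lemma h_split_low (p : ℕ) (hp : p < 2) (a c : ℝ) (O : Multiset ℝ) :
    h p (a ::ₘ c ::ₘ O) = h p ((a + c) ::ₘ O) := by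
  unfold h
  simp only [Multiset.map_cons, Multiset.prod_cons]
  rw [← mul_assoc, G_mul, sub_mul, map_sub, mul_assoc, mul_assoc, PowerSeries.coeff_C_mul,
    PowerSeries.coeff_X_pow_mul', if_neg (by omega)]
  ring

lemma h_newton (q : ℕ) (y a : ℝ) (O : Multiset ℝ) :
    h (q + 1) (y ::ₘ O) = h (q + 1) (a ::ₘ O) + (y - a) * h q (y ::ₘ a ::ₘ O) := by
  unfold h
  simp only [Multiset.map_cons, Multiset.prod_cons]
  conv_lhs => rw [G_sub y a]
  rw [add_mul, map_add, mul_assoc, mul_assoc, PowerSeries.coeff_C_mul,
    PowerSeries.coeff_succ_X_mul]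
  congr 3
  ring

lemma G_neg (x : ℝ) : G (-x) = PowerSeries.rescale (-1 : ℝ) (G x) := by
  ext n
  simp only [G, PowerSeries.coeff_rescale, PowerSeries.coeff_mk]
  rw [← mul_pow]
  ring_nf

lemma prod_neg (s : Multiset ℝ) : ((s.map (fun x => -x)).map G).prod =
    PowerSeries.rescale (-1 : ℝ) (s.map G).prod := by
  induction s using Multiset.induction_on with
  | empty => simp
  | cons a s ih =>
    rw [Multiset.map_cons, Multiset.map_cons, Multiset.map_cons, Multiset.prod_cons,
      Multiset.prod_cons, map_mul, ih, G_neg]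

lemma h_neg (p : ℕ) (s : Multiset ℝ) : h p (s.map (fun x => -x)) = (-1) ^ p * h p s := by
  unfold h
  rw [prod_neg, PowerSeries.coeff_rescale]

lemma coeff_mul_nonneg (f g : PowerSeries ℝ) (hf : ∀ n, 0 ≤ PowerSeries.coeff n f)
    (hg : ∀ n, 0 ≤ PowerSeries.coeff n g) (n : ℕ) : 0 ≤ PowerSeries.coeff n (f * g) := by
  rw [PowerSeries.coeff_mul]
  exact sum_nonneg fun x _ => mul_nonneg (hf _) (hg _)

lemma h_nonneg_of_nonneg (p : ℕ) (s : Multiset ℝ) (hs : ∀ x ∈ s, 0 ≤ x) : 0 ≤ h p s := by
  unfold h
  induction s using Multiset.induction_on generalizing p with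
  | empty =>
    simp [PowerSeries.coeff_one]
    split_ifs <;> norm_num
  | cons a s ih =>
    rw [Multiset.map_cons, Multiset.prod_cons]
    apply coeff_mul_nonneg
    · intro n
      simp only [G, PowerSeries.coeff_mk]
      exact pow_nonneg (hs a (Multiset.mem_cons_self a s)) n
    · intro n
      exact ih n fun x hx => hs x (Multiset.mem_cons_of_mem hx)

lemma sum_nonpos' (s : Multiset ℝ) (hs : ∀ x ∈ s, x < 0) : s.sum ≤ 0 := by
  induction s using Multiset.induction_on with
  | empty => simp
  | cons a s ih =>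
    rw [Multiset.sum_cons]
    have h1 := hs a (Multiset.mem_cons_self a s)
    have h2 := ih fun x hx => hs x (Multiset.mem_cons_of_mem hx)
    linarith

lemma h_nonneg : ∀ p : ℕ, ∀ n : ℕ, ∀ s : Multiset ℝ, s.card = n →
    (Odd p → ∃ b : ℝ, (∀ x ∈ s, b ≤ x) ∧ 0 ≤ s.sum + ((p : ℝ) - 1) * b) → 0 ≤ h p s := by
  intro p
  induction p using Nat.strong_induction_on with
  | _ p ihp =>
  intro n
  induction n using Nat.strong_induction_on with
  | _ n ihn =>
  intro s hn hodd
  by_cases hneg : ∃ c ∈ s, c < 0
  · obtain ⟨c, hc, hc0⟩ := hneg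
    by_cases hpos : ∃ a ∈ s, 0 ≤ a
    · obtain ⟨a, ha, ha0⟩ := hpos
      obtain ⟨t, rfl⟩ := Multiset.exists_cons_of_mem ha
      have hct : c ∈ t := by
        rcases Multiset.mem_cons.1 hc with h | h
        · exact absurd h (by linarith [h ▸ hc0] |> fun (_ : False) => by simp_all)
        · exact h
      obtain ⟨O, rfl⟩ := Multiset.exists_cons_of_mem hct
      have hcard : ((a + c) ::ₘ O).card < n := by
        rw [← hn]; simp
      have h1 : 0 ≤ h p ((a + c) ::ₘ O) := by
        apply ihn _ hcard _ rfl
        intro ho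
        obtain ⟨b, hb, hb'⟩ := hodd ho
        refine ⟨b, ?_, ?_⟩
        · intro x hx
          rcases Multiset.mem_cons.1 hx with h | h
          · rw [h]
            have := hb c (by simp)
            linarith
          · exact hb x (by simp [h])
        · simp only [Multiset.sum_cons] at hb' ⊢
          linarith
      rcases Nat.lt_or_ge p 2 with hp | hp
      · rw [h_split_low p hp]; exact h1
      · obtain ⟨q, rfl⟩ : ∃ q, p = q + 2 := ⟨p - 2, by omega⟩
        rw [h_split]
        have h2 : 0 ≤ h q (a ::ₘ c ::ₘ (a + c) ::ₘ O) := by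
          apply ihp q (by omega) _ _ rfl
          intro ho
          obtain ⟨b, hb, hb'⟩ := hodd (by
            rcases ho with ⟨k, hk⟩; exact ⟨k + 1, by omega⟩)
          refine ⟨b, ?_, ?_⟩
          · intro x hx
            simp only [Multiset.mem_cons] at hx
            rcases hx with h | h | h | h
            · rw [h]; exact hb a (by simp)
            · rw [h]; exact hb c (by simp)
            · rw [h]
              have := hb c (by simp)
              linarith
            · exact hb x (by simp [h])
          · have hbc := hb c (by simp)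
            simp only [Multiset.sum_cons] at hb' ⊢
            push_cast at hb'
            nlinarith
        have h3 : 0 ≤ -(a * c) := by nlinarith
        nlinarith
    · push Not at hpos
      rcases Nat.even_or_odd p with he | ho
      · have h1 := h_neg p s
        rw [he.neg_one_pow, one_mul] at h1
        rw [← h1]
        apply h_nonneg_of_nonneg
        intro x hx
        rw [Multiset.mem_map] at hx
        obtain ⟨y, hy, rfl⟩ := hx
        linarith [hpos y hy]
      · exfalso
        obtain ⟨b, hb, hb'⟩ := hodd ho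
        obtain ⟨t, rfl⟩ := Multiset.exists_cons_of_mem hc
        have h1 := sum_nonpos' t fun x hx => hpos x (Multiset.mem_cons_of_mem hx)
        have h2 := hb c (by simp)
        have h3 : (1 : ℝ) ≤ p := by exact_mod_cast ho.pos
        rw [Multiset.sum_cons] at hb'
        nlinarith
  · push Not at hneg
    exact h_nonneg_of_nonneg p s hneg

/-- the first `n` nodes -/
def pre (z : ℕ → ℝ) (n : ℕ) : Multiset ℝ := (Multiset.range n).map z

lemma pre_succ (z : ℕ → ℝ) (n : ℕ) : pre z (n + 1) = z n ::ₘ pre z n := by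
  simp [pre, Multiset.range_succ]

lemma pre_zero (z : ℕ → ℝ) : pre z 0 = 0 := rfl

lemma h_single (p : ℕ) (y : ℝ) : h p {y} = y ^ p := by
  simp [h, G]

lemma newton_aux (z : ℕ → ℝ) (m : ℕ) (y : ℝ) (n : ℕ) (hn : n ≤ m) : y ^ m =
    ∑ k ∈ range n, h (m - k) (pre z (k + 1)) * ∏ i ∈ range k, (y - z i) +
      h (m - n) (y ::ₘ pre z n) * ∏ i ∈ range n, (y - z i) := by
  induction n with
  | zero =>
    simp [pre_zero, h_single]
  | succ n ih =>
    rw [ih (by omega), sum_range_succ, prod_range_succ]
    obtain ⟨q, hq⟩ : ∃ q, m - n = q + 1 := ⟨m - n - 1, by omega⟩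
    have hq' : m - (n + 1) = q := by omega
    rw [hq, hq', h_newton q y (z n) (pre z n), pre_succ]
    ring

lemma newton (z : ℕ → ℝ) (m : ℕ) (y : ℝ) : y ^ m =
    ∑ k ∈ range (m + 1), h (m - k) (pre z (k + 1)) * ∏ i ∈ range k, (y - z i) := by
  rw [newton_aux z m y m le_rfl, sum_range_succ]
  simp [h_zero]

lemma h_one_one (p : ℕ) : h p ((1 : ℝ) ::ₘ {(1 : ℝ)}) = p + 1 := by
  unfold h
  simp only [Multiset.map_cons, Multiset.prod_cons, Multiset.map_singleton,
    Multiset.prod_singleton]
  rw [PowerSeries.coeff_mul]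
  simp [G]

lemma prod_Icc (f : ℕ → ℝ) (k : ℕ) : ∏ j ∈ Icc 3 (k + 2), f j = ∏ i ∈ range k, f (i + 3) := by
  induction k with
  | zero => simp
  | succ k ih =>
    rw [prod_range_succ, ← ih, show k + 1 + 2 = (k + 2) + 1 by ring,
      prod_Icc_succ_top (by omega)]

lemma sum_Icc (f : ℕ → ℝ) (k : ℕ) : ∑ j ∈ Icc 3 (k + 2), f j = ∑ i ∈ range k, f (i + 3) := by
  induction k with
  | zero => simp
  | succ k ih =>
    rw [sum_range_succ, ← ih, show k + 1 + 2 = (k + 2) + 1 by ring,
      sum_Icc_succ_top (by omega)]

/-- the nodes -/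
def z (r : ℕ → ℝ) (i : ℕ) : ℝ := if i < 2 then 1 else 1 - r (i + 1)

lemma sum_pre (z : ℕ → ℝ) (n : ℕ) : (pre z n).sum = ∑ i ∈ range n, z i := by
  rfl

theorem beta2 : S_BETA2 := by
  intro m r hm h0 hmono hsum
  obtain ⟨n, rfl⟩ : ∃ n, m = n + 2 := ⟨m - 2, by omega⟩
  have hn : 1 ≤ n := by omega
  refine ⟨fun k => if k ≤ n then h (n - k) (pre (z r) (k + 3)) else 0, ?_, ?_⟩
  · intro k
    dsimp only
    split_ifs with hk
    · apply h_nonneg _ _ _ rfl
      intro ho
      have hkn : k < n := by
        rcases ho with ⟨c, hc⟩; omega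
      have hdec : ∀ i, 2 ≤ i → ∀ j, i ≤ j → j ≤ n + 1 → r (i + 1) ≤ r (j + 1) := by
        intro i hi j hij
        induction j, hij using Nat.le_induction with
        | base => intro _; exact le_rfl
        | succ j hj ih =>
          intro hjn
          exact (ih (by omega)).trans (hmono (j + 1) (by omega) (by omega))
      refine ⟨1 - r (k + 3), ?_, ?_⟩
      · intro x hx
        unfold pre at hx
        rw [Multiset.mem_map] at hx
        obtain ⟨i, hi, rfl⟩ := hx
        rw [Multiset.mem_range] at hi
        unfold z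
        split_ifs with h2
        · have := h0 (k + 3) (by omega) (by omega)
          linarith
        · have := hdec i (by omega) (k + 2) (by omega) (by omega)
          rw [show k + 2 + 1 = k + 3 by ring] at this
          linarith
      · rw [sum_pre]
        -- split the full sum
        have e1 : ∑ i ∈ range (n + 2), z r i = ((n : ℝ) + 2) - ∑ j ∈ Icc 3 (n + 2), r j := by
          rw [sum_Icc, sum_range_succ', sum_range_succ']
          have : ∀ i ∈ range n, z r (i + 1 + 1) = 1 - r (i + 3) := by
            intro i _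
            unfold z
            rw [if_neg (by omega)]
          rw [sum_congr rfl this, sum_sub_distrib]
          simp [z]
          ring
        have e2 : ∑ i ∈ range (n + 2), z r i =
            ∑ i ∈ range (k + 3), z r i + ∑ i ∈ range (n - k - 1), z r (k + 3 + i) := by
          rw [show n + 2 = (k + 3) + (n - k - 1) by omega, sum_range_add]
        have e3 : ∑ i ∈ range (n - k - 1), z r (k + 3 + i) ≤
            ∑ i ∈ range (n - k - 1), (1 - r (k + 3)) := by
          apply sum_le_sum
          intro i hi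
          rw [mem_range] at hi
          unfold z
          rw [if_neg (by omega)]
          have := hdec (k + 2) (by omega) (k + 3 + i) (by omega) (by omega)
          rw [show k + 2 + 1 = k + 3 by ring] at this
          linarith
        rw [sum_const, card_range, nsmul_eq_mul] at e3
        have e4 : (((n - k : ℕ) : ℝ) - 1) = ((n - k - 1 : ℕ) : ℝ) := by
          rw [Nat.cast_sub (show 1 ≤ n - k by omega)]
          simp
        rw [e4]
        push_cast at hsum
        linarith
    · exact le_rfl
  · apply Polynomial.funext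
    intro x
    have hN := newton (z r) (n + 2) (x + 1)
    rw [sum_range_succ', sum_range_succ'] at hN
    simp only [Polynomial.eval_pow, Polynomial.eval_add, Polynomial.eval_X, Polynomial.eval_one,
      Polynomial.eval_mul, Polynomial.eval_C, Polynomial.eval_finsetSum,
      Polynomial.eval_prod]
    have t0 : h (n + 2 - 0) (pre (z r) (0 + 1)) * ∏ i ∈ range 0, (x + 1 - z r i) = 1 := by
      rw [pre_succ, pre_zero]
      have : z r 0 = 1 := by simp [z]
      rw [this]
      change h (n + 2 - 0) {1} * _ = 1
      rw [h_single]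
      simp
    have t1 : h (n + 2 - (0 + 1)) (pre (z r) (0 + 1 + 1)) * ∏ i ∈ range (0 + 1), (x + 1 - z r i) =
        ((n + 2 : ℕ) : ℝ) * x := by
      rw [pre_succ, pre_succ, pre_zero]
      have z0 : z r 0 = 1 := by simp [z]
      have z1 : z r (0 + 1) = 1 := by simp [z]
      rw [z0, z1]
      change h (n + 2 - (0 + 1)) (1 ::ₘ {1}) * _ = _
      rw [h_one_one, show n + 2 - (0 + 1) = n + 1 by omega, show 0 + 1 = 1 from rfl,
        prod_range_one, z0]
      push_cast
      ring
    have t2 : ∀ k ∈ range (n + 1), h (n + 2 - (k + 1 + 1)) (pre (z r) (k + 1 + 1 + 1)) *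
        ∏ i ∈ range (k + 1 + 1), (x + 1 - z r i) =
        x ^ 2 * ((if k ≤ n then h (n - k) (pre (z r) (k + 3)) else 0) *
          ∏ j ∈ Icc 3 (k + 2), (x + r j)) := by
      intro k hk
      rw [mem_range] at hk
      rw [if_pos (by omega), prod_Icc, prod_range_succ', prod_range_succ',
        show n + 2 - (k + 1 + 1) = n - k by omega, show k + 1 + 1 + 1 = k + 3 by ring]
      have : ∀ i ∈ range k, (x + 1 - z r (i + 1 + 1)) = x + r (i + 3) := by
        intro i _
        unfold z
        rw [if_neg (by omega)]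
        ring
      rw [prod_congr rfl this]
      simp [z]
      ring
    rw [t0, t1, sum_congr rfl t2, ← mul_sum] at hN
    rw [hN, show n + 2 - 1 = n + 1 by omega]
    ring

end Pool.Agent.Helper57.RH.Beta2

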