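import Pool.Agent.Helper57.RH.Base

/-!
# Project RH, module CONTR: contraction in one place
-/

set_option autoImplicit false

namespace Pool.Agent.Helper57.RH

open Pool.Agent.Y519.HB Pool.Agent.W666.GB Pool.Agent.W669.HD Finset

namespace CONTR

variable {m : ℕ} (C : Fin m → T4 m) (b₀ : Fin m)

/-- the product over the other places -/
noncomputable def rst (σ τ : Equiv.Perm (Fin m × Bool)) : ℝ :=
  ∏ b ∈ univ.erase b₀, C b (σ (b, false)) (σ (b, true)) (τ (b, false)) (τ (b, true))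

/-- the contracted tensor -/
noncomputable def Dt : T4 m := fun i j k l =>
  ∑ σ : Equiv.Perm (Fin m × Bool), ∑ τ : Equiv.Perm (Fin m × Bool),
    if ((σ (b₀, false), σ (b₀, true)), (τ (b₀, false), τ (b₀, true))) = ((i, j), (k, l)) then
      sn σ * sn τ * rst C b₀ σ τ else 0

theorem sum_D (W : T4 m) :
    ∑ i, ∑ j, ∑ k, ∑ l, W i j k l * Dt C b₀ i j k l =
      ∑ σ : Equiv.Perm (Fin m × Bool), ∑ τ : Equiv.Perm (Fin m × Bool), sn σ * sn τ *
        (W (σ (b₀, false)) (σ (b₀, true)) (τ (b₀, false)) (τ (b₀, true)) * rst C b₀ σ τ) := by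
  calc ∑ i, ∑ j, ∑ k, ∑ l, W i j k l * Dt C b₀ i j k l
      = ∑ p : ((Fin m × Bool) × (Fin m × Bool)) × ((Fin m × Bool) × (Fin m × Bool)),
          W p.1.1 p.1.2 p.2.1 p.2.2 * Dt C b₀ p.1.1 p.1.2 p.2.1 p.2.2 := by
        symm
        rw [Fintype.sum_prod_type, Fintype.sum_prod_type]
        refine sum_congr rfl fun i _ => sum_congr rfl fun j _ => ?_
        rw [Fintype.sum_prod_type]
    _ = ∑ p : ((Fin m × Bool) × (Fin m × Bool)) × ((Fin m × Bool) × (Fin m × Bool)),
          ∑ σ : Equiv.Perm (Fin m × Bool), ∑ τ : Equiv.Perm (Fin m × Bool),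
          if ((σ (b₀, false), σ (b₀, true)), (τ (b₀, false), τ (b₀, true))) = p then
            sn σ * sn τ * (W p.1.1 p.1.2 p.2.1 p.2.2 * rst C b₀ σ τ) else 0 := by
        refine sum_congr rfl fun p _ => ?_
        unfold Dt
        rw [mul_sum]
        refine sum_congr rfl fun σ _ => ?_
        rw [mul_sum]
        refine sum_congr rfl fun τ _ => ?_
        rw [mul_ite, mul_zero]
        refine if_congr Iff.rfl ?_ rfl
        ring
    _ = ∑ σ : Equiv.Perm (Fin m × Bool), ∑ τ : Equiv.Perm (Fin m × Bool),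
          ∑ p : ((Fin m × Bool) × (Fin m × Bool)) × ((Fin m × Bool) × (Fin m × Bool)),
          if ((σ (b₀, false), σ (b₀, true)), (τ (b₀, false), τ (b₀, true))) = p then
            sn σ * sn τ * (W p.1.1 p.1.2 p.2.1 p.2.2 * rst C b₀ σ τ) else 0 := by
        rw [sum_comm]
        exact sum_congr rfl fun σ _ => sum_comm
    _ = _ := by
        refine sum_congr rfl fun σ _ => sum_congr rfl fun τ _ => ?_
        rw [Finset.sum_ite_eq, if_pos (mem_univ _)]

theorem gm_D : gm C = ∑ i, ∑ j, ∑ k, ∑ l, C b₀ i j k l * Dt C b₀ i j k l := by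
  rw [sum_D]
  unfold gm
  refine sum_congr rfl fun σ _ => sum_congr rfl fun τ _ => ?_
  rw [rst, Finset.mul_prod_erase univ (fun b => C b (σ (b, false)) (σ (b, true)) (τ (b, false))
    (τ (b, true))) (mem_univ b₀)]

theorem anti_D (i j k l : Fin m × Bool) : Dt C b₀ j i k l = - Dt C b₀ i j k l := by
  unfold Dt
  rw [← Equiv.sum_comp (Equiv.mulRight (Equiv.swap (b₀, false) (b₀, true)))]
  rw [← sum_neg_distrib]
  refine sum_congr rfl fun σ _ => ?_
  rw [← sum_neg_distrib]
  refine sum_congr rfl fun τ _ => ?_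
  have e1 : (Equiv.mulRight (Equiv.swap (b₀, false) (b₀, true))) σ =
      σ * Equiv.swap (b₀, false) (b₀, true) := rfl
  have e2 : (σ * Equiv.swap (b₀, false) (b₀, true)) (b₀, false) = σ (b₀, true) := by
    rw [Equiv.Perm.mul_apply, Equiv.swap_apply_left]
  have e3 : (σ * Equiv.swap (b₀, false) (b₀, true)) (b₀, true) = σ (b₀, false) := by
    rw [Equiv.Perm.mul_apply, Equiv.swap_apply_right]
  have e4 : sn (σ * Equiv.swap (b₀, false) (b₀, true)) = - sn σ := by
    have hne : ((b₀, false) : Fin m × Bool) ≠ (b₀, true) := by simp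
    rw [sn_mul]
    unfold sn
    rw [Equiv.Perm.sign_swap hne]
    simp
  have e5 : rst C b₀ (σ * Equiv.swap (b₀, false) (b₀, true)) τ = rst C b₀ σ τ := by
    unfold rst
    refine prod_congr rfl fun b hb => ?_
    have hb' : b ≠ b₀ := (mem_erase.1 hb).1
    have h1 : ∀ β, (σ * Equiv.swap (b₀, false) (b₀, true)) (b, β) = σ (b, β) := by
      intro β
      rw [Equiv.Perm.mul_apply, Equiv.swap_apply_of_ne_of_ne]
      · exact fun h => hb' (congrArg Prod.fst h)
      · exact fun h => hb' (congrArg Prod.fst h)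
    rw [h1, h1]
  rw [e1, e2, e3, e4, e5]
  by_cases h : ((σ (b₀, false), σ (b₀, true)), (τ (b₀, false), τ (b₀, true))) = ((i, j), (k, l))
  · have h' : ((σ (b₀, true), σ (b₀, false)), (τ (b₀, false), τ (b₀, true))) =
        ((j, i), (k, l)) := by
      simp only [Prod.mk.injEq] at h ⊢
      tauto
    rw [if_pos h, if_pos h']
    ring
  · have h' : ¬ ((σ (b₀, true), σ (b₀, false)), (τ (b₀, false), τ (b₀, true))) =
        ((j, i), (k, l)) := by
      simp only [Prod.mk.injEq] at h ⊢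
      tauto
    rw [if_neg h, if_neg h', neg_zero]

theorem pair_D (hC : ∀ b i j k l, C b k l i j = C b i j k l) (i j k l : Fin m × Bool) :
    Dt C b₀ k l i j = Dt C b₀ i j k l := by
  unfold Dt
  rw [sum_comm]
  refine sum_congr rfl fun σ _ => sum_congr rfl fun τ _ => ?_
  have e1 : rst C b₀ τ σ = rst C b₀ σ τ := by
    unfold rst
    exact prod_congr rfl fun b _ => hC b _ _ _ _
  rw [e1]
  refine if_congr ?_ (by ring) rfl
  simp only [Prod.mk.injEq]
  tauto

theorem ev_D (x y : Fin m × Bool → ℝ) :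
    ∃ (c : ℝ) (z : ↥(univ.erase b₀) × Bool → Fin m × Bool → ℝ),
      ev4 (Dt C b₀) x y x y = c ^ 2 * EE (fun b : ↥(univ.erase b₀) => C b) z := by
  obtain ⟨v, hv⟩ : ∃ v : Fin m × Bool → Fin m × Bool → ℝ,
      v = fun q => if q.2 then y else x := ⟨_, rfl⟩
  obtain ⟨c, z, -, h⟩ := gen (fun _ : Fin m × Bool => ()) (univ.erase b₀) v
    (fun q => ⟨(), fun j hj => absurd rfl hj⟩)
  refine ⟨c, z, ?_⟩
  rw [← h C, ev4_eq]
  have e1 := sum_D C b₀ (fun i j k l => x i * y j * x k * y l)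
  refine Eq.trans e1 ?_
  unfold gmw
  refine sum_congr rfl fun σ _ => sum_congr rfl fun τ _ => ?_
  have hs : univ \ (univ.erase b₀) = {b₀} := by
    ext b
    simp
  have hw : ∀ ρ : Equiv.Perm (Fin m × Bool), wt (univ.erase b₀) v ρ =
      x (ρ (b₀, false)) * y (ρ (b₀, true)) := by
    intro ρ
    unfold wt
    rw [hs, prod_singleton, hv]
    rfl
  rw [hw, hw]
  unfold rst
  ring

end CONTR

theorem contr : S_CONTR := fun _ C b₀ hC =>
  ⟨CONTR.Dt C b₀, CONTR.anti_D C b₀, CONTR.pair_D C b₀ hC, CONTR.gm_D C b₀, CONTR.ev_D C b₀⟩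

end Pool.Agent.Helper57.RH
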