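import Pool.Graph.R_seed8.Y519.HB.Defs

/-!
# Upper bounds of intermediate Ricci curvatures, and the classes of pinched curvature tensors

`R x y x y` is the sectional curvature of the plane of an orthonormal pair `x, y`.
-/

set_option autoImplicit false

namespace Pool.Agent.Helper57.RH

open Pool.Agent.W666.GB Pool.Agent.Y519.HB Finset

/-- The `k`-th intermediate Ricci curvature is at most `ρ`: the sum of the sectional curvatures
of the planes spanned by `x` and `y i`, `i < k`, is at most `ρ` whenever `x, y 0, …, y (k - 1)`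
are orthonormal. In dimension `k + 1` this is the upper bound `ρ` for the Ricci curvature. -/
def IRicLe {V : Type*} [NormedAddCommGroup V] [InnerProductSpace ℝ V] (R : V → V → V → V → ℝ)
    (k : ℕ) (ρ : ℝ) : Prop :=
  ∀ (x : V) (y : Fin k → V), ‖x‖ = 1 → (∀ i, inner ℝ x (y i) = (0 : ℝ)) → Orthonormal ℝ y →
    ∑ i, R x (y i) x (y i) ≤ ρ

/-- Positive (or nonnegative) curvature with bounded intermediate Ricci curvatures, in dimension
`2 m`: all sectional curvatures are at least `c ≥ 0`, and there are numbers `ρ 3, …, ρ m` with sum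
at most `(m - 1) (m + 4) c` such that the `(2 j - 1)`-st intermediate Ricci curvature is at most
`ρ j` for `j = 3, …, m`. -/
def PosPinched (m : ℕ) (c : ℝ) {V : Type} [NormedAddCommGroup V] [InnerProductSpace ℝ V]
    (R : V → V → V → V → ℝ) : Prop :=
  0 ≤ c ∧ (∀ x y : V, ‖x‖ = 1 → ‖y‖ = 1 → inner ℝ x y = (0 : ℝ) → c ≤ R x y x y) ∧
    ∃ ρ : ℕ → ℝ, (∀ j ∈ Icc 3 m, IRicLe R (2 * j - 1) (ρ j)) ∧
      ∑ j ∈ Icc 3 m, ρ j ≤ (m - 1) * (m + 4) * c

/-- A pinched algebraic curvature tensor plus squares of decomposable two-forms `x k ∧ y k`. -/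
def PosPinchedSq (m : ℕ) (c : ℝ) {V : Type} [NormedAddCommGroup V] [InnerProductSpace ℝ V]
    (R : V → V → V → V → ℝ) : Prop :=
  ∃ (S : V → V → V → V → ℝ) (n : ℕ) (x y : Fin n → V), AlgCurv S ∧ PosPinched m c S ∧
    ∀ a b c' d, R a b c' d = S a b c' d + ∑ k, sqDec (x k) (y k) a b c' d

end Pool.Agent.Helper57.RH
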