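import Pool.Agent.Helper57.RH.Sq

/-!
# Fields of curvature tensors
-/

set_option autoImplicit false

namespace Pool.Agent.Helper57.RH

open Pool.Agent.Y519.HB Pool.Agent.W669.HD Finset MeasureTheory
open Pool.Agent.W666.GB hiding EE

section

variable {V : Type} [NormedAddCommGroup V] [InnerProductSpace ℝ V] {R : V → V → V → V → ℝ}
variable {m : ℕ}

theorem point_sq (e : OrthonormalBasis (Fin m × Bool) ℝ V) (hB : S_BETA2) (hF : S_FRIC)
    (hm : 3 ≤ m) {c : ℝ} (h : PinchedSq m c R) : roundGB m c ≤ (-1) ^ m * gbc e R := by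
  obtain ⟨S, n, x, y, hS, hP, hR⟩ := h
  exact ((second e hm hS hP.1 hP.2.1).trans (pointwise2 e hB hF hm hS hP)).trans
    (sq_bound e hB hF hm hS hP hR)

theorem pinched_sq {c : ℝ} (hR : AlgCurv R) (h : Pinched m c R) : PinchedSq m c R :=
  ⟨R, 0, Fin.elim0, Fin.elim0, hR, h, fun a b c' d => by simp⟩

theorem PinchedSq.nonneg {c : ℝ} (h : PinchedSq m c R) : 0 ≤ c := by
  obtain ⟨S, n, x, y, hS, hP, hR⟩ := h
  exact hP.1

/-- constant curvature -/
theorem gbc_const (e : OrthonormalBasis (Fin m × Bool) ℝ V) {c : ℝ}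
    (h : ∀ x y z w, R x y z w = -(c * unitT x y z w)) : (-1) ^ m * gbc e R = roundGB m c := by
  rw [gbc_eq, const_eq, ← unit_gm]
  congr 2
  funext b i j k l
  simp only [cp, negT, h, cp_unit]
  ring

theorem round_inj (hm : 1 ≤ m) {c c' : ℝ} (hc : 0 ≤ c) (hcc : c ≤ c')
    (h : roundGB m c' ≤ roundGB m c) : c' = c := by
  refine le_antisymm ?_ hcc
  have h1 : roundGB m 1 * c' ^ m ≤ roundGB m 1 * c ^ m := by
    unfold roundGB at h ⊢
    simpa using h
  have h2 := le_of_mul_le_mul_left h1 (roundGB_pos m one_pos)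
  exact (pow_le_pow_iff_left₀ (hc.trans hcc) hc (by omega)).1 h2

theorem round_mono {c c' : ℝ} (hc : 0 ≤ c) (hcc : c ≤ c') : roundGB m c ≤ roundGB m c' := by
  have hπ := Real.pi_pos
  unfold roundGB
  gcongr

end

section

variable {m : ℕ} {M : Type} [MeasurableSpace M] (μ : Measure M) (K : CurvField m M) (c : M → ℝ)

theorem field_nonneg (hB : S_BETA2) (hF : S_FRIC) (hm : 3 ≤ m)
    (h : ∀ p, PinchedSq m (c p) (K.R p)) : 0 ≤ (-1) ^ m * ∫ p, K.gb p ∂μ := by
  rw [← integral_const_mul]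
  exact integral_nonneg fun p => (roundGB_nonneg (h p).nonneg).trans
    (point_sq (K.e p) hB hF hm (h p))

theorem field_zero (hB : S_BETA2) (hF : S_FRIC) (hm : 3 ≤ m)
    (h : ∀ p, Pinched m (c p) (K.R p)) (hint : Integrable K.gb μ) :
    (∫ p, K.gb p ∂μ = 0 ↔ ∀ᵐ p ∂μ, ∀ x y z w : K.V p, K.R p x y z w = 0) := by
  have hpt : ∀ p, roundGB m (c p) ≤ (-1) ^ m * K.gb p := fun p =>
    point_sq (K.e p) hB hF hm (pinched_sq (K.curv p) (h p))
  constructor
  · intro h0
    have h1 : ∫ p, (-1) ^ m * K.gb p ∂μ = 0 := by rw [integral_const_mul, h0, mul_zero]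
    have h2 := (integral_eq_zero_iff_of_nonneg (fun p =>
      (roundGB_nonneg (h p).1).trans (hpt p)) (hint.const_mul _)).1 h1
    filter_upwards [h2] with p hp x y z w
    have h3 : (-1) ^ m * K.gb p = 0 := hp
    have h4 : roundGB m (c p) ≤ 0 := by rw [← h3]; exact hpt p
    have h5 : c p = 0 := by
      by_contra hne
      have := roundGB_pos m (lt_of_le_of_ne (h p).1 (Ne.symm hne))
      linarith
    have h6 := h p
    rw [h5] at h6
    exact flat_of_pinched (K.e p) hF hm (K.curv p) h6 x y z w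
  · intro h0
    refine integral_eq_zero_of_ae ?_
    filter_upwards [h0] with p hp
    have h1 : (-1) ^ m * gbc (K.e p) (K.R p) = roundGB m 0 :=
      gbc_const (K.e p) fun x y z w => by rw [hp x y z w]; ring
    have h2 : roundGB m 0 = 0 := by
      unfold roundGB
      rw [zero_pow (by omega), mul_zero]
    rw [h2] at h1
    rcases mul_eq_zero.1 h1 with h3 | h3
    · exact absurd h3 (pow_ne_zero _ (by norm_num))
    · exact h3

theorem field_pos (hB : S_BETA2) (hF : S_FRIC) (hm : 3 ≤ m)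
    (h : ∀ p, PinchedSq m (c p) (K.R p)) (hint : Integrable K.gb μ)
    (hμ : μ {p | 0 < c p} ≠ 0) : 0 < (-1) ^ m * ∫ p, K.gb p ∂μ := by
  have hpt : ∀ p, roundGB m (c p) ≤ (-1) ^ m * K.gb p := fun p =>
    point_sq (K.e p) hB hF hm (h p)
  rw [← integral_const_mul, integral_pos_iff_support_of_nonneg (fun p =>
    (roundGB_nonneg (h p).nonneg).trans (hpt p)) (hint.const_mul _)]
  refine lt_of_lt_of_le (pos_iff_ne_zero.2 hμ) (measure_mono fun p hp => ?_)
  have h1 := roundGB_pos m (show 0 < c p from hp)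
  have h2 := hpt p
  show (-1) ^ m * K.gb p ≠ 0
  linarith

theorem field_vol [IsFiniteMeasure μ] (hB : S_BETA2) (hF : S_FRIC) (hm : 3 ≤ m)
    (h : ∀ p, PinchedSq m (c p) (K.R p)) (hint : Integrable K.gb μ) {c₀ : ℝ} (hc₀ : 0 ≤ c₀)
    (hc : ∀ p, c₀ ≤ c p) : roundGB m c₀ * μ.real Set.univ ≤ (-1) ^ m * ∫ p, K.gb p ∂μ := by
  rw [← integral_const_mul]
  have h1 : ∫ _p, roundGB m c₀ ∂μ ≤ ∫ p, (-1) ^ m * K.gb p ∂μ :=
    integral_mono (integrable_const _) (hint.const_mul _) fun p =>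
      (round_mono hc₀ (hc p)).trans (point_sq (K.e p) hB hF hm (h p))
  rw [integral_const, smul_eq_mul] at h1
  linarith

theorem field_rigid [IsFiniteMeasure μ] (hB : S_BETA2) (hF : S_FRIC) (hm : 3 ≤ m)
    (h : ∀ p, Pinched m (c p) (K.R p)) (hint : Integrable K.gb μ) {c₀ : ℝ} (hc₀ : 0 ≤ c₀)
    (hc : ∀ p, c₀ ≤ c p) :
    ((-1) ^ m * ∫ p, K.gb p ∂μ = roundGB m c₀ * μ.real Set.univ ↔
      ∀ᵐ p ∂μ, ∀ x y z w : K.V p, K.R p x y z w = -(c₀ * unitT x y z w)) := by
  have hpt : ∀ p, roundGB m (c p) ≤ (-1) ^ m * K.gb p := fun p =>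
    point_sq (K.e p) hB hF hm (pinched_sq (K.curv p) (h p))
  have hI : ∫ p, ((-1) ^ m * K.gb p - roundGB m c₀) ∂μ =
      (-1) ^ m * ∫ p, K.gb p ∂μ - roundGB m c₀ * μ.real Set.univ := by
    rw [integral_sub (hint.const_mul _) (integrable_const _), integral_const_mul,
      integral_const, smul_eq_mul]
    ring
  constructor
  · intro h0
    have h1 : ∫ p, ((-1) ^ m * K.gb p - roundGB m c₀) ∂μ = 0 := by
      rw [hI, h0, sub_self]
    have h2 := (integral_eq_zero_iff_of_nonneg (fun p =>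
      sub_nonneg.2 ((round_mono hc₀ (hc p)).trans (hpt p)))
      ((hint.const_mul _).sub (integrable_const _))).1 h1
    filter_upwards [h2] with p hp x y z w
    have h3 : (-1) ^ m * K.gb p - roundGB m c₀ = 0 := hp
    have h4 : (-1) ^ m * K.gb p = roundGB m c₀ := by linarith
    have h5 : roundGB m (c p) ≤ roundGB m c₀ := by rw [← h4]; exact hpt p
    have h6 := round_inj (by omega) hc₀ (hc p) h5
    have h7 := h p
    rw [h6] at h7
    exact rigid (K.e p) hB hF hm (K.curv p) h7 h4 x y z w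
  · intro h0
    have h1 : ∫ p, ((-1) ^ m * K.gb p - roundGB m c₀) ∂μ = 0 := by
      refine integral_eq_zero_of_ae ?_
      filter_upwards [h0] with p hp
      have h2 : (-1) ^ m * gbc (K.e p) (K.R p) = roundGB m c₀ := gbc_const (K.e p) hp
      show (-1) ^ m * gbc (K.e p) (K.R p) - roundGB m c₀ = 0
      rw [h2, sub_self]
    rw [hI] at h1
    linarith

end

end Pool.Agent.Helper57.RH
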