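import Pool.Agent.Helper57.RH.Base

/-!
# Change of frame for families
-/

set_option autoImplicit false

namespace Pool.Agent.Helper57.RH

open Pool.Agent.Y519.HB Pool.Agent.W669.HD Finset
open Pool.Agent.W666.GB hiding EE

section

variable {T J : Type} [Fintype T] [DecidableEq T] [Fintype J]

theorem EE_small' (C : T → J → J → J → J → ℝ) (M : T × Bool → J → ℝ)
    (h : Fintype.card J < Fintype.card (T × Bool)) : EE C M = 0 := by
  rw [← contract]
  refine sum_eq_zero fun F _ => sum_eq_zero fun G _ => ?_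
  rw [A_noninj M F, zero_mul, zero_mul]
  intro hi
  exact absurd (Fintype.card_le_of_injective F hi) (not_le.2 h)

theorem EE_full' {k : ℕ} (C : Fin k → T4 k) (M : Fin k × Bool → Fin k × Bool → ℝ) :
    EE C M = (Matrix.of M).det ^ 2 * gm C := by
  classical
  have hA : ∀ σ : Equiv.Perm (Fin k × Bool),
      ∑ π : Equiv.Perm (Fin k × Bool), sn π * ∏ p, M (π p) (σ p) = sn σ * (Matrix.of M).det := by
    intro σ
    rw [A_det]
    exact Matrix.det_permute' σ (Matrix.of M)
  have h0 : ∀ F : Fin k × Bool → Fin k × Bool,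
      F ∉ Set.range (fun σ : Equiv.Perm (Fin k × Bool) => (σ : Fin k × Bool → Fin k × Bool)) →
      ∑ π : Equiv.Perm (Fin k × Bool), sn π * ∏ p, M (π p) (F p) = 0 := by
    intro F hF
    refine A_noninj M F fun hi => hF ?_
    exact ⟨Equiv.ofBijective F (Finite.injective_iff_bijective.1 hi), rfl⟩
  rw [← contract]
  have hinj : Function.Injective
      (fun σ : Equiv.Perm (Fin k × Bool) => (σ : Fin k × Bool → Fin k × Bool)) :=
    DFunLike.coe_injective
  unfold gm
  rw [mul_sum]
  symm
  refine Fintype.sum_of_injective _ hinj _ _ ?_ ?_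
  · intro F hF
    refine sum_eq_zero fun G _ => ?_
    rw [h0 F hF, zero_mul, zero_mul]
  · intro σ
    rw [mul_sum]
    refine Fintype.sum_of_injective _ hinj _ _ ?_ ?_
    · intro G hG
      rw [h0 G hG, mul_zero, zero_mul]
    · intro τ
      rw [hA, hA]
      ring

theorem EE_pul {T' : Type} [Fintype T'] (C : T → J → J → J → J → ℝ) (hC : ∀ b, Cu (C b))
    (u : T' → J → ℝ) (M : T × Bool → T' → ℝ) :
    EE C (fun q j => ∑ s, M q s * u s j) = EE (fun b => pul (C b) u) M := by
  unfold EE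
  refine sum_congr rfl fun π _ => sum_congr rfl fun π' _ => ?_
  congr 1
  refine prod_congr rfl fun b _ => ?_
  rw [ev4_pul (hC b)]

end

theorem frame : S_FRAME := by
  classical
  intro m T _ _ C hC θ y
  obtain ⟨Z, hZ⟩ : ∃ Z : T × Bool → EuclideanSpace ℝ (Fin m × Bool),
    Z = fun q => WithLp.toLp 2 (y q) := ⟨_, rfl⟩
  obtain ⟨E, hE⟩ : ∃ E : Submodule ℝ (EuclideanSpace ℝ (Fin m × Bool)),
    E = Submodule.span ℝ (Set.range Z) := ⟨_, rfl⟩
  have hZE : ∀ q, Z q ∈ E := fun q => by
    rw [hE]; exact Submodule.subset_span ⟨q, rfl⟩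
  have key : ∀ {J : Type} [Fintype J] (ε : OrthonormalBasis J ℝ E),
      EE C y = EE (fun b => pul (C b) (fun s => ((ε s : EuclideanSpace ℝ (Fin m × Bool))).ofLp))
        (fun q s => ε.repr ⟨Z q, hZE q⟩ s) := by
    intro J _ ε
    rw [← EE_pul C hC]
    congr 1
    funext q j
    have h2 := ε.sum_repr ⟨Z q, hZE q⟩
    have h3 := congrArg (fun v : E => ((v : EuclideanSpace ℝ (Fin m × Bool))).ofLp j) h2
    simp only [Submodule.coe_sum, Submodule.coe_smul] at h3
    have h4 : (Z q).ofLp j = y q j := by rw [hZ]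
    rw [← h4, ← h3]
    simp [WithLp.ofLp_sum, Finset.sum_apply]
  have hcard : Module.finrank ℝ E ≤ Fintype.card (T × Bool) := by
    rw [hE]
    exact finrank_range_le_card Z
  rcases Nat.lt_or_ge (Module.finrank ℝ E) (Fintype.card (T × Bool)) with h1 | h1
  · left
    rw [key (stdOrthonormalBasis ℝ E), EE_small']
    rw [Fintype.card_fin]
    exact h1
  · right
    have h2 : Module.finrank ℝ E = Fintype.card (T × Bool) := le_antisymm hcard h1
    have h3 : Module.finrank ℝ E = Fintype.card (Fin (Fintype.card T) × Bool) := by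
      rw [h2]
      simp
    obtain ⟨g⟩ : Nonempty (Fin (Module.finrank ℝ E) ≃ Fin (Fintype.card T) × Bool) := by
      rw [← Fintype.card_eq, Fintype.card_fin, h3]
    obtain ⟨ε, -⟩ : ∃ ε : OrthonormalBasis (Fin (Fintype.card T) × Bool) ℝ E, True :=
      ⟨(stdOrthonormalBasis ℝ E).reindex g, trivial⟩
    refine ⟨(Matrix.of fun q s => ε.repr ⟨Z (θ q.1, q.2), hZE _⟩ s).det,
      fun s => ((ε s : EuclideanSpace ℝ (Fin m × Bool))).ofLp, ?_, ?_⟩
    · intro p q
      have h4 := ε.orthonormal
      rw [orthonormal_iff_ite] at h4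
      have h5 := h4 q p
      rw [Submodule.coe_inner, PiLp.inner_apply] at h5
      simp only [RCLike.inner_apply, conj_trivial] at h5
      rw [h5]
      simp [eq_comm]
    · rw [key ε, ← EE_full' (fun b => pul (C (θ b)) fun s => ((ε s : EuclideanSpace ℝ (Fin m × Bool))).ofLp)
        (fun q s => ε.repr ⟨Z (θ q.1, q.2), hZE _⟩ s)]
      exact (EE_reindex θ (fun b => pul (C b) fun s => ((ε s : EuclideanSpace ℝ (Fin m × Bool))).ofLp)
        (fun q s => ε.repr ⟨Z q, hZE _⟩ s)).symm

end Pool.Agent.Helper57.RH
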