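import Pool.Agent.Helper57.RH.Base2

/-!
# Module FRIC: the Ricci curvature of restrictions to subspaces
-/

set_option autoImplicit false

namespace Pool.Agent.Helper57.RH

open Pool.Agent.Y519.HB Pool.Agent.W669.HD Finset
open Pool.Agent.W666.GB hiding EE

theorem fric : S_FRIC := by
  classical
  intro m k V _ _ e R ρ hR hk hRic u hu x
  obtain ⟨n, hn⟩ : ∃ n, 2 * k - 1 = n := ⟨_, rfl⟩
  rw [hn] at hRic
  have hn1 : n + 1 = 2 * k := by omega
  obtain ⟨U, hU⟩ : ∃ U : Fin k × Bool → V, U = fun p => ∑ j, u p j • e j := ⟨_, rfl⟩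
  have hUo : Orthonormal ℝ U := by
    rw [orthonormal_iff_ite]
    intro p q
    rw [hU, ← hu p q, e.orthonormal.inner_sum]
    rfl
  let φ : EuclideanSpace ℝ (Fin k × Bool) → V := fun v => ∑ p, v p • U p
  have hφi : ∀ v w, inner ℝ (φ v) (φ w) = inner ℝ v w := by
    intro v w
    simp only [φ]
    rw [hUo.inner_sum, PiLp.inner_apply]
    refine sum_congr rfl fun i _ => ?_
    simp [mul_comm]
  obtain ⟨xv, hxv⟩ : ∃ xv : EuclideanSpace ℝ (Fin k × Bool), xv = WithLp.toLp 2 x := ⟨_, rfl⟩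
  have hxp : ∀ p, xv p = x p := by
    intro p
    rw [hxv]
  obtain ⟨x', hx'⟩ : ∃ x', x' = ∑ q, x q • U q := ⟨_, rfl⟩
  have hxφ : φ xv = x' := by
    rw [hx']
    simp only [φ, hxp]
  have hgoal : (∑ p, R (∑ j, u p j • e j) (∑ q, x q • ∑ j, u q j • e j)
          (∑ j, u p j • e j) (∑ q, x q • ∑ j, u q j • e j)) = ∑ p, R (U p) x' (U p) x' := by
    rw [hx', hU]
  rw [hgoal]
  have hnx : ∑ p, x p ^ 2 = ‖xv‖ ^ 2 := by
    rw [EuclideanSpace.norm_sq_eq]
    refine sum_congr rfl fun p _ => ?_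
    rw [hxp, Real.norm_eq_abs, sq_abs]
  rw [hnx]
  by_cases hx0 : xv = 0
  · have h1 : x' = 0 := by
      rw [← hxφ, hx0]
      simp [φ]
    have h2 : ∀ y z w : V, R y 0 z w = 0 := by
      intro y z w
      have h3 := hR.smul2 0 y 0 z w
      rwa [zero_smul, zero_mul] at h3
    rw [hx0, norm_zero]
    simp [h1, h2]
  have hx0' : 0 < ‖xv‖ := norm_pos_iff.mpr hx0
  -- the basis
  have hfr : Module.finrank ℝ (EuclideanSpace ℝ (Fin k × Bool)) = Fintype.card (Fin (n + 1)) := by
    rw [finrank_euclideanSpace, Fintype.card_prod, Fintype.card_fin, Fintype.card_fin,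
      Fintype.card_bool]
    omega
  obtain ⟨g, hg⟩ := Orthonormal.exists_orthonormalBasis_extension_of_card_eq hfr
    (v := fun _ : Fin (n + 1) => ‖xv‖⁻¹ • xv) (s := {0}) (by
      rw [orthonormal_iff_ite]
      intro i j
      have hij : i = j := Subtype.ext (by
        have h1 := i.2
        have h2 := j.2
        rw [Set.mem_singleton_iff] at h1 h2
        rw [h1, h2])
      rw [if_pos hij]
      simp only [Set.restrict_apply]
      rw [inner_smul_left, inner_smul_right, real_inner_self_eq_norm_sq]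
      simp only [conj_trivial]
      field_simp)
  have hg0 : g 0 = ‖xv‖⁻¹ • xv := hg 0 (Set.mem_singleton _)
  -- the form
  let Q : V →ₗ[ℝ] V →ₗ[ℝ] ℝ := LinearMap.mk₂ ℝ (fun v w => R v x' w x')
    (fun a b c => hR.add a b x' c x') (fun t a b => hR.smul t a x' b x')
    (fun a b c => hR.add3 a x' b c x') (fun t a b => hR.smul3 t a x' b x')
  have hQ : ∀ v w, Q v w = R v x' w x' := fun v w => rfl
  have hexp : ∀ v w : EuclideanSpace ℝ (Fin k × Bool), Q (φ v) (φ w) =
      ∑ p, ∑ q, v p * w q * Q (U p) (U q) := by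
    intro v w
    simp only [φ]
    rw [map_sum, sum_comm]
    refine sum_congr rfl fun q _ => ?_
    rw [map_smul, map_sum, LinearMap.sum_apply, smul_eq_mul, mul_sum]
    refine sum_congr rfl fun p _ => ?_
    rw [map_smul, LinearMap.smul_apply, smul_eq_mul]
    ring
  have hdel : ∀ p q : Fin k × Bool, ∑ i, g i p * g i q = if p = q then 1 else 0 := by
    intro p q
    have h1 := g.sum_inner_mul_inner (EuclideanSpace.single p (1 : ℝ)) (EuclideanSpace.single q (1 : ℝ))
    have h2 : inner ℝ (EuclideanSpace.single p (1 : ℝ)) (EuclideanSpace.single q (1 : ℝ)) =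
        if p = q then (1 : ℝ) else 0 := by
      have h3 := orthonormal_iff_ite.1 (EuclideanSpace.basisFun (Fin k × Bool) ℝ).orthonormal p q
      simpa using h3
    rw [h2] at h1
    rw [← h1]
    refine sum_congr rfl fun i _ => ?_
    simp [EuclideanSpace.inner_single_left, EuclideanSpace.inner_single_right]
  have htr : ∑ p, R (U p) x' (U p) x' = ∑ i, R (φ (g i)) x' (φ (g i)) x' := by
    have h1 : ∑ i, R (φ (g i)) x' (φ (g i)) x' =
        ∑ i, ∑ p, ∑ q, g i p * g i q * Q (U p) (U q) := by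
      refine sum_congr rfl fun i _ => ?_
      rw [← hQ, hexp]
    rw [h1, sum_comm]
    refine sum_congr rfl fun p _ => ?_
    rw [sum_comm]
    have h2 : ∀ q, ∑ i, g i p * g i q * Q (U p) (U q) =
        (if p = q then 1 else 0) * Q (U p) (U q) := by
      intro q
      rw [← sum_mul, hdel]
    rw [sum_congr rfl fun q _ => h2 q]
    simp [hQ]
  rw [htr, Fin.sum_univ_succ]
  have hφ0 : x' = ‖xv‖ • φ (g 0) := by
    rw [← hxφ, hg0]
    simp only [φ]
    rw [smul_sum]
    refine sum_congr rfl fun p _ => ?_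
    rw [smul_smul, PiLp.smul_apply, smul_eq_mul]
    congr 1
    field_simp
  have hz : R (φ (g 0)) x' (φ (g 0)) x' = 0 := by
    rw [hφ0, hR.smul2, hR.self12, mul_zero]
  rw [hz, zero_add]
  have hgo := g.orthonormal
  have hn0 : ‖φ (g 0)‖ = 1 := by
    have h1 : ‖φ (g 0)‖ ^ 2 = 1 := by
      rw [← real_inner_self_eq_norm_sq, hφi, real_inner_self_eq_norm_sq, hgo.1 0, one_pow]
    have h2 : 0 ≤ ‖φ (g 0)‖ := norm_nonneg _
    nlinarith
  have hyo : Orthonormal ℝ (fun i : Fin n => φ (g i.succ)) := by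
    rw [orthonormal_iff_ite]
    intro i j
    rw [hφi, orthonormal_iff_ite.1 hgo i.succ j.succ]
    by_cases hij : i = j
    · rw [if_pos hij, if_pos (by rw [hij])]
    · rw [if_neg hij, if_neg (fun h => hij (Fin.succ_injective _ h))]
  have h0y : ∀ i : Fin n, inner ℝ (φ (g 0)) (φ (g i.succ)) = (0 : ℝ) := by
    intro i
    rw [hφi, orthonormal_iff_ite.1 hgo 0 i.succ, if_neg (Fin.succ_ne_zero i).symm]
  have hmain := hRic (φ (g 0)) (fun i => φ (g i.succ)) hn0 h0y hyo
  have hterm : ∀ i : Fin n, R (φ (g i.succ)) x' (φ (g i.succ)) x' =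
      ‖xv‖ ^ 2 * R (φ (g 0)) (φ (g i.succ)) (φ (g 0)) (φ (g i.succ)) := by
    intro i
    have h1 : ∀ y z : V, R y z y z = R z y z y := by
      intro y z
      rw [hR.anti z y, hR.a34 z y y z]
      ring
    rw [h1, hφ0, hR.smul, hR.smul3]
    ring
  rw [sum_congr rfl fun i _ => hterm i, ← mul_sum]
  have h0 : 0 ≤ ‖xv‖ ^ 2 := by positivity
  nlinarith

end Pool.Agent.Helper57.RH
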