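import Pool.Agent.Helper57.RH.Low
import Pool.Graph.R_seed8.Y519.HB.Bound

/-!
# The pointwise bound for curvature tensors
-/

set_option autoImplicit false

namespace Pool.Agent.Helper57.RH

open Pool.Agent.Y519.HB Pool.Agent.W669.HD Finset
open Pool.Agent.W666.GB hiding EE

section

variable {V : Type} [NormedAddCommGroup V] [InnerProductSpace ℝ V] {R : V → V → V → V → ℝ}

/-- sectional curvatures at most `-c`, all pairs of vectors -/
theorem sec_le (h : AlgCurv R) {c : ℝ}
    (hs : ∀ x y : V, ‖x‖ = 1 → ‖y‖ = 1 → inner ℝ x y = (0 : ℝ) → R x y x y ≤ -c) (x y : V) :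
    R x y x y ≤ -(c * (‖x‖ ^ 2 * ‖y‖ ^ 2 - inner ℝ x y ^ 2)) := by
  by_cases hx : x = 0
  · have : R x y x y = 0 := by
      have h1 := h.smul 0 x y x y
      rw [zero_smul, zero_mul] at h1
      rw [hx] at h1 ⊢
      exact h1
    rw [this, hx]; simp
  have hx0 : 0 < ‖x‖ := norm_pos_iff.mpr hx
  set t : ℝ := inner ℝ x y / ‖x‖ ^ 2 with ht
  set y' := y - t • x with hy'
  have hS : R x y x y = R x y' x y' := by
    simp only [hy', h.sub2, h.sub4, h.smul2, h.smul4, h.self12, h.self34]
    ring
  have horth : inner ℝ x y' = 0 := by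
    rw [hy', inner_sub_right, inner_smul_right, real_inner_self_eq_norm_sq, ht]
    field_simp
    ring
  have hnorm : ‖x‖ ^ 2 * ‖y'‖ ^ 2 = ‖x‖ ^ 2 * ‖y‖ ^ 2 - inner ℝ x y ^ 2 := by
    have h2 : y = y' + t • x := by rw [hy']; abel
    have h3 : ‖y‖ ^ 2 = ‖y'‖ ^ 2 + ‖t • x‖ ^ 2 := by
      rw [h2, norm_add_sq_real, inner_smul_right, real_inner_comm, horth]
      ring
    have h4 : ‖t • x‖ ^ 2 = t ^ 2 * ‖x‖ ^ 2 := by
      rw [norm_smul, mul_pow, Real.norm_eq_abs, sq_abs]
    have h5 : inner ℝ x y = t * ‖x‖ ^ 2 := by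
      rw [ht]; field_simp
    rw [h3, h4, h5]
    ring
  rw [← hnorm]
  by_cases hy : y' = 0
  · have : R x y' x y' = 0 := by
      have h1 := h.smul2 0 x y' x y'
      rw [zero_smul, zero_mul] at h1
      rw [hy] at h1 ⊢
      exact h1
    rw [hS, this, hy]; simp
  have hy0 : 0 < ‖y'‖ := norm_pos_iff.mpr hy
  have h4 := hs (‖x‖⁻¹ • x) (‖y'‖⁻¹ • y') (by rw [norm_smul, norm_inv, norm_norm]; field_simp)
    (by rw [norm_smul, norm_inv, norm_norm]; field_simp)
    (by rw [inner_smul_left, inner_smul_right, horth]; simp)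
  rw [h.smul, h.smul2, h.smul3, h.smul4] at h4
  have h5 : R x y' x y' = (‖x‖ ^ 2 * ‖y'‖ ^ 2) *
      (‖x‖⁻¹ * (‖y'‖⁻¹ * (‖x‖⁻¹ * (‖y'‖⁻¹ * R x y' x y')))) := by field_simp
  rw [hS, h5]
  have h6 : 0 < ‖x‖ ^ 2 * ‖y'‖ ^ 2 := by positivity
  nlinarith

/-- an algebraic curvature tensor whose diagonal values vanish is zero -/
theorem zero_of_diag (hR : AlgCurv R) (h : ∀ x y, R x y x y = 0) (x y z w : V) :
    R x y z w = 0 := by
  have h1 : ∀ x y z, R x y z y = 0 := by
    intro x y z
    have e1 := h (x + z) y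
    rw [hR.add, hR.add3, hR.add3, h x y, h z y, hR.pair x y z y] at e1
    linarith
  have h2 : ∀ x y z w, R x w z y = - R x y z w := by
    intro x y z w
    have e1 := h1 x (y + w) z
    rw [hR.add2, hR.add4, hR.add4, h1 x y z, h1 x w z] at e1
    linarith
  have a34 : ∀ x y z w, R x y w z = - R x y z w := by
    intro x y z w
    have e1 := hR.pair x y w z
    have e2 := hR.anti z w x y
    have e3 := hR.pair x y z w
    linarith
  have cyc : ∀ x y z w, R y z x w = R x y z w := by
    intro x y z w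
    have e1 := h2 y x z w
    have e2 := a34 y w z x
    have e3 := h2 y w x z
    have e4 := hR.anti x y z w
    linarith
  have b := hR.bianchi x y z w
  have c1 := cyc x y z w
  have c2 := cyc y z x w
  linarith

/-- nonpositive diagonal values with vanishing traces: the tensor vanishes -/
theorem zero_of_ric {J : Type} [Fintype J] (e : OrthonormalBasis J ℝ V) (hR : AlgCurv R)
    (hq : ∀ x y : V, R x y x y ≤ 0) (hr : ∀ x : V, 0 ≤ ∑ a, R (e a) x (e a) x) (x y z w : V) :
    R x y z w = 0 := by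
  refine zero_of_diag hR (fun u v => ?_) x y z w
  have hs : ∀ a, R u (e a) u (e a) = 0 := by
    have hsym : ∀ a, R u (e a) u (e a) = R (e a) u (e a) u := by
      intro a
      rw [hR.anti (e a) u, hR.a34 (e a) u u (e a)]
      ring
    have h0 : ∑ a, R (e a) u (e a) u = 0 :=
      le_antisymm (sum_nonpos fun a _ => hq (e a) u) (hr u)
    have h3 := (sum_eq_zero_iff_of_nonpos fun a _ => hq (e a) u).1 h0
    intro a
    rw [hsym]
    exact h3 a (mem_univ a)
  have hc : ∀ (a : J) (s : V), R u s u (e a) = 0 := by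
    intro a s
    have hsym : R u (e a) u s = R u s u (e a) := hR.pair u s u (e a)
    have key : ∀ t : ℝ, R u s u s + 2 * t * R u s u (e a) ≤ 0 := by
      intro t
      have h4 := hq u (s + t • e a)
      rw [hR.add2, hR.add4, hR.add4, hR.smul4, hR.smul2, hR.smul2, hR.smul4, hs a, hsym] at h4
      linarith
    by_contra hne
    have h5 := key ((1 - R u s u s) / (2 * R u s u (e a)))
    have h6 : 2 * ((1 - R u s u s) / (2 * R u s u (e a))) * R u s u (e a) = 1 - R u s u s := by
      field_simp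
    rw [h6] at h5
    linarith
  have hv : v = ∑ a, (inner ℝ (e a) v) • e a := (e.sum_repr' v).symm
  let L : V →ₗ[ℝ] ℝ :=
    { toFun := fun s => R u v u s
      map_add' := fun s s' => hR.add4 u v u s s'
      map_smul' := fun t s => hR.smul4 t u v u s }
  have hL : L v = ∑ a, (inner ℝ (e a) v) * L (e a) := by
    conv_lhs => rw [hv]
    rw [map_sum]
    exact sum_congr rfl fun a _ => by rw [map_smul, smul_eq_mul]
  have hL0 : ∀ a, L (e a) = 0 := fun a => hc a v
  have hLv : L v = R u v u v := rfl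
  rw [← hLv, hL]
  exact sum_eq_zero fun a _ => by rw [hL0 a, mul_zero]

theorem gm_scale {m : ℕ} (t : ℝ) (A : T4 m) :
    gm (fun _ : Fin m => (fun i j k l => t * A i j k l : T4 m)) = t ^ m * gm (fun _ : Fin m => A) := by
  unfold gm
  rw [mul_sum]
  refine sum_congr rfl fun σ _ => ?_
  rw [mul_sum]
  refine sum_congr rfl fun τ _ => ?_
  rw [prod_mul_distrib, prod_const, card_univ, Fintype.card_fin]
  ring

variable {m : ℕ} (e : OrthonormalBasis (Fin m × Bool) ℝ V)

theorem ev4_cp (hR : AlgCurv R) (x y z w : Fin m × Bool → ℝ) :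
    ev4 (cp e (negT R)) x y z w =
      - R (∑ i, x i • e i) (∑ i, y i • e i) (∑ i, z i • e i) (∑ i, w i • e i) := by
  rw [R_ev4 hR (fun j => e j)]
  unfold ev4
  rw [← sum_neg_distrib]
  refine sum_congr rfl fun p _ => ?_
  simp only [cp, negT]
  ring

theorem inner_coord (x y : Fin m × Bool → ℝ) :
    inner ℝ (∑ i, x i • e i) (∑ i, y i • e i) = ∑ i, x i * y i := by
  rw [sum_inner]
  refine sum_congr rfl fun i _ => ?_
  rw [inner_smul_left, inner_sum, sum_eq_single i]
  · rw [inner_smul_right, real_inner_self_eq_norm_sq, e.orthonormal.1 i]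
    simp
  · intro j _ hj
    rw [inner_smul_right, e.orthonormal.2 (Ne.symm hj), mul_zero]
  · intro h
    exact absurd (mem_univ _) h

/-- the shifted tensor -/
noncomputable def shP (R : V → V → V → V → ℝ) (c : ℝ) : T4 m := fun i j k l =>
  1 / c * cp e (negT R) i j k l + (-1) * unitCurv i j k l

theorem shP_se (hR : AlgCurv R) {c : ℝ} (hc : 0 < c)
    (hs : ∀ x y : V, ‖x‖ = 1 → ‖y‖ = 1 → inner ℝ x y = (0 : ℝ) → R x y x y ≤ -c) :
    Se (shP e R c) := by
  intro x y
  unfold shP
  rw [ev4_comb, ev4_cp e hR, ev4_unitCurv]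
  have h1 := sec_le hR hs (∑ i, x i • e i) (∑ i, y i • e i)
  rw [← real_inner_self_eq_norm_sq, ← real_inner_self_eq_norm_sq, inner_coord, inner_coord,
    inner_coord] at h1
  have h2 : ∑ j, x j * y j = ∑ j, y j * x j := sum_congr rfl fun j _ => mul_comm _ _
  rw [← h2]
  set a := ∑ i, x i * x i
  set b := ∑ i, y i * y i
  set d := ∑ i, x i * y i
  set S := R (∑ i, x i • e i) (∑ i, y i • e i) (∑ i, x i • e i) (∑ i, y i • e i)
  have h3 : 1 / c * (c * (a * b - d ^ 2)) = a * b - d ^ 2 := by field_simp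
  have h4 : 1 / c * -S ≥ 1 / c * (c * (a * b - d ^ 2)) :=
    mul_le_mul_of_nonneg_left (by linarith) (by positivity)
  nlinarith

theorem shP_ric (hR : AlgCurv R) {c ρ : ℝ} (hc : 0 < c)
    (hr : ∀ x : V, ‖x‖ = 1 → -(((2 * m - 1) + ρ) * c) ≤ ∑ a, R (e a) x (e a) x) :
    RicLe ρ (shP e R c) := by
  intro x
  -- all vectors
  have hr' : ∀ x : V, -(((2 * m - 1) + ρ) * c) * ‖x‖ ^ 2 ≤ ∑ a, R (e a) x (e a) x := by
    intro x
    by_cases hx : x = 0
    · have : ∀ a, R (e a) x (e a) x = 0 := by
        intro a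
        have h1 := hR.smul2 0 (e a) x (e a) x
        rw [zero_smul, zero_mul] at h1
        rw [hx] at h1 ⊢
        exact h1
      rw [sum_eq_zero fun a _ => this a]
      simp [hx]
    · have hx0 : 0 < ‖x‖ := norm_pos_iff.mpr hx
      have h1 := hr (‖x‖⁻¹ • x) (by rw [norm_smul, norm_inv, norm_norm]; field_simp)
      have h2 : ∑ a, R (e a) x (e a) x =
          ‖x‖ ^ 2 * ∑ a, R (e a) (‖x‖⁻¹ • x) (e a) (‖x‖⁻¹ • x) := by
        rw [mul_sum]
        refine sum_congr rfl fun a _ => ?_
        rw [hR.smul2, hR.smul4]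
        field_simp
      rw [h2, mul_comm]
      exact mul_le_mul_of_nonneg_left h1 (by positivity)
  have h1 := hr' (∑ i, x i • e i)
  rw [← real_inner_self_eq_norm_sq, inner_coord] at h1
  have h2 : ∑ a, R (e a) (∑ i, x i • e i) (e a) (∑ i, x i • e i) =
      ∑ j, ∑ l, (∑ i, R (e i) (e j) (e i) (e l)) * (x j * x l) := by
    have h3 : ∀ a, R (e a) (∑ i, x i • e i) (e a) (∑ i, x i • e i) =
        ∑ j, ∑ l, R (e a) (e j) (e a) (e l) * (x j * x l) := by
      intro a
      have h4 : e a = ∑ i, (if i = a then (1 : ℝ) else 0) • e i := by simp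
      conv_lhs => rw [h4]
      rw [R_ev4 hR (fun j => e j), ev4_eq, sum_eq_single a]
      · refine sum_congr rfl fun j _ => ?_
        rw [sum_eq_single a]
        · refine sum_congr rfl fun l _ => ?_
          simp only [if_true]
          ring
        · intro b _ hb
          simp [hb]
        · intro h
          exact absurd (mem_univ _) h
      · intro b _ hb
        simp [hb]
      · intro h
        exact absurd (mem_univ _) h
    simp only [h3]
    rw [sum_comm]
    refine sum_congr rfl fun j _ => ?_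
    rw [sum_comm]
    refine sum_congr rfl fun l _ => ?_
    rw [sum_mul]
  rw [h2] at h1
  have h5 : ∀ j l : Fin m × Bool, ∑ i, shP e R c i j i l =
      -(1 / c) * (∑ i, R (e i) (e j) (e i) (e l)) - (2 * m - 1) * (if j = l then 1 else 0) := by
    intro j l
    have h6 : ∑ i, unitCurv i j i l = (2 * m - 1) * (if j = l then (1 : ℝ) else 0) := by
      have h7 : ∀ i : Fin m × Bool, unitCurv i j i l =
          (if j = l then 1 else 0) - (if i = j then (if j = l then (1 : ℝ) else 0) else 0) := by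
        intro i
        unfold unitCurv
        by_cases h : i = j
        · subst h; simp
        · simp [h, Ne.symm h]
      simp only [h7, sum_sub_distrib, sum_ite_eq', mem_univ, if_true, sum_const, card_univ,
        Fintype.card_prod, Fintype.card_fin, Fintype.card_bool, nsmul_eq_mul]
      push_cast
      ring
    simp only [shP, cp, negT, sum_add_distrib, ← mul_sum, h6, sum_neg_distrib]
    ring
  have h8 : ∑ j, ∑ l, (∑ i, shP e R c i j i l) * (x j * x l) =
      -(1 / c) * (∑ j, ∑ l, (∑ i, R (e i) (e j) (e i) (e l)) * (x j * x l)) -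
        (2 * m - 1) * ∑ j, x j * x j := by
    have h9 : ∀ j, ∑ l, (∑ i, shP e R c i j i l) * (x j * x l) =
        -(1 / c) * (∑ l, (∑ i, R (e i) (e j) (e i) (e l)) * (x j * x l)) -
          (2 * m - 1) * (x j * x j) := by
      intro j
      have h10 : ∀ l, (∑ i, shP e R c i j i l) * (x j * x l) =
          -(1 / c) * ((∑ i, R (e i) (e j) (e i) (e l)) * (x j * x l)) -
          (if j = l then (2 * m - 1) * (x j * x l) else 0) := by
        intro l
        rw [h5]
        split_ifs <;> ring
      simp only [h10, sum_sub_distrib, ← mul_sum, sum_ite_eq, mem_univ, if_true]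
    simp only [h9, sum_sub_distrib, ← mul_sum]
  rw [h8]
  have h11 : ∑ j, x j ^ 2 = ∑ j, x j * x j := sum_congr rfl fun j _ => sq _
  rw [h11]
  set a := ∑ j, x j * x j
  set S := ∑ j, ∑ l, (∑ i, R (e i) (e j) (e i) (e l)) * (x j * x l)
  have h12 : 1 / c * (-(((2 * m - 1) + ρ) * c) * a) ≤ 1 / c * S :=
    mul_le_mul_of_nonneg_left h1 (by positivity)
  have h13 : 1 / c * (-(((2 * m - 1) + ρ) * c) * a) = -(((2 * m - 1) + ρ) * a) := by
    field_simp
  rw [h13] at h12
  linarith

theorem shP_trace {c : ℝ} (hc : 0 < c) : ∑ i, ∑ j, shP e R c i j i j =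
    -(1 / c) * scal e R - 2 * m * (2 * m - 1) := by
  have h1 : ∀ i j : Fin m × Bool, shP e R c i j i j =
      -(1 / c) * R (e i) (e j) (e i) (e j) - (1 - if i = j then 1 else 0) := by
    intro i j
    simp only [shP, cp, negT, unitCurv]
    by_cases h : i = j
    · subst h; simp
    · simp [h, Ne.symm h]
      ring
  simp only [h1, sum_sub_distrib, ← mul_sum, sum_ite_eq, mem_univ, if_true, sum_const, card_univ,
    Fintype.card_prod, Fintype.card_fin, Fintype.card_bool, nsmul_eq_mul, scal]
  push_cast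
  ring

/-- **The pointwise bound.** -/
theorem pointwise (hA : S_AVG) (hm : 3 ≤ m) (hR : AlgCurv R) {c : ℝ} (hc : 0 ≤ c)
    (hs : ∀ x y : V, ‖x‖ = 1 → ‖y‖ = 1 → inner ℝ x y = (0 : ℝ) → R x y x y ≤ -c)
    (hr : ∀ x : V, ‖x‖ = 1 → -(((2 * m - 1) + 3 * (m / (m - 2))) * c) ≤
      ∑ a, R (e a) x (e a) x) :
    roundGB m 1 * (c ^ (m - 1) * (-(scal e R) / (2 * (2 * m - 1)) - (m - 1) * c)) ≤
      (-1) ^ m * gbc e R := by
  have hπ := Real.pi_pos
  rcases hc.eq_or_lt with h0 | hc
  · subst h0
    have hz : R = fun _ _ _ _ => 0 := by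
      funext x y z w
      refine zero_of_ric e hR (fun x y => ?_) (fun x => ?_) x y z w
      · have := sec_le hR hs x y
        linarith [this]
      · by_cases hx : x = 0
        · have : ∀ a, R (e a) x (e a) x = 0 := by
            intro a
            have h1 := hR.smul2 0 (e a) x (e a) x
            rw [zero_smul, zero_mul] at h1
            rw [hx] at h1 ⊢
            exact h1
          simp [this]
        · have hx0 : 0 < ‖x‖ := norm_pos_iff.mpr hx
          have h1 := hr (‖x‖⁻¹ • x) (by rw [norm_smul, norm_inv, norm_norm]; field_simp)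
          have h2 : ∑ a, R (e a) x (e a) x =
              ‖x‖ ^ 2 * ∑ a, R (e a) (‖x‖⁻¹ • x) (e a) (‖x‖⁻¹ • x) := by
            rw [mul_sum]
            refine sum_congr rfl fun a _ => ?_
            rw [hR.smul2, hR.smul4]
            field_simp
          rw [h2]
          refine mul_nonneg (by positivity) ?_
          linarith
    rw [hz, gbc_eq]
    have hgm : gm (fun _ : Fin m => cp e (negT fun _ _ _ _ => (0 : ℝ))) = 0 := by
      unfold gm
      refine sum_eq_zero fun σ _ => sum_eq_zero fun τ _ => ?_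
      rw [prod_eq_zero (mem_univ ⟨0, by omega⟩), mul_zero]
      simp [cp, negT]
    rw [hgm, mul_zero]
    have : (0 : ℝ) ^ (m - 1) = 0 := zero_pow (by omega)
    rw [this]
    simp
  · have h1 := gm_low (P := shP e R c) hA hm (comb_cu (cu_cp e hR) (1 / c) (-1)) (shP_se e hR hc hs)
      (shP_ric e hR hc hr)
    have h2 : (fun _ : Fin m => (fun i j k l => shP e R c i j k l + unitCurv i j k l : T4 m)) =
        fun _ => (fun i j k l => 1 / c * cp e (negT R) i j k l : T4 m) := by
      funext b i j k l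
      simp only [shP]
      ring
    rw [h2, gm_scale] at h1
    have h3 : ∑ i, ∑ j, shP e R c i j i j = _ := shP_trace e hc
    rw [h3] at h1
    rw [gbc_eq, const_eq, one_pow, one_mul]
    have hK : 0 < 1 / ((8 * Real.pi) ^ m * (m.factorial : ℝ)) := by positivity
    rw [mul_assoc]
    refine mul_le_mul_of_nonneg_left ?_ hK.le
    set g := gm fun _ : Fin m => cp e (negT R)
    have h4 : c ^ m * ((1 / c) ^ m * g) = g := by
      rw [← mul_assoc, ← mul_pow, mul_one_div_cancel hc.ne', one_pow, one_mul]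
    rw [← h4]
    refine le_trans (le_of_eq ?_) (mul_le_mul_of_nonneg_left h1 (by positivity))
    obtain ⟨n, rfl⟩ : ∃ n, m = n + 1 := ⟨m - 1, by omega⟩
    have e1 : n + 1 - 1 = n := by omega
    have e2 : 2 * (n + 1) - 2 = 2 * n := by omega
    have e3 : (2 * (n + 1)).factorial = (2 * n + 2) * ((2 * n + 1) * (2 * n).factorial) := by
      rw [show 2 * (n + 1) = 2 * n + 1 + 1 by ring, Nat.factorial_succ, Nat.factorial_succ]
    rw [e1, e2, e3, pow_succ c n]
    push_cast
    have h5 : (2 * (n : ℝ) + 1) ≠ 0 := by positivity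
    have h6 : (2 * ((n : ℝ) + 1) - 1) = 2 * n + 1 := by ring
    rw [h6]
    field_simp
    ring

end

end Pool.Agent.Helper57.RH
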