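import Pool.Agent.Helper57.RH.Base

/-!
# Pullbacks by orthonormal families
-/

set_option autoImplicit false

namespace Pool.Agent.Helper57.RH

open Pool.Agent.Y519.HB Pool.Agent.W666.GB Pool.Agent.W669.HD Finset

section

variable {J T : Type} [Fintype J] [DecidableEq J] [Fintype T] [DecidableEq T]

theorem ev4_unitCurv (x y z w : J → ℝ) : ev4 unitCurv x y z w =
    (∑ j, x j * z j) * (∑ j, y j * w j) - (∑ j, x j * w j) * (∑ j, y j * z j) := by
  rw [ev4_eq]
  have h1 : ∀ i j k l : J, x i * y j * z k * w l * unitCurv i j k l =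
      (if i = k then (if j = l then x i * y j * z k * w l else 0) else 0) -
      (if i = l then (if j = k then x i * y j * z k * w l else 0) else 0) := by
    intro i j k l
    unfold unitCurv
    split_ifs <;> ring
  simp only [h1, sum_sub_distrib]
  congr 1
  · rw [sum_mul_sum]
    refine sum_congr rfl fun i _ => sum_congr rfl fun j _ => ?_
    rw [sum_comm]
    simp only [sum_ite_eq, mem_univ, if_true]
    ring
  · rw [sum_mul_sum]
    refine sum_congr rfl fun i _ => sum_congr rfl fun j _ => ?_
    simp only [sum_ite_eq, mem_univ, if_true]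
    ring

/-- the projections of the standard vectors on the orthogonal complement -/
def qv (u : T → J → ℝ) (j a : J) : ℝ := (if j = a then 1 else 0) - ∑ i, u i j * u i a

theorem sum_qv (u : T → J → ℝ) (hu : ∀ p q, ∑ j, u p j * u q j = if p = q then 1 else 0)
    (a b : J) : ∑ j, qv u j a * qv u j b = (if a = b then 1 else 0) - ∑ i, u i a * u i b := by
  have h1 : ∀ j, qv u j a * qv u j b = (if j = a then (if j = b then 1 else 0) else 0) -
      (if j = a then ∑ i, u i j * u i b else 0) - (if j = b then ∑ i, u i j * u i a else 0) +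
      ∑ i, ∑ i', (u i a * u i' b) * (u i j * u i' j) := by
    intro j
    have e : ∑ i, ∑ i', (u i a * u i' b) * (u i j * u i' j) =
        (∑ i, u i j * u i a) * (∑ i, u i j * u i b) := by
      rw [sum_mul_sum]
      refine sum_congr rfl fun i _ => sum_congr rfl fun i' _ => ?_
      ring
    rw [e]
    unfold qv
    split_ifs <;> ring
  simp only [h1, sum_add_distrib, sum_sub_distrib, sum_ite_eq', mem_univ, if_true]
  have e : ∑ j, ∑ i, ∑ i', (u i a * u i' b) * (u i j * u i' j) = ∑ i, u i a * u i b := by
    rw [sum_comm]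
    refine sum_congr rfl fun i _ => ?_
    rw [sum_comm]
    simp only [← mul_sum, hu]
    simp
  rw [e]
  have e2 : ∑ i, u i b * u i a = ∑ i, u i a * u i b := sum_congr rfl fun i _ => mul_comm _ _
  rw [e2]
  ring

/-- the trace over an orthonormal family -/
theorem trace_le (M : J → J → ℝ) (hM : ∀ v : J → ℝ, 0 ≤ ∑ a, ∑ b, M a b * (v a * v b))
    (u : T → J → ℝ) (hu : ∀ p q, ∑ j, u p j * u q j = if p = q then 1 else 0) :
    ∑ i, ∑ a, ∑ b, M a b * (u i a * u i b) ≤ ∑ a, M a a := by
  have h1 : 0 ≤ ∑ j, ∑ a, ∑ b, M a b * (qv u j a * qv u j b) := sum_nonneg fun j _ => hM _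
  have h2 : ∑ j, ∑ a, ∑ b, M a b * (qv u j a * qv u j b) =
      ∑ a, ∑ b, M a b * ((if a = b then 1 else 0) - ∑ i, u i a * u i b) := by
    rw [sum_comm]
    refine sum_congr rfl fun a _ => ?_
    rw [sum_comm]
    refine sum_congr rfl fun b _ => ?_
    rw [← mul_sum, sum_qv u hu]
  have h3 : ∑ a, ∑ b, M a b * ((if a = b then 1 else 0) - ∑ i, u i a * u i b) =
      ∑ a, M a a - ∑ i, ∑ a, ∑ b, M a b * (u i a * u i b) := by
    simp only [mul_sub, sum_sub_distrib, mul_ite, mul_one, mul_zero, sum_ite_eq, mem_univ,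
      if_true]
    congr 1
    rw [sum_comm (s := univ (α := T))]
    refine sum_congr rfl fun a _ => ?_
    rw [sum_comm (s := univ (α := T))]
    refine sum_congr rfl fun b _ => ?_
    rw [mul_sum]
  linarith

end

theorem pul_thm : S_PUL := by
  intro J T _ _ _ _ u hu
  refine ⟨fun i j k l => ?_, fun P ρ hC hS hR x => ?_⟩
  · unfold pul
    rw [ev4_unitCurv, hu, hu, hu, hu]
    rfl
  · set X : J → ℝ := fun j => ∑ p, x p * u p j with hX
    have n1 : ∑ j, X j ^ 2 = ∑ p, x p ^ 2 := by
      have e1 : ∀ j, X j ^ 2 = ∑ p, ∑ q, (x p * x q) * (u p j * u q j) := by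
        intro j
        simp only [hX, sq, sum_mul_sum]
        refine sum_congr rfl fun p _ => sum_congr rfl fun q _ => ?_
        ring
      simp only [e1]
      rw [sum_comm]
      refine sum_congr rfl fun p _ => ?_
      rw [sum_comm]
      simp only [← mul_sum, hu]
      simp [sq]
    have n2 := hR X
    rw [n1] at n2
    refine le_trans ?_ n2
    set M : J → J → ℝ := fun a b => ∑ j, ∑ l, P a j b l * (X j * X l) with hM
    have n3 : ∀ v : J → ℝ, ∑ a, ∑ b, M a b * (v a * v b) = ev4 P v X v X := by
      intro v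
      rw [ev4_eq]
      refine sum_congr rfl fun a _ => ?_
      simp only [hM, sum_mul]
      rw [sum_comm]
      refine sum_congr rfl fun j _ => sum_congr rfl fun b _ => sum_congr rfl fun l _ => ?_
      ring
    have n4 := trace_le M (fun v => by rw [n3]; exact hS v X) u hu
    have n5 : ∑ a, M a a = ∑ j, ∑ l, (∑ i, P i j i l) * (X j * X l) := by
      simp only [hM, sum_mul]
      rw [sum_comm]
      refine sum_congr rfl fun j _ => ?_
      rw [sum_comm]
    rw [n5] at n4
    refine le_trans (le_of_eq ?_) n4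
    simp only [n3]
    have n6 : ∀ i, ev4 P (u i) X (u i) X = ∑ j, ∑ l, pul P u i j i l * (x j * x l) := by
      intro i
      have e1 := ev4_pul hC u (Pi.single i 1) x (Pi.single i 1) x
      have e2 : (fun j => ∑ p, (Pi.single i 1 : T → ℝ) p * u p j) = u i := by
        funext j
        simp [Pi.single_apply]
      rw [e2] at e1
      rw [← hX] at e1
      rw [← e1, ev4_eq]
      simp [Pi.single_apply, mul_comm]
    simp only [n6, sum_mul]
    symm
    rw [sum_comm]
    refine sum_congr rfl fun j _ => ?_
    rw [sum_comm]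

end Pool.Agent.Helper57.RH
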