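import Pool.Agent.Helper57.RH.Ind
import Pool.Agent.Helper57.RH.AVG
import Pool.Agent.Helper57.RH.Contr
import Pool.Agent.Helper57.RH.Pul

/-!
# The induction on the number of places, with intermediate Ricci curvatures
-/

set_option autoImplicit false

namespace Pool.Agent.Helper57.RH

open Pool.Agent.Y519.HB Pool.Agent.W669.HD Finset
open Pool.Agent.W666.GB hiding EE

/-- bounds of the Ricci curvatures of the restrictions to subspaces of dimension `2 k` -/
def PR (M : ℕ) (r : ℕ → ℝ) {J : Type} [Fintype J] (P : J → J → J → J → ℝ) : Prop :=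
  ∀ k, 3 ≤ k → k ≤ M → ∀ u : Fin k × Bool → J → ℝ,
    (∀ p q, ∑ j, u p j * u q j = if p = q then 1 else 0) → RicLe (3 * r k) (pul P u)

theorem PR_pul {M : ℕ} {r : ℕ → ℝ} {J K : Type} [Fintype J] [Fintype K] [DecidableEq K]
    {P : J → J → J → J → ℝ} (hcu : Cu P) (h : PR M r P) (u : K → J → ℝ)
    (hu : ∀ p q, ∑ j, u p j * u q j = if p = q then 1 else 0) : PR M r (pul P u) := by
  intro k h3 hM v hv
  have e1 : pul (pul P u) v = pul P (fun s j => ∑ t, v s t * u t j) := by
    funext i j k l
    show ev4 (pul P u) (v i) (v j) (v k) (v l) = ev4 P (fun a => ∑ t, v i t * u t a)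
      (fun a => ∑ t, v j t * u t a) (fun a => ∑ t, v k t * u t a) (fun a => ∑ t, v l t * u t a)
    rw [ev4_pul hcu]
  rw [e1]
  refine h k h3 hM _ fun p q => ?_
  rw [← hv p q]
  have e2 : ∀ j, (∑ t, v p t * u t j) * (∑ t, v q t * u t j) =
      ∑ t, ∑ s, (v p t * v q s) * (u t j * u s j) := by
    intro j
    rw [sum_mul_sum]
    refine sum_congr rfl fun t _ => sum_congr rfl fun s _ => ?_
    ring
  simp only [e2]
  rw [sum_comm]
  refine sum_congr rfl fun t _ => ?_
  rw [sum_comm]
  simp only [← mul_sum, hu]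
  simp

theorem ind2 {r : ℕ → ℝ} {M : ℕ} : ∀ (k m : ℕ) (P : T4 m), Cu P → Se P → PR M r P → k ≤ M →
    2 ≤ k → ∀ (T : Type) [Fintype T] [DecidableEq T], Fintype.card T = k →
    ∀ (θ : Fin (Fintype.card T) ≃ T) (α γ : T → ℝ),
    (∀ i, i.val < 2 → α (θ i) = 1 ∧ γ (θ i) = 0) →
    (∀ i, 2 ≤ i.val → 0 ≤ α (θ i) ∧ r (i.val + 1) * α (θ i) ≤ γ (θ i)) →
    ∀ y : T × Bool → Fin m × Bool → ℝ,
      0 ≤ EE (fun b => (fun i j k l => α b * P i j k l + γ b * unitCurv i j k l : T4 m)) y := by
  intro k
  induction k with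
  | zero =>
    intro m P _ _ _ _ h2
    omega
  | succ k ih =>
    intro m P hcu hse hPR hkM h2k T _ _ hT θ α γ hlow hhigh y
    by_cases hk2 : k + 1 = 2
    · have i0 : 0 < Fintype.card T := by omega
      have i1 : 1 < Fintype.card T := by omega
      have h2 : ∀ b, b = θ ⟨0, i0⟩ ∨ b = θ ⟨1, i1⟩ := by
        intro b
        obtain ⟨i, rfl⟩ := θ.surjective b
        have hi := i.isLt
        have : i.val = 0 ∨ i.val = 1 := by omega
        rcases this with h | h
        · left; congr 1; exact Fin.ext h
        · right; congr 1; exact Fin.ext h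
      have : (fun b => (fun i j k l => α b * P i j k l + γ b * unitCurv i j k l : T4 m)) =
          fun _ : T => P := by
        funext b i j k l
        rcases h2 b with h | h
        · rw [h, (hlow ⟨0, i0⟩ (by norm_num)).1, (hlow ⟨0, i0⟩ (by norm_num)).2]; ring
        · rw [h, (hlow ⟨1, i1⟩ (by norm_num)).1, (hlow ⟨1, i1⟩ (by norm_num)).2]; ring
      rw [this]
      refine EE_two hcu hse (θ ⟨0, i0⟩) (θ ⟨1, i1⟩) (fun h => ?_) h2 y
      have := congrArg Fin.val (θ.injective h)
      simp at this
    have hk3 : 3 ≤ k + 1 := by omega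
    rcases frame m T (fun b => (fun i j k l => α b * P i j k l + γ b * unitCurv i j k l : T4 m))
      (fun b => comb_cu hcu _ _) θ y with h | ⟨c, u, hu, h⟩
    · rw [h]
    rw [h]
    refine mul_nonneg (sq_nonneg _) ?_
    have hun := (pul_thm (Fin m × Bool) (Fin (Fintype.card T) × Bool) u hu).1
    set P' : T4 (Fintype.card T) := pul P u with hP'
    have hcu' : Cu P' := cu_pul hcu u
    have hse' : Se P' := se_pul hcu hse u
    have hPR' : PR M r P' := PR_pul hcu hPR u hu
    have hric' : RicLe (3 * r (Fintype.card T)) P' := hPR _ (by omega) (by omega) u hu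
    set C' : Fin (Fintype.card T) → T4 (Fintype.card T) := fun b =>
      (fun i j k l => α (θ b) * P' i j k l + γ (θ b) * unitCurv i j k l) with hC'
    have hCC : (fun b => pul (fun i j k l => α (θ b) * P i j k l + γ (θ b) * unitCurv i j k l) u) =
        C' := by
      funext b i j k l
      simp only [pul, hC', hP']
      rw [ev4_comb]
      have := hun i j k l
      unfold pul at this
      rw [this]
    rw [hCC]
    have hlast : k < Fintype.card T := by omega
    set last : Fin (Fintype.card T) := ⟨k, hlast⟩ with hlastdef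
    obtain ⟨D, h12, hpr, hgm, hev⟩ := contr _ C' last (fun b i j k l =>
      (comb_cu hcu' _ _).pair i j k l)
    have hDs : Se D := by
      intro x z
      obtain ⟨c', w, hw⟩ := hev x z
      rw [hw]
      refine mul_nonneg (sq_nonneg _) ?_
      have hcard : Fintype.card ↥(univ.erase last) = k := by
        rw [Fintype.card_coe, card_erase_of_mem (mem_univ _), card_univ, Fintype.card_fin, hT]
        rfl
      have hmem : ∀ i : Fin k, (⟨i.val, by omega⟩ : Fin (Fintype.card T)) ∈ univ.erase last := by
        intro i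
        rw [mem_erase]
        refine ⟨fun h => ?_, mem_univ _⟩
        have h1 := congrArg Fin.val h
        rw [hlastdef] at h1
        simp only at h1
        have := i.isLt
        omega
      obtain ⟨θ', hθ'⟩ : ∃ θ' : Fin (Fintype.card ↥(univ.erase last)) ≃ ↥(univ.erase last),
          ∀ i, (θ' i).1.val = i.val := by
        refine ⟨(finCongr hcard).trans (Equiv.ofBijective
          (fun i : Fin k => (⟨⟨i.val, by omega⟩, hmem i⟩ : ↥(univ.erase last))) ⟨?_, ?_⟩), ?_⟩
        · intro i j h
          have := congrArg (fun z : ↥(univ.erase last) => z.1.val) h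
          exact Fin.ext this
        · rintro ⟨b, hb⟩
          have hb' : b ≠ last := (mem_erase.1 hb).1
          have h1 : b.val ≠ k := fun h => hb' (Fin.ext h)
          have h2 := b.isLt
          exact ⟨⟨b.val, by omega⟩, rfl⟩
        · intro i
          rfl
      refine ih _ P' hcu' hse' hPR' (by omega) (by omega) ↥(univ.erase last) hcard θ'
        (fun b => α (θ b)) (fun b => γ (θ b)) ?_ ?_ w
      · intro i hi
        exact hlow (θ' i).1 (by rw [hθ']; exact hi)
      · intro i hi
        have := hhigh (θ' i).1 (by rw [hθ']; exact hi)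
        rw [hθ'] at this
        exact this
    have hav := avg _ P' D (3 * r (Fintype.card T)) hcu' hse' hric' h12 hpr hDs
    have hun2 := unit_dot h12 hpr
    have hpos : 0 ≤ ∑ i, ∑ j, D i j i j :=
      sum_nonneg fun i _ => sum_nonneg fun j _ => by
        rw [← ev4_single D i j]
        exact hDs _ _
    rw [hgm]
    have hsplit : ∑ i, ∑ j, ∑ k, ∑ l, C' last i j k l * D i j k l =
        α (θ last) * (∑ i, ∑ j, ∑ k, ∑ l, P' i j k l * D i j k l) +
        γ (θ last) * ∑ i, ∑ j, ∑ k, ∑ l, unitCurv i j k l * D i j k l := by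
      simp only [hC', mul_sum, ← sum_add_distrib]
      refine sum_congr rfl fun i _ => sum_congr rfl fun j _ => sum_congr rfl fun k _ =>
        sum_congr rfl fun l _ => ?_
      ring
    rw [hsplit]
    obtain ⟨h0, h1⟩ := hhigh last (by rw [hlastdef]; simp only; omega)
    have hcT : Fintype.card T = last.val + 1 := hT
    have e1 : 3 * r (Fintype.card T) / 3 = r (last.val + 1) := by rw [← hcT]; ring
    rw [e1] at hav
    rw [hun2] at hav ⊢
    nlinarith [mul_nonneg h0 hav, mul_nonneg (sub_nonneg.2 h1) hpos]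

end Pool.Agent.Helper57.RH
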