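import Pool.Agent.Helper57.RH.Base

/-!
# Module POLY: mixed sums of combinations of two tensors
-/

set_option autoImplicit false

namespace Pool.Agent.Helper57.RH.Poly

open Pool.Agent.Helper57.RH Pool.Agent.Y519.HB Pool.Agent.W666.GB Pool.Agent.W669.HD Finset Polynomial

variable {m : ℕ}

/-- the mixed sum does not change when the places are permuted -/
theorem gm_perm (C : Fin m → T4 m) (e : Equiv.Perm (Fin m)) :
    gm (fun b => C (e b)) = gm C := by
  let π : Equiv.Perm (Fin m × Bool) := Equiv.prodCongr e (Equiv.refl Bool)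
  have hπ : ∀ b i, π (b, i) = (e b, i) := fun b i => rfl
  unfold gm
  symm
  refine Fintype.sum_equiv (Equiv.mulRight π) _ _ fun σ => ?_
  refine Fintype.sum_equiv (Equiv.mulRight π) _ _ fun τ => ?_
  rw [Equiv.coe_mulRight, sn_mul, sn_mul]
  simp only [Equiv.Perm.mul_apply, hπ]
  rw [Equiv.prod_comp e (fun b => C b (σ (b, false)) (σ (b, true)) (τ (b, false)) (τ (b, true)))]
  have h := sn_mul_self π
  calc _ = (sn σ * sn τ * (sn π * sn π)) *
      ∏ b, C b (σ (b, false)) (σ (b, true)) (τ (b, false)) (τ (b, true)) := by rw [h, mul_one]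
    _ = _ := by ring

/-- expansion over the subsets of places -/
theorem gm_expand (P Q : T4 m) (α γ : Fin m → ℝ) :
    gm (fun b => (fun i j k l => α b * P i j k l + γ b * Q i j k l : T4 m)) =
      ∑ S ∈ (univ : Finset (Fin m)).powerset,
        ((∏ b ∈ S, α b) * ∏ b ∈ univ \ S, γ b) * mix P Q S := by
  simp only [mix, gm]
  have h : ∀ S : Finset (Fin m), ((∏ b ∈ S, α b) * ∏ b ∈ univ \ S, γ b) *
      (∑ σ : Equiv.Perm (Fin m × Bool), ∑ τ : Equiv.Perm (Fin m × Bool), sn σ * sn τ *
        ∏ b, (if b ∈ S then P else Q) (σ (b, false)) (σ (b, true)) (τ (b, false)) (τ (b, true))) =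
      ∑ σ : Equiv.Perm (Fin m × Bool), ∑ τ : Equiv.Perm (Fin m × Bool),
        ((∏ b ∈ S, α b) * ∏ b ∈ univ \ S, γ b) * (sn σ * sn τ *
        ∏ b, (if b ∈ S then P else Q) (σ (b, false)) (σ (b, true)) (τ (b, false)) (τ (b, true))) := by
    intro S
    rw [Finset.mul_sum]
    exact Finset.sum_congr rfl fun σ _ => Finset.mul_sum _ _ _
  rw [Finset.sum_congr rfl fun S _ => h S]
  symm
  rw [Finset.sum_comm]
  refine Finset.sum_congr rfl fun σ _ => ?_
  rw [Finset.sum_comm]
  refine Finset.sum_congr rfl fun τ _ => ?_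
  rw [Finset.prod_add, Finset.mul_sum]
  refine Finset.sum_congr rfl fun S _ => ?_
  have h1 : ∏ b, (if b ∈ S then P else Q) (σ (b, false)) (σ (b, true)) (τ (b, false))
      (τ (b, true)) = (∏ b ∈ S, P (σ (b, false)) (σ (b, true)) (τ (b, false)) (τ (b, true))) *
        ∏ b ∈ univ \ S, Q (σ (b, false)) (σ (b, true)) (τ (b, false)) (τ (b, true)) := by
    rw [← Finset.prod_sdiff (Finset.subset_univ S), mul_comm]
    congr 1
    · exact Finset.prod_congr rfl fun b hb => by rw [if_pos hb]
    · exact Finset.prod_congr rfl fun b hb => by rw [if_neg (Finset.mem_sdiff.mp hb).2]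
  rw [h1, Finset.prod_mul_distrib, Finset.prod_mul_distrib]
  ring

/-- the mixed sum depends only on the number of places -/
theorem mix_card (P Q : T4 m) (S S' : Finset (Fin m)) (h : S.card = S'.card) :
    mix P Q S = mix P Q S' := by
  obtain ⟨e, he⟩ : ∃ e : Equiv.Perm (Fin m), ∀ b, b ∈ S ↔ e b ∈ S' := by
    have h1 : Fintype.card {b // b ∈ S} = Fintype.card {b // b ∈ S'} := by
      rw [Fintype.card_coe, Fintype.card_coe, h]
    let f : {b // b ∈ S} ≃ {b // b ∈ S'} := Fintype.equivOfCardEq h1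
    refine ⟨f.extendSubtype, fun b => ⟨fun hb => Equiv.extendSubtype_mem f b hb, fun hb => ?_⟩⟩
    by_contra hn
    exact Equiv.extendSubtype_not_mem f b hn hb
  have h2 := gm_perm (fun b => if b ∈ S' then P else Q) e
  unfold mix
  rw [← h2]
  congr 1
  funext b
  by_cases hb : b ∈ S
  · rw [if_pos hb, if_pos ((he b).1 hb)]
  · rw [if_neg hb, if_neg (fun hc => hb ((he b).2 hc))]

theorem poly : S_POLY := by
  intro m P Q
  classical
  let M : ℕ → ℝ := fun k => if h : ∃ S : Finset (Fin m), S.card = k then mix P Q h.choose else 0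
  have hM : ∀ S : Finset (Fin m), M S.card = mix P Q S := by
    intro S
    have hex : ∃ S' : Finset (Fin m), S'.card = S.card := ⟨S, rfl⟩
    simp only [M, dif_pos hex]
    exact mix_card P Q _ _ hex.choose_spec
  let L : ℝ[X] →ₗ[ℝ] ℝ := ∑ k ∈ Finset.range (m + 1), M k • Polynomial.lcoeff ℝ k
  have hL : ∀ (S : Finset (Fin m)) (c : ℝ), L (C c * X ^ S.card) = c * mix P Q S := by
    intro S c
    simp only [L, LinearMap.sum_apply, LinearMap.smul_apply, Polynomial.lcoeff_apply,
      Polynomial.coeff_C_mul_X_pow, smul_eq_mul]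
    rw [Finset.sum_eq_single S.card]
    · rw [if_pos rfl, hM]; ring
    · intro b _ hb
      rw [if_neg hb, mul_zero]
    · intro hn
      exact absurd (Finset.mem_range.2 (Nat.lt_succ_of_le
        (le_trans (Finset.card_le_univ S) (by rw [Fintype.card_fin])))) hn
  refine ⟨L, fun α γ => ?_⟩
  rw [gm_expand, Finset.prod_add, map_sum]
  refine Finset.sum_congr rfl fun S _ => ?_
  have h3 : (∏ b ∈ S, (C (α b) * X : ℝ[X])) * ∏ b ∈ univ \ S, C (γ b) =
      C ((∏ b ∈ S, α b) * ∏ b ∈ univ \ S, γ b) * X ^ S.card := by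
    rw [Finset.prod_mul_distrib, Finset.prod_const, map_mul, map_prod, map_prod]
    ring
  rw [h3, hL]

end Pool.Agent.Helper57.RH.Poly
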