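import Pool.Agent.Helper57.RH.Scal
import Pool.Agent.Helper57.RH.Base2
import Pool.Agent.Helper57.RH.Poly
import Pool.Agent.Helper57.RH.Ind2

/-!
# The lower bound for the mixed sums, with intermediate Ricci curvatures
-/

set_option autoImplicit false

namespace Pool.Agent.Helper57.RH

open Pool.Agent.Y519.HB Pool.Agent.W669.HD Finset Polynomial
open Pool.Agent.W666.GB hiding EE

theorem gm_nonneg2 {m : ℕ} (hm : 2 ≤ m) {r : ℕ → ℝ} {P : T4 m} (hcu : Cu P) (hse : Se P)
    (hPR : PR m r P) (α γ : Fin m → ℝ) (hlow : ∀ i, i.val < 2 → α i = 1 ∧ γ i = 0)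
    (hhigh : ∀ i, 2 ≤ i.val → 0 ≤ α i ∧ r (i.val + 1) * α i ≤ γ i) :
    0 ≤ gm (fun b => (fun i j k l => α b * P i j k l + γ b * unitCurv i j k l : T4 m)) := by
  classical
  have h1 := ind2 (r := r) (M := m) m m P hcu hse hPR le_rfl hm (Fin m) (Fintype.card_fin m)
    (finCongr (Fintype.card_fin m)) α γ (fun i hi => hlow _ hi) (fun i hi => hhigh _ hi)
    (fun p q => (1 : Matrix (Fin m × Bool) (Fin m × Bool) ℝ) p q)
  rw [EE_full'] at h1
  have h2 : (Matrix.of fun p q => (1 : Matrix (Fin m × Bool) (Fin m × Bool) ℝ) p q).det = 1 := by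
    have : (Matrix.of fun p q => (1 : Matrix (Fin m × Bool) (Fin m × Bool) ℝ) p q) = 1 := rfl
    rw [this, Matrix.det_one]
  rw [h2] at h1
  simpa using h1

theorem prod_split2 {m k : ℕ} (hk : k < m - 1) (r : ℕ → ℝ) :
    ∏ b : Fin m, (C (if b.val < k + 2 then (1 : ℝ) else 0) * X +
      C (if b.val < 2 then (0 : ℝ) else if b.val < k + 2 then r (b.val + 1) else 1)) =
      (X ^ 2 * ∏ j ∈ Icc 3 (k + 2), (X + C (r j)) : ℝ[X]) := by
  obtain ⟨n, rfl⟩ : ∃ n, m = 2 + k + n := ⟨m - (2 + k), by omega⟩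
  rw [Fin.prod_univ_add, Fin.prod_univ_add]
  have g1 : ∀ i : Fin 2, (C (if (Fin.castAdd n (Fin.castAdd k i)).val < k + 2 then (1 : ℝ) else 0) * X
      + C (if (Fin.castAdd n (Fin.castAdd k i)).val < 2 then (0 : ℝ) else
        if (Fin.castAdd n (Fin.castAdd k i)).val < k + 2 then
          r ((Fin.castAdd n (Fin.castAdd k i)).val + 1) else 1)) = (X : ℝ[X]) := by
    intro i
    have := i.isLt
    simp only [Fin.val_castAdd]
    rw [if_pos (by omega), if_pos (by omega)]
    simp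
  have g2 : ∀ i : Fin k, (C (if (Fin.castAdd n (Fin.natAdd 2 i)).val < k + 2 then (1 : ℝ) else 0) * X
      + C (if (Fin.castAdd n (Fin.natAdd 2 i)).val < 2 then (0 : ℝ) else
        if (Fin.castAdd n (Fin.natAdd 2 i)).val < k + 2 then
          r ((Fin.castAdd n (Fin.natAdd 2 i)).val + 1) else 1)) =
        (X + C (r (3 + i.val)) : ℝ[X]) := by
    intro i
    have := i.isLt
    simp only [Fin.val_castAdd, Fin.val_natAdd]
    rw [if_pos (by omega), if_neg (by omega), if_pos (by omega)]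
    rw [show 2 + i.val + 1 = 3 + i.val by ring]
    simp
  have g3 : ∀ i : Fin n, (C (if (Fin.natAdd (2 + k) i).val < k + 2 then (1 : ℝ) else 0) * X
      + C (if (Fin.natAdd (2 + k) i).val < 2 then (0 : ℝ) else
        if (Fin.natAdd (2 + k) i).val < k + 2 then
          r ((Fin.natAdd (2 + k) i).val + 1) else 1)) = (1 : ℝ[X]) := by
    intro i
    simp only [Fin.val_natAdd]
    rw [if_neg (by omega), if_neg (by omega), if_neg (by omega)]
    simp
  rw [prod_congr rfl fun i _ => g1 i, prod_congr rfl fun i _ => g2 i,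
    prod_congr rfl fun i _ => g3 i]
  have hI : Icc 3 (k + 2) = Ico 3 (k + 3) := by
    ext x; simp only [mem_Icc, mem_Ico]; omega
  rw [hI, prod_Ico_eq_prod_range, show k + 3 - 3 = k by omega, ← Fin.prod_univ_eq_prod_range
    (fun i => (X + C (r (3 + i)) : ℝ[X])) k]
  simp

/-- **The lower bound**, `c = 1`. -/
theorem gm_low2 (hB : S_BETA2) {m : ℕ} (hm : 3 ≤ m) {P : T4 m} (hcu : Cu P) (hse : Se P)
    {r : ℕ → ℝ} (hPR : PR m r P) (hr0 : ∀ j, 3 ≤ j → j ≤ m → 0 ≤ r j)
    (hmono : ∀ j, 3 ≤ j → j < m → r j ≤ r (j + 1)) (hsum : ∑ j ∈ Icc 3 m, r j ≤ m) :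
    2 ^ m * ((2 * m).factorial : ℝ) +
      m * (2 ^ m * (2 * m - 2).factorial * ∑ i, ∑ j, P i j i j) ≤
    gm (fun _ : Fin m => (fun i j k l => P i j k l + unitCurv i j k l : T4 m)) := by
  classical
  obtain ⟨L, hL⟩ := Poly.poly m P unitCurv
  obtain ⟨β, hβ, hpoly⟩ := hB m r hm hr0 hmono hsum
  have hLX := scal_coeff hcu hL (by omega)
  have h0 := hL (fun _ => 0) (fun _ => 1)
  have h1 := hL (fun _ => 1) (fun _ => 1)
  have e0 : (∏ _b : Fin m, (C (0 : ℝ) * X + C (1 : ℝ))) = (1 : ℝ[X]) := by simp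
  have e1 : (∏ _b : Fin m, (C (1 : ℝ) * X + C (1 : ℝ))) = (X + 1 : ℝ[X]) ^ m := by simp
  rw [e0] at h0
  rw [e1] at h1
  have f0 : (fun _ : Fin m => (fun i j k l => (0 : ℝ) * P i j k l + 1 * unitCurv i j k l : T4 m)) =
      fun _ => (fun i j k l => (1 : ℝ) * unitCurv i j k l : T4 m) := by
    funext b i j k l
    ring
  have f1 : (fun _ : Fin m => (fun i j k l => (1 : ℝ) * P i j k l + 1 * unitCurv i j k l : T4 m)) =
      fun _ => (fun i j k l => P i j k l + unitCurv i j k l : T4 m) := by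
    funext b i j k l
    ring
  rw [f0, unit_gm] at h0
  rw [f1] at h1
  rw [h1, hpoly, map_add, map_add, ← smul_eq_C_mul, map_smul, hLX, ← h0]
  have hpos : 0 ≤ L (X ^ 2 * ∑ k ∈ Finset.range (m - 1),
      C (β k) * ∏ j ∈ Icc 3 (k + 2), (X + C (r j))) := by
    rw [mul_sum, map_sum]
    refine sum_nonneg fun k hk => ?_
    have hk' : k < m - 1 := mem_range.1 hk
    have e2 : X ^ 2 * (C (β k) * ∏ j ∈ Icc 3 (k + 2), (X + C (r j))) =
        β k • (X ^ 2 * ∏ j ∈ Icc 3 (k + 2), (X + C (r j))) := by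
      rw [smul_eq_C_mul]; ring
    rw [e2, map_smul, smul_eq_mul]
    refine mul_nonneg (hβ k) ?_
    have hnn := gm_nonneg2 (by omega) hcu hse hPR
      (fun b : Fin m => if b.val < k + 2 then 1 else 0)
      (fun b : Fin m => if b.val < 2 then 0 else if b.val < k + 2 then r (b.val + 1) else 1)
      (by
        intro i hi
        exact ⟨if_pos (by omega), if_pos hi⟩)
      (by
        intro i hi
        simp only [if_neg (not_lt.2 hi)]
        split_ifs
        · constructor <;> simp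
        · constructor <;> simp)
    rw [hL, prod_split2 hk'] at hnn
    exact hnn
  rw [smul_eq_mul, one_pow, one_mul]
  linarith [hpos]

end Pool.Agent.Helper57.RH
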