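import Pool.Agent.Helper57.RH.Geo
import Pool.Agent.Helper57.RH.Low2

/-!
# The pointwise bound for curvature tensors, with intermediate Ricci curvatures
-/

set_option autoImplicit false

namespace Pool.Agent.Helper57.RH

open Pool.Agent.Y519.HB Pool.Agent.W669.HD Finset
open Pool.Agent.W666.GB hiding EE

section

variable {V : Type} [NormedAddCommGroup V] [InnerProductSpace ℝ V] {R : V → V → V → V → ℝ}

/-- the Ricci form of a restriction -/
theorem ric_exp {K : Type} [Fintype K] [DecidableEq K] (hR : AlgCurv R) (U : K → V) (x : K → ℝ) :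
    ∑ a, R (U a) (∑ i, x i • U i) (U a) (∑ i, x i • U i) =
      ∑ j, ∑ l, (∑ i, R (U i) (U j) (U i) (U l)) * (x j * x l) := by
  have h3 : ∀ a, R (U a) (∑ i, x i • U i) (U a) (∑ i, x i • U i) =
      ∑ j, ∑ l, R (U a) (U j) (U a) (U l) * (x j * x l) := by
    intro a
    have h4 : U a = ∑ i, (if i = a then (1 : ℝ) else 0) • U i := by simp
    conv_lhs => rw [h4]
    rw [R_ev4 hR U, ev4_eq, sum_eq_single a]
    · refine sum_congr rfl fun j _ => ?_
      rw [sum_eq_single a]
      · refine sum_congr rfl fun l _ => ?_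
        simp only [if_true]
        ring
      · intro b _ hb
        simp [hb]
      · intro h
        exact absurd (mem_univ _) h
    · intro b _ hb
      simp [hb]
    · intro h
      exact absurd (mem_univ _) h
  simp only [h3]
  rw [sum_comm]
  refine sum_congr rfl fun j _ => ?_
  rw [sum_comm]
  refine sum_congr rfl fun l _ => ?_
  rw [sum_mul]

theorem unit_ric {K : Type} [Fintype K] [DecidableEq K] (j l : K) :
    ∑ i, unitCurv i j i l = (Fintype.card K - 1) * (if j = l then (1 : ℝ) else 0) := by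
  have h7 : ∀ i : K, unitCurv i j i l =
      (if j = l then 1 else 0) - (if i = j then (if j = l then (1 : ℝ) else 0) else 0) := by
    intro i
    unfold unitCurv
    by_cases h : i = j
    · subst h; simp
    · simp [h, Ne.symm h]
  simp only [h7, sum_sub_distrib, sum_ite_eq', mem_univ, if_true, sum_const, card_univ,
    nsmul_eq_mul]
  ring

variable {m : ℕ} (e : OrthonormalBasis (Fin m × Bool) ℝ V)

theorem pul_shP (hR : AlgCurv R) (c : ℝ) {k : ℕ} (u : Fin k × Bool → Fin m × Bool → ℝ)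
    (hu : ∀ p q, ∑ j, u p j * u q j = if p = q then 1 else 0) (i j k' l : Fin k × Bool) :
    pul (shP e R c) u i j k' l = -(1 / c) * R (∑ a, u i a • e a) (∑ a, u j a • e a)
      (∑ a, u k' a • e a) (∑ a, u l a • e a) - unitCurv i j k' l := by
  have h1 := (pul_thm (Fin m × Bool) (Fin k × Bool) u hu).1 i j k' l
  unfold pul at h1 ⊢
  unfold shP
  rw [ev4_comb, ev4_cp e hR, h1]
  ring

/-- from intermediate Ricci curvatures to the array -/
theorem shP_PR (hF : S_FRIC) (hR : AlgCurv R) {c : ℝ} (hc : 0 < c) {r : ℕ → ℝ}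
    (hI : ∀ k, 3 ≤ k → k ≤ m → IRicGe R (2 * k - 1) (-(((2 * k - 1) + 3 * r k) * c))) :
    PR m r (shP e R c) := by
  intro k h3 hkm u hu x
  have h1 := hF m k V e R _ hR (by omega) (hI k h3 hkm) u hu x
  obtain ⟨U, hU⟩ : ∃ U : Fin k × Bool → V, U = fun p => ∑ j, u p j • e j := ⟨_, rfl⟩
  have h1' : -(((2 * k - 1) + 3 * r k) * c) * ∑ p, x p ^ 2 ≤
      ∑ p, R (U p) (∑ q, x q • U q) (U p) (∑ q, x q • U q) := by
    rw [hU]; exact h1
  rw [ric_exp hR U x] at h1'
  have h5 : ∀ j l : Fin k × Bool, ∑ i, pul (shP e R c) u i j i l =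
      -(1 / c) * (∑ i, R (U i) (U j) (U i) (U l)) - (2 * k - 1) * (if j = l then 1 else 0) := by
    intro j l
    have h6 := unit_ric j l
    rw [Fintype.card_prod, Fintype.card_fin, Fintype.card_bool] at h6
    push_cast at h6
    simp only [pul_shP e hR c u hu, sum_sub_distrib, ← mul_sum, h6, hU]
    ring
  have h8 : ∑ j, ∑ l, (∑ i, pul (shP e R c) u i j i l) * (x j * x l) =
      -(1 / c) * (∑ j, ∑ l, (∑ i, R (U i) (U j) (U i) (U l)) * (x j * x l)) -
        (2 * k - 1) * ∑ j, x j ^ 2 := by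
    have h9 : ∀ j, ∑ l, (∑ i, pul (shP e R c) u i j i l) * (x j * x l) =
        -(1 / c) * (∑ l, (∑ i, R (U i) (U j) (U i) (U l)) * (x j * x l)) -
          (2 * k - 1) * x j ^ 2 := by
      intro j
      have h10 : ∀ l, (∑ i, pul (shP e R c) u i j i l) * (x j * x l) =
          -(1 / c) * ((∑ i, R (U i) (U j) (U i) (U l)) * (x j * x l)) -
          (if j = l then (2 * k - 1) * (x j * x l) else 0) := by
        intro l
        rw [h5]
        split_ifs <;> ring
      simp only [h10, sum_sub_distrib, ← mul_sum, sum_ite_eq, mem_univ, if_true]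
      ring
    simp only [h9, sum_sub_distrib, ← mul_sum]
  rw [h8]
  set a := ∑ j, x j ^ 2
  set S := ∑ j, ∑ l, (∑ i, R (U i) (U j) (U i) (U l)) * (x j * x l)
  have h12 : 1 / c * (-(((2 * k - 1) + 3 * r k) * c) * a) ≤ 1 / c * S :=
    mul_le_mul_of_nonneg_left h1' (by positivity)
  have h13 : 1 / c * (-(((2 * k - 1) + 3 * r k) * c) * a) = -(((2 * k - 1) + 3 * r k) * a) := by
    field_simp
  rw [h13] at h12
  linarith

/-- one step down in the intermediate Ricci curvatures -/
theorem iric_step (e : OrthonormalBasis (Fin m × Bool) ℝ V) {c ρ : ℝ} {k : ℕ}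
    (hs : ∀ x y : V, ‖x‖ = 1 → ‖y‖ = 1 → inner ℝ x y = (0 : ℝ) → R x y x y ≤ -c)
    (hk : k + 2 ≤ 2 * m) (h : IRicGe R (k + 1) ρ) : IRicGe R k (ρ + c) := by
  intro x y hx hxy hy
  have hfin : FiniteDimensional ℝ V := Module.Finite.of_basis e.toBasis
  have hcard : Module.finrank ℝ V = 2 * m := by
    rw [Module.finrank_eq_card_basis e.toBasis, Fintype.card_prod, Fintype.card_fin,
      Fintype.card_bool, mul_comm]
  -- the span of `x` and `y`
  obtain ⟨W, hW⟩ : ∃ W : Submodule ℝ V, W = Submodule.span ℝ (Set.range (Fin.cons x y : Fin (k + 1) → V)) :=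
    ⟨_, rfl⟩
  have hWd : Module.finrank ℝ W < Module.finrank ℝ V := by
    rw [hW, hcard]
    refine lt_of_le_of_lt (finrank_range_le_card _) ?_
    rw [Fintype.card_fin]
    omega
  have hne : Wᗮ ≠ ⊥ := by
    intro h0
    have h1 := Submodule.finrank_add_finrank_orthogonal W
    rw [h0, finrank_bot, add_zero] at h1
    omega
  obtain ⟨z, hz, hz0⟩ := Submodule.exists_mem_ne_zero_of_ne_bot hne
  have hzn : 0 < ‖z‖ := norm_pos_iff.mpr hz0
  obtain ⟨w, hw⟩ : ∃ w : V, w = (‖z‖⁻¹ : ℝ) • z := ⟨_, rfl⟩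
  have hw1 : ‖w‖ = 1 := by
    rw [hw, norm_smul, norm_inv, norm_norm]
    field_simp
  have hwW : ∀ v ∈ W, inner ℝ v w = (0 : ℝ) := by
    intro v hv
    rw [hw, inner_smul_right, (Submodule.mem_orthogonal W z).1 hz v hv, mul_zero]
  have hxW : x ∈ W := by
    rw [hW]
    exact Submodule.subset_span ⟨0, rfl⟩
  have hyW : ∀ i, y i ∈ W := by
    intro i
    rw [hW]
    exact Submodule.subset_span ⟨i.succ, rfl⟩
  have h1 := h x (Fin.cons w y) hx (by
    intro i
    refine Fin.cases ?_ (fun i => ?_) i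
    · exact hwW x hxW
    · exact hxy i) (by
    constructor
    · intro i
      refine Fin.cases ?_ (fun i => ?_) i
      · exact hw1
      · exact hy.1 i
    · intro i j hij
      rcases Fin.eq_zero_or_eq_succ i with rfl | ⟨i, rfl⟩
      · rcases Fin.eq_zero_or_eq_succ j with rfl | ⟨j, rfl⟩
        · exact absurd rfl hij
        · simp only [Fin.cons_zero, Fin.cons_succ]
          rw [real_inner_comm]
          exact hwW _ (hyW j)
      · rcases Fin.eq_zero_or_eq_succ j with rfl | ⟨j, rfl⟩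
        · simp only [Fin.cons_zero, Fin.cons_succ]
          exact hwW _ (hyW i)
        · simp only [Fin.cons_succ]
          exact hy.2 fun h => hij (by rw [h]))
  rw [Fin.sum_univ_succ] at h1
  simp only [Fin.cons_zero, Fin.cons_succ] at h1
  have h2 := hs x w hx hw1 (hwW x hxW)
  linarith

/-- several steps down -/
theorem iric_down (e : OrthonormalBasis (Fin m × Bool) ℝ V) {c : ℝ}
    (hs : ∀ x y : V, ‖x‖ = 1 → ‖y‖ = 1 → inner ℝ x y = (0 : ℝ) → R x y x y ≤ -c) :
    ∀ (d k : ℕ) (ρ : ℝ), k + d + 1 ≤ 2 * m → IRicGe R (k + d) ρ → IRicGe R k (ρ + d * c) := by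
  intro d
  induction d with
  | zero =>
    intro k ρ _ h
    simpa using h
  | succ d ih =>
    intro k ρ hk h
    have h1 := ih k (ρ + c) (by omega) (iric_step e hs (k := k + d) (by omega) h)
    have e1 : ρ + ((d + 1 : ℕ) : ℝ) * c = ρ + c + d * c := by push_cast; ring
    rw [e1]
    exact h1

end

end Pool.Agent.Helper57.RH
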