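import Pool.Agent.Helper57.RH.Frame

/-!
# The induction on the number of places
-/

set_option autoImplicit false

namespace Pool.Agent.Helper57.RH

open Pool.Agent.Y519.HB Pool.Agent.W669.HD Finset
open Pool.Agent.W666.GB hiding EE

theorem unit_cu {J : Type*} [DecidableEq J] : Cu (unitCurv : J → J → J → J → ℝ) where
  a12 i j k l := by simp only [unitCurv]; ring
  pair i j k l := by
    simp only [unitCurv, eq_comm]
    ring
  bia i j k l := by
    simp only [unitCurv, eq_comm]
    ring

theorem comb_cu {J : Type*} [DecidableEq J] {P : J → J → J → J → ℝ} (hP : Cu P) (α γ : ℝ) :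
    Cu (fun i j k l => α * P i j k l + γ * unitCurv i j k l) where
  a12 i j k l := by
    rw [hP.a12, unit_cu.a12]; ring
  pair i j k l := by
    rw [hP.pair, unit_cu.pair]
  bia i j k l := by
    linear_combination α * hP.bia i j k l + γ * (unit_cu (J := J)).bia i j k l

theorem ev4_comb {J : Type*} [Fintype J] (P Q : J → J → J → J → ℝ) (α γ : ℝ) (x y z w : J → ℝ) :
    ev4 (fun i j k l => α * P i j k l + γ * Q i j k l) x y z w =
      α * ev4 P x y z w + γ * ev4 Q x y z w := by
  unfold ev4
  rw [mul_sum, mul_sum, ← sum_add_distrib]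
  refine sum_congr rfl fun p _ => ?_
  ring

theorem ev4_single {J : Type*} [Fintype J] [DecidableEq J] (P : J → J → J → J → ℝ) (i j : J) :
    ev4 P (Pi.single i 1) (Pi.single j 1) (Pi.single i 1) (Pi.single j 1) = P i j i j := by
  rw [ev4_eq, sum_eq_single i, sum_eq_single j, sum_eq_single i, sum_eq_single j]
  · simp
  all_goals first
    | (intro b _ hb; simp [Pi.single_apply, hb]; done)
    | (intro h; exact absurd (mem_univ _) h)

theorem unit_dot {J : Type*} [Fintype J] [DecidableEq J] {D : J → J → J → J → ℝ}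
    (h12 : ∀ i j k l, D j i k l = - D i j k l) (hp : ∀ i j k l, D k l i j = D i j k l) :
    ∑ i, ∑ j, ∑ k, ∑ l, unitCurv i j k l * D i j k l = 2 * ∑ i, ∑ j, D i j i j := by
  have h34 : ∀ i j, D i j j i = - D i j i j := by
    intro i j
    rw [← hp, h12, hp]
  have h1 : ∀ i j, ∑ k, ∑ l, unitCurv i j k l * D i j k l = 2 * D i j i j := by
    intro i j
    have e1 : ∀ k l, unitCurv i j k l * D i j k l =
        (if i = k then (if j = l then D i j k l else 0) else 0) -
        (if j = k then (if i = l then D i j k l else 0) else 0) := by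
      intro k l
      simp only [unitCurv]
      split_ifs <;> ring
    simp only [e1, sum_sub_distrib]
    simp only [sum_ite_irrel, sum_const_zero, sum_ite_eq, mem_univ, if_true]
    rw [h34]
    ring
  simp only [h1, mul_sum]

theorem ind (hA : S_AVG) (hF : S_FRAME) (hP : S_PUL) (hC : S_CONTR) {r : ℝ} : ∀ (k m : ℕ)
    (P : T4 m), Cu P → Se P → RicLe (3 * r) P → ∀ (T : Type) [Fintype T] [DecidableEq T],
    Fintype.card T = k → ∀ (α γ : T → ℝ) (b₀ b₁ : T), b₀ ≠ b₁ → α b₀ = 1 → γ b₀ = 0 →
    α b₁ = 1 → γ b₁ = 0 → (∀ b, b ≠ b₀ → b ≠ b₁ → 0 ≤ α b ∧ r * α b ≤ γ b) →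
    ∀ y : T × Bool → Fin m × Bool → ℝ,
      0 ≤ EE (fun b => (fun i j k l => α b * P i j k l + γ b * unitCurv i j k l : T4 m)) y := by
  intro k
  induction k with
  | zero =>
    intro m P _ _ _ T _ _ hT α γ b₀
    exact (Fintype.card_eq_zero_iff.1 hT).elim b₀
  | succ k ih =>
    intro m P hcu hse hric T _ _ hT α γ b₀ b₁ hne ha0 hg0 ha1 hg1 hb y
    by_cases h2 : ∀ b, b = b₀ ∨ b = b₁
    · have : (fun b => (fun i j k l => α b * P i j k l + γ b * unitCurv i j k l : T4 m)) =
          fun _ : T => P := by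
        funext b i j k l
        rcases h2 b with h | h
        · rw [h, ha0, hg0]; ring
        · rw [h, ha1, hg1]; ring
      rw [this]
      exact EE_two hcu hse b₀ b₁ hne h2 y
    push Not at h2
    obtain ⟨b', hb0, hb1⟩ := h2
    set θ : Fin (Fintype.card T) ≃ T := (Fintype.equivFin T).symm with hθ
    rcases hF m T (fun b => (fun i j k l => α b * P i j k l + γ b * unitCurv i j k l : T4 m))
      (fun b => comb_cu hcu _ _) θ y with h | ⟨c, u, hu, h⟩
    · rw [h]
    rw [h]
    refine mul_nonneg (sq_nonneg _) ?_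
    obtain ⟨hun, hri⟩ := hP (Fin m × Bool) (Fin (Fintype.card T) × Bool) u hu
    set P' : T4 (Fintype.card T) := pul P u with hP'
    have hcu' : Cu P' := cu_pul hcu u
    have hse' : Se P' := se_pul hcu hse u
    have hric' : RicLe (3 * r) P' := hri P _ hcu hse hric
    set C' : Fin (Fintype.card T) → T4 (Fintype.card T) := fun b =>
      (fun i j k l => α (θ b) * P' i j k l + γ (θ b) * unitCurv i j k l) with hC'
    have hCC : (fun b => pul (fun i j k l => α (θ b) * P i j k l + γ (θ b) * unitCurv i j k l) u) =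
        C' := by
      funext b i j k l
      simp only [pul, hC', hP']
      rw [ev4_comb]
      have := hun i j k l
      unfold pul at this
      rw [this]
    rw [hCC]
    obtain ⟨D, h12, hpr, hgm, hev⟩ := hC _ C' (θ.symm b') (fun b i j k l =>
      (comb_cu hcu' _ _).pair i j k l)
    have hDs : Se D := by
      intro x z
      obtain ⟨c', w, hw⟩ := hev x z
      rw [hw]
      refine mul_nonneg (sq_nonneg _) ?_
      have hcard : Fintype.card ↥(univ.erase (θ.symm b')) = k := by
        rw [Fintype.card_coe, card_erase_of_mem (mem_univ _), card_univ, Fintype.card_fin, hT]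
        rfl
      have m0 : θ.symm b₀ ∈ univ.erase (θ.symm b') :=
        mem_erase.2 ⟨fun h => hb0 (θ.symm.injective h).symm, mem_univ _⟩
      have m1 : θ.symm b₁ ∈ univ.erase (θ.symm b') :=
        mem_erase.2 ⟨fun h => hb1 (θ.symm.injective h).symm, mem_univ _⟩
      refine ih _ P' hcu' hse' hric' ↥(univ.erase (θ.symm b')) hcard (fun b => α (θ b))
        (fun b => γ (θ b)) ⟨θ.symm b₀, m0⟩ ⟨θ.symm b₁, m1⟩ ?_ ?_ ?_ ?_ ?_ ?_ w
      · intro h
        exact hne (θ.symm.injective (congrArg Subtype.val h))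
      · simp [ha0]
      · simp [hg0]
      · simp [ha1]
      · simp [hg1]
      · intro b hb0' hb1'
        refine hb _ ?_ ?_
        · intro h
          exact hb0' (Subtype.ext ((θ.symm_apply_apply _).symm.trans (congrArg θ.symm h)))
        · intro h
          exact hb1' (Subtype.ext ((θ.symm_apply_apply _).symm.trans (congrArg θ.symm h)))
    have hav := hA _ P' D (3 * r) hcu' hse' hric' h12 hpr hDs
    have hun2 := unit_dot h12 hpr
    have hpos : 0 ≤ ∑ i, ∑ j, D i j i j :=
      sum_nonneg fun i _ => sum_nonneg fun j _ => by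
        rw [← ev4_single D i j]
        exact hDs _ _
    rw [hgm]
    have hsplit : ∑ i, ∑ j, ∑ k, ∑ l, C' (θ.symm b') i j k l * D i j k l =
        α b' * (∑ i, ∑ j, ∑ k, ∑ l, P' i j k l * D i j k l) +
        γ b' * ∑ i, ∑ j, ∑ k, ∑ l, unitCurv i j k l * D i j k l := by
      simp only [hC', Equiv.apply_symm_apply, mul_sum, ← sum_add_distrib]
      refine sum_congr rfl fun i _ => sum_congr rfl fun j _ => sum_congr rfl fun k _ =>
        sum_congr rfl fun l _ => ?_
      ring
    rw [hsplit]
    obtain ⟨h0, h1⟩ := hb b' hb0 hb1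
    have e1 : 3 * r / 3 = r := by ring
    rw [e1] at hav
    rw [hun2] at hav ⊢
    nlinarith [mul_nonneg h0 hav, mul_nonneg (sub_nonneg.2 h1) hpos]

end Pool.Agent.Helper57.RH
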