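import Pool.Agent.Helper57.RH.Scal
import Pool.Agent.Helper57.RH.Beta
import Pool.Agent.Helper57.RH.Contr
import Pool.Agent.Helper57.RH.Poly
import Pool.Agent.Helper57.RH.Pul

/-!
# The lower bound for the mixed sums
-/

set_option autoImplicit false

namespace Pool.Agent.Helper57.RH

open Pool.Agent.Y519.HB Pool.Agent.W669.HD Finset Polynomial
open Pool.Agent.W666.GB hiding EE

theorem gm_nonneg (hA : S_AVG) {m : ℕ} {r : ℝ} {P : T4 m} (hcu : Cu P) (hse : Se P)
    (hric : RicLe (3 * r) P) (α γ : Fin m → ℝ) (b₀ b₁ : Fin m) (hne : b₀ ≠ b₁) (ha0 : α b₀ = 1)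
    (hg0 : γ b₀ = 0) (ha1 : α b₁ = 1) (hg1 : γ b₁ = 0)
    (hb : ∀ b, b ≠ b₀ → b ≠ b₁ → 0 ≤ α b ∧ r * α b ≤ γ b) :
    0 ≤ gm (fun b => (fun i j k l => α b * P i j k l + γ b * unitCurv i j k l : T4 m)) := by
  classical
  have h1 := ind hA frame pul_thm contr m m P hcu hse hric (Fin m) (Fintype.card_fin m) α γ b₀ b₁
    hne ha0 hg0 ha1 hg1 hb (fun p q => (1 : Matrix (Fin m × Bool) (Fin m × Bool) ℝ) p q)
  rw [EE_full'] at h1
  have h2 : (Matrix.of fun p q => (1 : Matrix (Fin m × Bool) (Fin m × Bool) ℝ) p q).det = 1 := by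
    have : (Matrix.of fun p q => (1 : Matrix (Fin m × Bool) (Fin m × Bool) ℝ) p q) = 1 := rfl
    rw [this, Matrix.det_one]
  rw [h2] at h1
  simpa using h1

theorem prod_split {m k : ℕ} (hk : k < m - 1) (r : ℝ) :
    ∏ b : Fin m, (C (if b.val < k + 2 then (1 : ℝ) else 0) * X +
      C (if b.val < 2 then (0 : ℝ) else if b.val < k + 2 then r else 1)) =
      (X ^ 2 * (X + C r) ^ k : ℝ[X]) := by
  obtain ⟨n, rfl⟩ : ∃ n, m = 2 + k + n := ⟨m - (2 + k), by omega⟩
  rw [Fin.prod_univ_add, Fin.prod_univ_add]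
  have g1 : ∀ i : Fin 2, (C (if (Fin.castAdd n (Fin.castAdd k i)).val < k + 2 then (1 : ℝ) else 0) * X
      + C (if (Fin.castAdd n (Fin.castAdd k i)).val < 2 then (0 : ℝ) else
        if (Fin.castAdd n (Fin.castAdd k i)).val < k + 2 then r else 1)) = (X : ℝ[X]) := by
    intro i
    have := i.isLt
    simp only [Fin.val_castAdd]
    rw [if_pos (by omega), if_pos (by omega)]
    simp
  have g2 : ∀ i : Fin k, (C (if (Fin.castAdd n (Fin.natAdd 2 i)).val < k + 2 then (1 : ℝ) else 0) * X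
      + C (if (Fin.castAdd n (Fin.natAdd 2 i)).val < 2 then (0 : ℝ) else
        if (Fin.castAdd n (Fin.natAdd 2 i)).val < k + 2 then r else 1)) = (X + C r : ℝ[X]) := by
    intro i
    have := i.isLt
    simp only [Fin.val_castAdd, Fin.val_natAdd]
    rw [if_pos (by omega), if_neg (by omega), if_pos (by omega)]
    simp
  have g3 : ∀ i : Fin n, (C (if (Fin.natAdd (2 + k) i).val < k + 2 then (1 : ℝ) else 0) * X
      + C (if (Fin.natAdd (2 + k) i).val < 2 then (0 : ℝ) else
        if (Fin.natAdd (2 + k) i).val < k + 2 then r else 1)) = (1 : ℝ[X]) := by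
    intro i
    simp only [Fin.val_natAdd]
    rw [if_neg (by omega), if_neg (by omega), if_neg (by omega)]
    simp
  rw [prod_congr rfl fun i _ => g1 i, prod_congr rfl fun i _ => g2 i,
    prod_congr rfl fun i _ => g3 i]
  simp

/-- **The lower bound**, `c = 1`. -/
theorem gm_low (hA : S_AVG) {m : ℕ} (hm : 3 ≤ m) {P : T4 m} (hcu : Cu P) (hse : Se P)
    (hric : RicLe (3 * ((m : ℝ) / (m - 2))) P) :
    2 ^ m * ((2 * m).factorial : ℝ) +
      m * (2 ^ m * (2 * m - 2).factorial * ∑ i, ∑ j, P i j i j) ≤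
    gm (fun _ : Fin m => (fun i j k l => P i j k l + unitCurv i j k l : T4 m)) := by
  classical
  obtain ⟨L, hL⟩ := Poly.poly m P unitCurv
  obtain ⟨β, hβ, hpoly⟩ := Beta.beta m hm
  have hLX := scal_coeff hcu hL (by omega)
  have h0 := hL (fun _ => 0) (fun _ => 1)
  have h1 := hL (fun _ => 1) (fun _ => 1)
  have e0 : (∏ _b : Fin m, (C (0 : ℝ) * X + C (1 : ℝ))) = (1 : ℝ[X]) := by simp
  have e1 : (∏ _b : Fin m, (C (1 : ℝ) * X + C (1 : ℝ))) = (X + 1 : ℝ[X]) ^ m := by simp
  rw [e0] at h0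
  rw [e1] at h1
  have f0 : (fun _ : Fin m => (fun i j k l => (0 : ℝ) * P i j k l + 1 * unitCurv i j k l : T4 m)) =
      fun _ => (fun i j k l => (1 : ℝ) * unitCurv i j k l : T4 m) := by
    funext b i j k l
    ring
  have f1 : (fun _ : Fin m => (fun i j k l => (1 : ℝ) * P i j k l + 1 * unitCurv i j k l : T4 m)) =
      fun _ => (fun i j k l => P i j k l + unitCurv i j k l : T4 m) := by
    funext b i j k l
    ring
  rw [f0, unit_gm] at h0
  rw [f1] at h1
  rw [h1, hpoly, map_add, map_add, ← smul_eq_C_mul, map_smul, hLX, ← h0]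
  have hpos : 0 ≤ L (X ^ 2 * ∑ k ∈ Finset.range (m - 1),
      C (β k) * (X + C ((m : ℝ) / (m - 2))) ^ k) := by
    rw [mul_sum, map_sum]
    refine sum_nonneg fun k hk => ?_
    have hk' : k < m - 1 := mem_range.1 hk
    have e2 : X ^ 2 * (C (β k) * (X + C ((m : ℝ) / (m - 2))) ^ k) =
        β k • (X ^ 2 * (X + C ((m : ℝ) / (m - 2))) ^ k) := by
      rw [smul_eq_C_mul]; ring
    rw [e2, map_smul, smul_eq_mul]
    refine mul_nonneg (hβ k) ?_
    have hnn := gm_nonneg hA hcu hse hric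
      (fun b : Fin m => if b.val < k + 2 then 1 else 0)
      (fun b : Fin m => if b.val < 2 then 0 else if b.val < k + 2 then (m : ℝ) / (m - 2) else 1)
      ⟨0, by omega⟩ ⟨1, by omega⟩ (by simp) (by simp) (by simp)
      (by simp) (by simp) (by
        intro b hb0 hb1
        have h2 : ¬ b.val < 2 := by
          intro h
          have : b.val ≠ 0 := fun h => hb0 (Fin.ext h)
          have : b.val ≠ 1 := fun h => hb1 (Fin.ext h)
          omega
        rw [if_neg h2]
        split_ifs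
        · constructor <;> simp
        · constructor <;> simp)
    rw [hL, prod_split hk'] at hnn
    exact hnn
  rw [smul_eq_mul, one_pow, one_mul]
  linarith [hpos]

end Pool.Agent.Helper57.RH
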