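import Pool.Agent.Helper57.RH.Geo2

/-!
# The class of pinched curvature tensors, the pointwise bound and the case of equality
-/

set_option autoImplicit false

namespace Pool.Agent.Helper57.RH

open Pool.Agent.Y519.HB Pool.Agent.W669.HD Finset
open Pool.Agent.W666.GB hiding EE

theorem sum_odd : ∀ m : ℕ, 2 ≤ m → ∑ j ∈ Icc 3 m, (2 * (j : ℝ) - 1) = (m : ℝ) ^ 2 - 4 := by
  intro m hm
  induction m, hm using Nat.le_induction with
  | base => norm_num
  | succ n hn ih =>
    rw [sum_Icc_succ_top (by omega), ih]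
    push_cast
    ring

theorem sum_gap : ∀ m : ℕ, 2 ≤ m →
    ∑ j ∈ Icc 3 m, ((m : ℝ) - j) = ((m : ℝ) - 2) * (m - 3) / 2 := by
  intro m hm
  have h1 : ∀ n : ℕ, 2 ≤ n → ∑ j ∈ Icc 3 n, (j : ℝ) = (n : ℝ) * (n + 1) / 2 - 3 := by
    intro n hn
    induction n, hn using Nat.le_induction with
    | base => norm_num
    | succ n hn ih =>
      rw [sum_Icc_succ_top (by omega), ih]
      push_cast
      ring
  rw [sum_sub_distrib, h1 m hm, sum_const, Nat.card_Icc, nsmul_eq_mul, Nat.cast_sub (by omega)]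
  push_cast
  ring

section

variable {V : Type} [NormedAddCommGroup V] [InnerProductSpace ℝ V] {R : V → V → V → V → ℝ}
variable {m : ℕ} (e : OrthonormalBasis (Fin m × Bool) ℝ V)

/-- lower bounds of intermediate Ricci curvatures are at most the negative values -/
theorem iric_bound {c ρ : ℝ} {k : ℕ} (e : OrthonormalBasis (Fin m × Bool) ℝ V)
    (hs : ∀ x y : V, ‖x‖ = 1 → ‖y‖ = 1 → inner ℝ x y = (0 : ℝ) → R x y x y ≤ -c)
    (hk : k + 1 ≤ 2 * m) (h : IRicGe R k (-ρ)) : k * c ≤ ρ := by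
  obtain ⟨g⟩ : Nonempty (Fin (2 * m) ≃ Fin m × Bool) := by
    rw [← Fintype.card_eq, Fintype.card_prod, Fintype.card_fin, Fintype.card_fin,
      Fintype.card_bool, mul_comm]
  obtain ⟨f, hf⟩ : ∃ f : Fin (k + 1) → V, f = fun i => e (g (Fin.castLE hk i)) := ⟨_, rfl⟩
  have hfo : Orthonormal ℝ f := by
    rw [hf]
    exact e.orthonormal.comp (fun i => g (Fin.castLE hk i))
      (g.injective.comp (Fin.castLE_injective hk))
  have h1 := h (f 0) (fun i => f i.succ) (hfo.1 0)
    (fun i => hfo.2 (Fin.succ_ne_zero i).symm) (hfo.comp Fin.succ (Fin.succ_injective k))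
  have h2 : ∑ i : Fin k, R (f 0) (f i.succ) (f 0) (f i.succ) ≤ ∑ _i : Fin k, -c :=
    sum_le_sum fun i _ => hs _ _ (hfo.1 0) (hfo.1 _) (hfo.2 (Fin.succ_ne_zero i).symm)
  rw [sum_const, card_univ, Fintype.card_fin, nsmul_eq_mul] at h2
  linarith

/-- nonpositive curvature and scalar curvature zero: the tensor vanishes -/
theorem zero_of_scal (hR : AlgCurv R) (hq : ∀ x y : V, R x y x y ≤ 0) (h0 : 0 ≤ scal e R)
    (x y z w : V) : R x y z w = 0 := by
  have hq0 : ∀ i, ∑ a, R (e a) (e i) (e a) (e i) = 0 := by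
    have h1 : ∑ i, ∑ a, R (e a) (e i) (e a) (e i) = 0 := by
      refine le_antisymm (sum_nonpos fun i _ => sum_nonpos fun a _ => hq _ _) ?_
      rw [sum_comm]
      exact h0
    have h2 := (sum_eq_zero_iff_of_nonpos (fun i _ => sum_nonpos fun a _ => hq _ _)).1 h1
    exact fun i => h2 i (mem_univ i)
  have hB : ∀ (v : V) i, ∑ a, R (e a) v (e a) (e i) = 0 := by
    intro v i
    have key : ∀ t : ℝ, ∑ a, R (e a) v (e a) v + 2 * t * ∑ a, R (e a) v (e a) (e i) ≤ 0 := by
      intro t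
      have h1 : ∑ a, R (e a) (v + t • e i) (e a) (v + t • e i) =
          ∑ a, R (e a) v (e a) v + 2 * t * ∑ a, R (e a) v (e a) (e i) := by
        have h2 : ∀ a, R (e a) (v + t • e i) (e a) (v + t • e i) =
            R (e a) v (e a) v + 2 * t * R (e a) v (e a) (e i) +
              t ^ 2 * R (e a) (e i) (e a) (e i) := by
          intro a
          rw [hR.add2, hR.add4, hR.add4, hR.smul2, hR.smul4, hR.smul4, hR.smul2,
            hR.pair (e a) v (e a) (e i)]
          ring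
        simp only [h2, sum_add_distrib, ← mul_sum, hq0 i]
        ring
      rw [← h1]
      exact sum_nonpos fun a _ => hq _ _
    by_contra hne
    have h5 := key ((1 - ∑ a, R (e a) v (e a) v) / (2 * ∑ a, R (e a) v (e a) (e i)))
    have h6 : 2 * ((1 - ∑ a, R (e a) v (e a) v) / (2 * ∑ a, R (e a) v (e a) (e i))) *
        ∑ a, R (e a) v (e a) (e i) = 1 - ∑ a, R (e a) v (e a) v := by
      field_simp
    rw [h6] at h5
    linarith
  refine zero_of_ric e hR hq (fun v => ?_) x y z w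
  have hv : v = ∑ a, (inner ℝ (e a) v) • e a := (e.sum_repr' v).symm
  let L : V →ₗ[ℝ] ℝ :=
    { toFun := fun s => ∑ a, R (e a) v (e a) s
      map_add' := fun s s' => by simp only [hR.add4, sum_add_distrib]
      map_smul' := fun t s => by simp only [hR.smul4, ← mul_sum]; rfl }
  have hL : L v = ∑ i, (inner ℝ (e i) v) * L (e i) := by
    conv_lhs => rw [hv]
    rw [map_sum]
    exact sum_congr rfl fun a _ => by rw [map_smul, smul_eq_mul]
  have hL0 : ∀ i, L (e i) = 0 := fun i => hB v i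
  have hLv : L v = ∑ a, R (e a) v (e a) v := rfl
  rw [← hLv, hL, sum_eq_zero fun i _ => by rw [hL0 i, mul_zero]]

/-- the identity frame -/
theorem scal_nonneg_of_iric (hF : S_FRIC) (hm : 1 ≤ m) (hR : AlgCurv R)
    (h : IRicGe R (2 * m - 1) 0) : 0 ≤ scal e R := by
  have h1 : ∀ x : Fin m × Bool → ℝ, 0 ≤ ∑ p, R (e p) (∑ q, x q • e q) (e p) (∑ q, x q • e q) := by
    intro x
    have h2 := hF m m V e R 0 hR hm h (fun p q => if p = q then 1 else 0) (by
      intro p q
      simp) x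
    have h3 : ∀ p, ∑ j, (if p = j then (1 : ℝ) else 0) • e j = e p := by
      intro p
      simp
    simp only [h3, zero_mul] at h2
    exact h2
  unfold scal
  rw [sum_comm]
  refine sum_nonneg fun i _ => ?_
  have h2 := h1 (fun q => if q = i then 1 else 0)
  simpa using h2

theorem flat_of_pinched (e : OrthonormalBasis (Fin m × Bool) ℝ V) (hF : S_FRIC) (hm : 3 ≤ m) (hR : AlgCurv R) (h : Pinched m 0 R)
    (x y z w : V) : R x y z w = 0 := by
  obtain ⟨-, hs, ρ, hI, hsum⟩ := h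
  have h1 : ∀ j ∈ Icc 3 m, 0 ≤ ρ j := by
    intro j hj
    have hj' := mem_Icc.1 hj
    have := iric_bound e hs (by omega) (hI j hj)
    linarith
  have h2 : ρ m ≤ 0 := by
    have h3 := single_le_sum h1 (mem_Icc.2 ⟨hm, le_refl m⟩)
    linarith
  have h4 : ρ m = 0 := le_antisymm h2 (h1 m (mem_Icc.2 ⟨hm, le_refl m⟩))
  have h5 := hI m (mem_Icc.2 ⟨hm, le_refl m⟩)
  rw [h4, neg_zero] at h5
  refine zero_of_scal e hR (fun x y => ?_) (scal_nonneg_of_iric e hF (by omega) hR h5) x y z w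
  have := sec_le hR hs x y
  linarith

theorem scal_le {c : ℝ}
    (hs : ∀ x y : V, ‖x‖ = 1 → ‖y‖ = 1 → inner ℝ x y = (0 : ℝ) → R x y x y ≤ -c)
    (hR : AlgCurv R) : 2 * m * (2 * m - 1) * c ≤ -(scal e R) := by
  have h1 : ∀ i j : Fin m × Bool, c - (if i = j then c else 0) ≤ -R (e i) (e j) (e i) (e j) := by
    intro i j
    by_cases h : i = j
    · subst h
      rw [hR.self12]
      simp
    · rw [if_neg h]
      have := hs (e i) (e j) (e.orthonormal.1 i) (e.orthonormal.1 j) (e.orthonormal.2 h)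
      linarith
  have h2 : ∑ i : Fin m × Bool, ∑ j : Fin m × Bool, (c - (if i = j then c else 0)) =
      2 * m * (2 * m - 1) * c := by
    simp only [sum_sub_distrib, sum_ite_eq, mem_univ, if_true, sum_const, card_univ,
      Fintype.card_prod, Fintype.card_fin, Fintype.card_bool, nsmul_eq_mul]
    push_cast
    ring
  rw [← h2]
  unfold scal
  rw [← sum_neg_distrib]
  refine sum_le_sum fun i _ => ?_
  rw [← sum_neg_distrib]
  exact sum_le_sum fun j _ => h1 i j

/-- the normalised bounds -/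
theorem norm_r (e : OrthonormalBasis (Fin m × Bool) ℝ V) {c : ℝ} (hc : 0 < c)
    (h : Pinched m c R) : ∃ r : ℕ → ℝ,
      (∀ k, 3 ≤ k → k ≤ m → IRicGe R (2 * k - 1) (-(((2 * k - 1) + 3 * r k) * c))) ∧
      (∀ j, 3 ≤ j → j ≤ m → 0 ≤ r j) ∧ (∀ j, 3 ≤ j → j < m → r j ≤ r (j + 1)) ∧
      (2 ≤ m → ∑ j ∈ Icc 3 m, r j ≤ m) := by
  obtain ⟨-, hs, ρ, hI, hsum⟩ := h
  obtain ⟨r0, hr0⟩ : ∃ r0 : ℕ → ℝ, r0 = fun j => (ρ j / c - (2 * j - 1)) / 3 := ⟨_, rfl⟩
  obtain ⟨r, hr⟩ : ∃ r : ℕ → ℝ, ∀ j (hj : (Icc j m).Nonempty), r j = (Icc j m).inf' hj r0 :=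
    ⟨fun j => if hj : (Icc j m).Nonempty then (Icc j m).inf' hj r0 else 0,
      fun j hj => dif_pos hj⟩
  have hne : ∀ j, j ≤ m → (Icc j m).Nonempty := fun j hj => nonempty_Icc.2 hj
  have hle : ∀ j, j ≤ m → r j ≤ r0 j := by
    intro j hj
    rw [hr j (hne j hj)]
    exact inf'_le _ (mem_Icc.2 ⟨le_rfl, hj⟩)
  have hIr : ∀ k, 3 ≤ k → k ≤ m → IRicGe R (2 * k - 1) (-(((2 * k - 1) + 3 * r k) * c)) := by
    intro k h3 hk
    obtain ⟨i, hi, hri⟩ := exists_mem_eq_inf' (hne k hk) r0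
    have hi' := mem_Icc.1 hi
    have h1 := hI i (mem_Icc.2 ⟨by omega, hi'.2⟩)
    have h2 := iric_down e hs (2 * (i - k)) (2 * k - 1) (-(ρ i)) (by omega) (by
      rw [show 2 * k - 1 + 2 * (i - k) = 2 * i - 1 by omega]
      exact h1)
    have e1 : -(((2 * (k : ℝ) - 1) + 3 * r k) * c) = -(ρ i) + ((2 * (i - k) : ℕ) : ℝ) * c := by
      rw [hr k (hne k hk), hri, hr0]
      push_cast
      rw [Nat.cast_sub hi'.1]
      field_simp
      ring
    rw [e1]
    exact h2
  refine ⟨r, hIr, ?_, ?_, ?_⟩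
  · intro j h3 hj
    have h1 := iric_bound e hs (k := 2 * j - 1) (by omega) (hIr j h3 hj)
    have e2 : ((2 * j - 1 : ℕ) : ℝ) = 2 * j - 1 := by
      rw [Nat.cast_sub (by omega)]
      push_cast
      ring
    rw [e2] at h1
    by_contra hneg
    push Not at hneg
    nlinarith
  · intro j _ hj
    rw [hr j (hne j hj.le), hr (j + 1) (hne (j + 1) hj)]
    exact inf'_mono r0 (Icc_subset_Icc_left (by omega)) (hne (j + 1) hj)
  · intro hm2
    have h1 : ∑ j ∈ Icc 3 m, r j ≤ ∑ j ∈ Icc 3 m, r0 j :=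
      sum_le_sum fun j hj => hle j (mem_Icc.1 hj).2
    have h2 : ∑ j ∈ Icc 3 m, r0 j = ((∑ j ∈ Icc 3 m, ρ j) / c - ((m : ℝ) ^ 2 - 4)) / 3 := by
      rw [hr0, ← sum_div, sum_sub_distrib, sum_odd m hm2, sum_div]
    have h3 : (∑ j ∈ Icc 3 m, ρ j) / c ≤ (m - 1) * (m + 4) := by
      rw [div_le_iff₀ hc]
      exact hsum
    rw [h2] at h1
    nlinarith

/-- the bound for normalised data -/
theorem core (hB : S_BETA2) (hF : S_FRIC) (hm : 3 ≤ m) (hR : AlgCurv R) {c : ℝ} (hc : 0 < c)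
    (hs : ∀ x y : V, ‖x‖ = 1 → ‖y‖ = 1 → inner ℝ x y = (0 : ℝ) → R x y x y ≤ -c) {r : ℕ → ℝ}
    (hIr : ∀ k, 3 ≤ k → k ≤ m → IRicGe R (2 * k - 1) (-(((2 * k - 1) + 3 * r k) * c)))
    (hrn : ∀ j, 3 ≤ j → j ≤ m → 0 ≤ r j) (hmono : ∀ j, 3 ≤ j → j < m → r j ≤ r (j + 1))
    (hsr : ∑ j ∈ Icc 3 m, r j ≤ m) :
    roundGB m 1 * (c ^ (m - 1) * (-(scal e R) / (2 * (2 * m - 1)) - (m - 1) * c)) ≤
      (-1) ^ m * gbc e R := by
  have hπ := Real.pi_pos
  have hmR : (3 : ℝ) ≤ m := by exact_mod_cast hm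
  have h1 := gm_low2 hB (P := shP e R c) hm (comb_cu (cu_cp e hR) (1 / c) (-1))
    (shP_se e hR hc hs) (shP_PR e hF hR hc hIr) hrn hmono hsr
  have h2 : (fun _ : Fin m => (fun i j k l => shP e R c i j k l + unitCurv i j k l : T4 m)) =
      fun _ => (fun i j k l => 1 / c * cp e (negT R) i j k l : T4 m) := by
    funext b i j k l
    simp only [shP]
    ring
  rw [h2, gm_scale] at h1
  have h3 : ∑ i, ∑ j, shP e R c i j i j = _ := shP_trace e hc
  rw [h3] at h1
  rw [gbc_eq, const_eq, one_pow, one_mul]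
  have hK : 0 < 1 / ((8 * Real.pi) ^ m * (m.factorial : ℝ)) := by positivity
  rw [mul_assoc]
  refine mul_le_mul_of_nonneg_left ?_ hK.le
  set g := gm fun _ : Fin m => cp e (negT R)
  have h4 : c ^ m * ((1 / c) ^ m * g) = g := by
    rw [← mul_assoc, ← mul_pow, mul_one_div_cancel hc.ne', one_pow, one_mul]
  rw [← h4]
  refine le_trans (le_of_eq ?_) (mul_le_mul_of_nonneg_left h1 (by positivity))
  obtain ⟨n, rfl⟩ : ∃ n, m = n + 1 := ⟨m - 1, by omega⟩
  have e1 : n + 1 - 1 = n := by omega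
  have e2 : 2 * (n + 1) - 2 = 2 * n := by omega
  have e3 : (2 * (n + 1)).factorial = (2 * n + 2) * ((2 * n + 1) * (2 * n).factorial) := by
    rw [show 2 * (n + 1) = 2 * n + 1 + 1 by ring, Nat.factorial_succ, Nat.factorial_succ]
  rw [e1, e2, e3, pow_succ c n]
  push_cast
  have h5 : (2 * (n : ℝ) + 1) ≠ 0 := by positivity
  have h6 : (2 * ((n : ℝ) + 1) - 1) = 2 * n + 1 := by ring
  rw [h6]
  field_simp
  ring

/-- **The pointwise bound.** -/
theorem pointwise2 (hB : S_BETA2) (hF : S_FRIC) (hm : 3 ≤ m) (hR : AlgCurv R) {c : ℝ}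
    (h : Pinched m c R) :
    roundGB m 1 * (c ^ (m - 1) * (-(scal e R) / (2 * (2 * m - 1)) - (m - 1) * c)) ≤
      (-1) ^ m * gbc e R := by
  rcases h.1.eq_or_lt with h0 | hc
  · subst h0
    have hz : R = fun _ _ _ _ => 0 := by
      funext x y z w
      exact flat_of_pinched e hF hm hR h x y z w
    rw [hz, gbc_eq]
    have hgm : gm (fun _ : Fin m => cp e (negT fun _ _ _ _ => (0 : ℝ))) = 0 := by
      unfold gm
      refine sum_eq_zero fun σ _ => sum_eq_zero fun τ _ => ?_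
      rw [prod_eq_zero (mem_univ ⟨0, by omega⟩), mul_zero]
      simp [cp, negT]
    rw [hgm, mul_zero]
    have : (0 : ℝ) ^ (m - 1) = 0 := zero_pow (by omega)
    rw [this]
    simp
  · obtain ⟨r, hIr, hrn, hmono, hsr⟩ := norm_r e hc h
    exact core e hB hF hm hR hc h.2.1 hIr hrn hmono (hsr (by omega))

theorem round_mul (m : ℕ) (hm : 1 ≤ m) (c : ℝ) :
    roundGB m c = roundGB m 1 * (c ^ (m - 1) * c) := by
  unfold roundGB
  rw [one_pow, mul_one, ← pow_succ, Nat.sub_add_cancel hm]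

theorem roundGB_pos (m : ℕ) {c : ℝ} (hc : 0 < c) : 0 < roundGB m c := by
  have hπ := Real.pi_pos
  unfold roundGB
  positivity

/-- the second inequality -/
theorem second (hm : 3 ≤ m) (hR : AlgCurv R) {c : ℝ} (hc : 0 ≤ c)
    (hs : ∀ x y : V, ‖x‖ = 1 → ‖y‖ = 1 → inner ℝ x y = (0 : ℝ) → R x y x y ≤ -c) :
    roundGB m c ≤
      roundGB m 1 * (c ^ (m - 1) * (-(scal e R) / (2 * (2 * m - 1)) - (m - 1) * c)) := by
  rw [round_mul m (by omega) c]
  refine mul_le_mul_of_nonneg_left ?_ (roundGB_pos m one_pos).le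
  refine mul_le_mul_of_nonneg_left ?_ (pow_nonneg hc _)
  have h1 := scal_le e hs hR
  have hmR : (3 : ℝ) ≤ m := by exact_mod_cast hm
  have h2 : (0 : ℝ) < 2 * (2 * m - 1) := by nlinarith
  have h3 : m * c ≤ -(scal e R) / (2 * (2 * m - 1)) := by
    rw [le_div_iff₀ h2]
    nlinarith
  linarith

/-- the case of equality -/
theorem rigid (hB : S_BETA2) (hF : S_FRIC) (hm : 3 ≤ m) (hR : AlgCurv R) {c : ℝ}
    (h : Pinched m c R) (heq : (-1) ^ m * gbc e R = roundGB m c) (x y z w : V) :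
    R x y z w = -(c * unitT x y z w) := by
  have hmR : (3 : ℝ) ≤ m := by exact_mod_cast hm
  rcases h.1.eq_or_lt with h0 | hc
  · subst h0
    rw [flat_of_pinched e hF hm hR h x y z w]
    ring
  have h1 := pointwise2 e hB hF hm hR h
  rw [heq, round_mul m (by omega) c] at h1
  have hk := roundGB_pos m one_pos
  have h2 := le_of_mul_le_mul_left h1 hk
  have h3 := le_of_mul_le_mul_left h2 (pow_pos hc (m - 1))
  have h4 : (0 : ℝ) < 2 * (2 * m - 1) := by nlinarith
  have h5 : -(scal e R) / (2 * (2 * m - 1)) ≤ m * c := by linarith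
  rw [div_le_iff₀ h4] at h5
  have hT : AlgCurv (fun x y z w => R x y z w + c * unitT x y z w) := by
    have hu := unit_bi (V := V) c
    refine ⟨fun x x' y z w => ?_, fun t x y z w => ?_, fun x y z w => ?_, fun x y z w => ?_,
      fun x y z w => ?_⟩
    · rw [hR.add, show c * unitT (x + x') y z w = _ from hu.add x x' y z w]
      ring
    · rw [hR.smul, show c * unitT (t • x) y z w = _ from hu.smul t x y z w]
      ring
    · rw [hR.anti, show c * unitT y x z w = _ from hu.anti x y z w]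
      ring
    · rw [hR.pair, show c * unitT z w x y = _ from hu.pair x y z w]
    · have hb := hR.bianchi x y z w
      have hb2 : unitT x y z w + unitT y z x w + unitT z x y w = 0 := by
        simp only [unitT]
        rw [real_inner_comm x z, real_inner_comm y x, real_inner_comm z y]
        ring
      linear_combination hb + c * hb2
  have hq : ∀ x y : V, R x y x y + c * unitT x y x y ≤ 0 := by
    intro x y
    have h6 := sec_le hR h.2.1 x y
    have h7 : unitT x y x y = ‖x‖ ^ 2 * ‖y‖ ^ 2 - inner ℝ x y ^ 2 := by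
      simp only [unitT]
      rw [real_inner_self_eq_norm_sq, real_inner_self_eq_norm_sq, real_inner_comm x y]
      ring
    rw [h7]
    linarith
  have hsc : 0 ≤ scal e (fun x y z w => R x y z w + c * unitT x y z w) := by
    have h8 : scal e (fun x y z w => R x y z w + c * unitT x y z w) =
        scal e R + c * (2 * m * (2 * m - 1)) := by
      unfold scal
      have h9 : ∀ i j : Fin m × Bool, c * unitT (e i) (e j) (e i) (e j) =
          c - (if i = j then c else 0) := by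
        intro i j
        rw [cp_unit]
        unfold unitCurv
        by_cases h : i = j
        · subst h; simp
        · simp [h, Ne.symm h]
      simp only [sum_add_distrib, h9, sum_sub_distrib, sum_ite_eq, mem_univ, if_true, sum_const,
        card_univ, Fintype.card_prod, Fintype.card_fin, Fintype.card_bool, nsmul_eq_mul]
      push_cast
      ring
    rw [h8]
    linarith
  have h10 := zero_of_scal e hT hq hsc x y z w
  linarith

/-- (A): Ricci pinching -/
theorem pinched_of_ric (e : OrthonormalBasis (Fin m × Bool) ℝ V) (hm : 3 ≤ m) {c : ℝ} (hc : 0 ≤ c)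
    (hs : ∀ x y : V, ‖x‖ = 1 → ‖y‖ = 1 → inner ℝ x y = (0 : ℝ) → R x y x y ≤ -c)
    (hr : IRicGe R (2 * m - 1) (-(2 * ((m : ℝ) ^ 2 - m + 1) / (m - 2) * c))) : Pinched m c R := by
  have hmR : (3 : ℝ) ≤ m := by exact_mod_cast hm
  refine ⟨hc, hs, fun j => 2 * ((m : ℝ) ^ 2 - m + 1) / (m - 2) * c - 2 * (m - j) * c, ?_, ?_⟩
  · intro j hj
    have hj' := mem_Icc.1 hj
    have h2 := iric_down e hs (2 * (m - j)) (2 * j - 1) _ (by omega) (by
      rw [show 2 * j - 1 + 2 * (m - j) = 2 * m - 1 by omega]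
      exact hr)
    convert h2 using 1
    push_cast
    rw [Nat.cast_sub hj'.2]
    ring
  · rw [sum_sub_distrib, sum_const, Nat.card_Icc, nsmul_eq_mul, ← sum_mul, ← mul_sum,
      sum_gap m (by omega), Nat.cast_sub (by omega)]
    push_cast
    have h1 : ((m : ℝ) + 1 - 3) * (2 * ((m : ℝ) ^ 2 - m + 1) / (m - 2) * c) =
        2 * ((m : ℝ) ^ 2 - m + 1) * c := by
      have : (m : ℝ) - 2 ≠ 0 := by linarith
      rw [show (m : ℝ) + 1 - 3 = m - 2 by ring]
      field_simp
    rw [h1]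
    refine le_of_eq ?_
    ring

/-- (B): sectional pinching -/
theorem pinched_of_sec (hm : 3 ≤ m) {a b : ℝ} (ha : 0 ≤ a) (hs : SecIn R (-b) (-a))
    (hab : ((2 * m : ℝ) ^ 2 - 16) * b ≤ (2 * m - 2) * (2 * m + 8) * a) : Pinched m a R := by
  refine ⟨ha, fun x y hx hy hxy => (hs x y hx hy hxy).2, fun j => (2 * j - 1) * b, ?_, ?_⟩
  · intro j hj x y hx hxy hy
    have hj' := mem_Icc.1 hj
    have h1 : ∑ _i : Fin (2 * j - 1), -b ≤ ∑ i, R x (y i) x (y i) :=
      sum_le_sum fun i _ => (hs x (y i) hx (hy.1 i) (hxy i)).1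
    rw [sum_const, card_univ, Fintype.card_fin, nsmul_eq_mul, Nat.cast_sub (by omega)] at h1
    push_cast at h1
    linarith
  · rw [← sum_mul, sum_odd m (by omega)]
    nlinarith

end

end Pool.Agent.Helper57.RH
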