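import Pool.Agent.Helper57.RH.Field
import Pool.Agent.Helper57.RH.Beta2
import Pool.Agent.Helper57.RH.Fric
import Pool.Agent.Helper57.RH.DefsPos

/-!
# Positive curvature
-/

set_option autoImplicit false

namespace Pool.Agent.Helper57.RH

open Pool.Agent.Y519.HB Pool.Agent.W669.HD Finset MeasureTheory
open Pool.Agent.W666.GB hiding EE

section

variable {V : Type} [NormedAddCommGroup V] [InnerProductSpace ℝ V] {R : V → V → V → V → ℝ}
variable {m : ℕ}

theorem gbc_neg' (e : OrthonormalBasis (Fin m × Bool) ℝ V) (R : V → V → V → V → ℝ) :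
    (-1) ^ m * gbc e (negT R) = gbc e R := by
  unfold gbc negT
  rw [mul_left_comm]
  congr 1
  rw [Finset.mul_sum]
  refine Finset.sum_congr rfl fun σ _ => ?_
  rw [Finset.mul_sum]
  refine Finset.sum_congr rfl fun τ _ => ?_
  rw [Finset.prod_neg, Finset.card_univ, Fintype.card_fin]
  have h1 : ((-1 : ℝ) ^ m) * (-1) ^ m = 1 := by
    rw [← mul_pow]; norm_num
  linear_combination (((Equiv.Perm.sign σ : ℤ) : ℝ) * ((Equiv.Perm.sign τ : ℤ) : ℝ) *
    ∏ b : Fin m, R (e (σ (b, false))) (e (σ (b, true))) (e (τ (b, false))) (e (τ (b, true)))) * h1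

theorem neg_alg (hR : AlgCurv R) : AlgCurv (negT R) where
  add x x' y z w := by simp only [negT]; rw [hR.add]; ring
  smul t x y z w := by simp only [negT]; rw [hR.smul]; ring
  anti x y z w := by simp only [negT]; rw [hR.anti]
  pair x y z w := by simp only [negT]; rw [hR.pair]
  bianchi x y z w := by
    simp only [negT]
    linear_combination -hR.bianchi x y z w

theorem neg_iric {k : ℕ} {ρ : ℝ} (h : IRicLe R k ρ) : IRicGe (negT R) k (-ρ) := by
  intro x y hx hxy hy
  have := h x y hx hxy hy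
  simp only [negT, sum_neg_distrib]
  linarith

theorem neg_pinched {c : ℝ} (h : PosPinched m c R) : Pinched m c (negT R) := by
  obtain ⟨hc, hs, ρ, hI, hsum⟩ := h
  refine ⟨hc, fun x y hx hy hxy => ?_, ρ, fun j hj => neg_iric (hI j hj), hsum⟩
  have := hs x y hx hy hxy
  simp only [negT]
  linarith

theorem neg_pinchedSq {c : ℝ} (h : PosPinchedSq m c R) : PinchedSq m c (negT R) := by
  obtain ⟨S, n, x, y, hS, hP, hR⟩ := h
  refine ⟨negT S, n, x, y, neg_alg hS, neg_pinched hP, fun a b c' d => ?_⟩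
  simp only [negT]
  rw [hR]
  ring

theorem scal_negT (e : OrthonormalBasis (Fin m × Bool) ℝ V) : scal e (negT R) = -scal e R := by
  simp only [scal, negT, sum_neg_distrib]

theorem pos_point (e : OrthonormalBasis (Fin m × Bool) ℝ V) (hm : 3 ≤ m) (hR : AlgCurv R) {c : ℝ}
    (h : PosPinched m c R) :
    roundGB m 1 * (c ^ (m - 1) * (scal e R / (2 * (2 * m - 1)) - (m - 1) * c)) ≤ gbc e R ∧
    roundGB m c ≤ roundGB m 1 * (c ^ (m - 1) * (scal e R / (2 * (2 * m - 1)) - (m - 1) * c)) ∧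
    (gbc e R = roundGB m c ↔ ∀ x y z w, R x y z w = c * unitT x y z w) := by
  have h' := neg_pinched h
  have h1 := pointwise2 e Beta2.beta2 fric hm (neg_alg hR) h'
  have h2 := second e hm (neg_alg hR) h'.1 h'.2.1
  rw [scal_negT, neg_neg] at h1 h2
  rw [gbc_neg'] at h1
  refine ⟨h1, h2, fun heq x y z w => ?_, fun hc => ?_⟩
  · have h3 := rigid e Beta2.beta2 fric hm (neg_alg hR) h' (by rw [gbc_neg']; exact heq) x y z w
    simp only [negT] at h3
    linarith
  · rw [← gbc_neg']
    refine gbc_const e fun x y z w => ?_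
    simp only [negT, hc]

theorem pos_sq (e : OrthonormalBasis (Fin m × Bool) ℝ V) (hm : 3 ≤ m) {c : ℝ}
    (h : PosPinchedSq m c R) : roundGB m c ≤ gbc e R := by
  rw [← gbc_neg']
  exact point_sq e Beta2.beta2 fric hm (neg_pinchedSq h)

theorem pos_pinchedSq {c : ℝ} (hR : AlgCurv R) (h : PosPinched m c R) : PosPinchedSq m c R :=
  ⟨R, 0, Fin.elim0, Fin.elim0, hR, h, fun a b c' d => by simp⟩

theorem pos_of_ric (e : OrthonormalBasis (Fin m × Bool) ℝ V) (hm : 3 ≤ m) {c : ℝ} (hc : 0 ≤ c)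
    (hs : ∀ x y : V, ‖x‖ = 1 → ‖y‖ = 1 → inner ℝ x y = (0 : ℝ) → c ≤ R x y x y)
    (hr : IRicLe R (2 * m - 1) (((2 * m : ℝ) ^ 2 - 2 * (2 * m) + 4) / (2 * m - 4) * c)) :
    PosPinched m c R := by
  have hmR : (3 : ℝ) ≤ m := by exact_mod_cast hm
  have h1 : (m : ℝ) - 2 ≠ 0 := by linarith
  have h2 : (2 : ℝ) * m - 4 ≠ 0 := by linarith
  have h3 : ((2 * m : ℝ) ^ 2 - 2 * (2 * m) + 4) / (2 * m - 4) =
      2 * ((m : ℝ) ^ 2 - m + 1) / (m - 2) := by
    rw [div_eq_div_iff h2 h1]
    ring
  rw [h3] at hr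
  obtain ⟨-, hs', ρ, hI, hsum⟩ := pinched_of_ric (R := negT R) e hm hc (fun x y hx hy hxy => by
    have := hs x y hx hy hxy
    simp only [negT]
    linarith) (neg_iric hr)
  refine ⟨hc, hs, ρ, fun j hj x y hx hxy hy => ?_, hsum⟩
  have := hI j hj x y hx hxy hy
  simp only [negT, sum_neg_distrib] at this
  linarith

/-- sectional curvatures in `[a, b]` -/
theorem pos_of_sec (hm : 3 ≤ m) {a b : ℝ} (ha : 0 ≤ a) (hs : SecIn R a b)
    (hab : ((2 * m : ℝ) ^ 2 - 16) * b ≤ (2 * m - 2) * (2 * m + 8) * a) : PosPinched m a R := by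
  refine ⟨ha, fun x y hx hy hxy => (hs x y hx hy hxy).1, fun j => (2 * j - 1) * b, ?_, ?_⟩
  · intro j hj x y hx hxy hy
    have hj' := mem_Icc.1 hj
    have h1 : ∑ i, R x (y i) x (y i) ≤ ∑ _i : Fin (2 * j - 1), b :=
      sum_le_sum fun i _ => (hs x (y i) hx (hy.1 i) (hxy i)).2
    rw [sum_const, card_univ, Fintype.card_fin, nsmul_eq_mul, Nat.cast_sub (by omega)] at h1
    push_cast at h1
    linarith
  · rw [← sum_mul, sum_odd m (by omega)]
    nlinarith

end

section

variable {m : ℕ} {M : Type} [MeasurableSpace M] (μ : Measure M) (K : CurvField m M) (c : M → ℝ)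

/-- the negative field -/
noncomputable def negField {m : ℕ} {M : Type} (K : CurvField m M) : CurvField m M where
  V := K.V
  ng := K.ng
  ip := K.ip
  e := K.e
  R := fun p => negT (K.R p)
  curv := fun p => neg_alg (K.curv p)

theorem negField_gb {m : ℕ} {M : Type} (K : CurvField m M) (p : M) :
    (negField K).gb p = (-1) ^ m * K.gb p := by
  have h1 : (-1) ^ m * (negField K).gb p = K.gb p := gbc_neg' (K.e p) (K.R p)
  rw [← h1, ← mul_assoc, ← mul_pow]
  norm_num

theorem negField_int {m : ℕ} {M : Type} [MeasurableSpace M] (μ : Measure M)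
    (K : CurvField m M) : (-1) ^ m * ∫ p, (negField K).gb p ∂μ = ∫ p, K.gb p ∂μ := by
  rw [← integral_const_mul]
  refine integral_congr_ae (Filter.Eventually.of_forall fun p => ?_)
  exact gbc_neg' (K.e p) (K.R p)

theorem negField_integrable {m : ℕ} {M : Type} [MeasurableSpace M] {μ : Measure M}
    {K : CurvField m M} (h : Integrable K.gb μ) : Integrable (negField K).gb μ := by
  have : (negField K).gb = fun p => (-1) ^ m * K.gb p := funext fun p => negField_gb K p
  rw [this]
  exact h.const_mul _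

theorem pos_field (hm : 3 ≤ m) (h : ∀ p, PosPinched m (c p) (K.R p) ∨ PosPinchedSq m (c p) (K.R p)) :
    0 ≤ ∫ p, K.gb p ∂μ ∧
    (Integrable K.gb μ → μ {p | 0 < c p} ≠ 0 → 0 < ∫ p, K.gb p ∂μ) ∧
    (IsFiniteMeasure μ → Integrable K.gb μ → ∀ c₀ : ℝ, 0 ≤ c₀ → (∀ p, c₀ ≤ c p) →
      roundGB m c₀ * μ.real Set.univ ≤ ∫ p, K.gb p ∂μ) := by
  have h' : ∀ p, PinchedSq m (c p) ((negField K).R p) := fun p =>
    neg_pinchedSq ((h p).elim (pos_pinchedSq (K.curv p)) id)
  refine ⟨?_, fun hint hμ => ?_, fun _ hint c₀ h₀ hc => ?_⟩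
  · have := field_nonneg μ (negField K) c Beta2.beta2 fric hm h'
    rwa [negField_int] at this
  · have := field_pos μ (negField K) c Beta2.beta2 fric hm h' (negField_integrable hint) hμ
    rwa [negField_int] at this
  · have := field_vol μ (negField K) c Beta2.beta2 fric hm h' (negField_integrable hint) h₀ hc
    rwa [negField_int] at this

theorem pos_field_rigid (hm : 3 ≤ m) (h : ∀ p, PosPinched m (c p) (K.R p))
    (hint : Integrable K.gb μ) :
    (∫ p, K.gb p ∂μ = 0 ↔ ∀ᵐ p ∂μ, ∀ x y z w : K.V p, K.R p x y z w = 0) ∧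
    (IsFiniteMeasure μ → ∀ c₀ : ℝ, 0 ≤ c₀ → (∀ p, c₀ ≤ c p) →
      (∫ p, K.gb p ∂μ = roundGB m c₀ * μ.real Set.univ ↔
        ∀ᵐ p ∂μ, ∀ x y z w : K.V p, K.R p x y z w = c₀ * unitT x y z w)) := by
  have h' : ∀ p, Pinched m (c p) ((negField K).R p) := fun p => neg_pinched (h p)
  have hone : ((-1 : ℝ) ^ m) ≠ 0 := pow_ne_zero _ (by norm_num)
  constructor
  · have h1 := field_zero μ (negField K) c Beta2.beta2 fric hm h' (negField_integrable hint)
    rw [← negField_int μ K]
    constructor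
    · intro h0
      have h2 := (mul_eq_zero.1 h0).resolve_left hone
      filter_upwards [h1.1 h2] with p hp x y z w
      have : -K.R p x y z w = 0 := hp x y z w
      linarith
    · intro h0
      rw [h1.2, mul_zero]
      filter_upwards [h0] with p hp x y z w
      show -K.R p x y z w = 0
      rw [hp, neg_zero]
  · intro _ c₀ h₀ hc
    have h1 := field_rigid μ (negField K) c Beta2.beta2 fric hm h' (negField_integrable hint) h₀ hc
    rw [negField_int] at h1
    rw [h1]
    constructor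
    · intro h0
      filter_upwards [h0] with p hp x y z w
      have : -K.R p x y z w = -(c₀ * unitT x y z w) := hp x y z w
      linarith
    · intro h0
      filter_upwards [h0] with p hp x y z w
      exact congrArg Neg.neg (hp x y z w)

end

end Pool.Agent.Helper57.RH
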