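import Pool.Agent.Helper57.RH.Ind

/-!
# The coefficient of first order
-/

set_option autoImplicit false

namespace Pool.Agent.Helper57.RH

open Pool.Agent.Y519.HB Pool.Agent.W669.HD Finset Polynomial
open Pool.Agent.W666.GB hiding EE

section

variable {J : Type*} [Fintype J] [DecidableEq J]

theorem yf_smul {T : Type*} [Fintype T] [DecidableEq T] (t : ℝ) (E : J → J → J → J → ℝ)
    (i : T × Bool → J) : yf (pb (fun a b c d => t * E a b c d) i) =
      t ^ Fintype.card T * yf (pb E i) := by
  unfold yf pb
  rw [mul_sum]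
  refine sum_congr rfl fun ρ _ => ?_
  rw [prod_mul_distrib, prod_const, card_univ]
  ring

theorem Cl_alt {P : J → J → J → J → ℝ} (h : Cu P) (i j k l : J) :
    Cl P i k j l - Cl P i l j k = P i j k l := by
  have h34 : ∀ i j k l, P i j l k = - P i j k l := by
    intro i j k l
    rw [← h.pair, h.a12, h.pair]
  have h1 := h.bia i j k l
  have h2 : P i l k j = - P j k i l := by
    rw [← h.pair i l k j, h.a12 j k]
  have h3 : P i k l j = P k i j l := by
    rw [h.a12 k i, h34 k i j l]; ring
  unfold Cl
  rw [h34 i j k l, h2, h3]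
  linarith

theorem yf_one {T : Type*} [Fintype T] [DecidableEq T] {P : J → J → J → J → ℝ} (h : Cu P)
    (b₀ : T) (hT : ∀ b, b = b₀) (i : T × Bool → J) :
    yf (pb (Cl P) i) = P (i (b₀, false)) (i (b₀, true)) (i (b₀, false)) (i (b₀, true)) := by
  classical
  have hg : Function.Bijective (fun β : Bool => ((b₀, β) : T × Bool)) := by
    constructor
    · intro i j h
      exact congrArg Prod.snd h
    · rintro ⟨b, β⟩
      exact ⟨β, by rw [hT b]⟩
  set g : Bool ≃ T × Bool := Equiv.ofBijective _ hg with hgdef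
  have g0 : g false = (b₀, false) := rfl
  have g1 : g true = (b₀, true) := rfl
  have hu : (univ : Finset (Equiv.Perm Bool)) = {1, Equiv.swap false true} := by decide
  have hne : (1 : Equiv.Perm Bool) ≠ Equiv.swap false true := by decide
  have hs : ∀ π : Equiv.Perm Bool, sn (g.permCongr π) = sn π := by
    intro π
    unfold sn
    rw [Equiv.Perm.sign_permCongr]
  have hE : yf (pb (Cl P) i) = ∑ π : Equiv.Perm Bool, sn π *
      Cl P (i (g false)) (i (g (π false))) (i (g true)) (i (g (π true))) := by
    unfold yf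
    rw [← Equiv.sum_comp (Equiv.permCongr g)]
    refine sum_congr rfl fun π _ => ?_
    rw [hs, Fintype.prod_eq_single b₀ (fun b hb => absurd (hT b) hb)]
    congr 1
    simp only [pb, Equiv.permCongr_apply, ← g0, ← g1, Equiv.symm_apply_apply]
  have s1 : sn (1 : Equiv.Perm Bool) = 1 := by simp [sn]
  have s2 : sn (Equiv.swap false true) = -1 := sn_swap' (by decide)
  rw [hE, hu, sum_pair hne]
  simp only [s1, s2, Equiv.Perm.one_apply, Equiv.swap_apply_left, Equiv.swap_apply_right, g0, g1]
  have h1 := Cl_alt h (i (b₀, false)) (i (b₀, true)) (i (b₀, false)) (i (b₀, true))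
  linarith

end

theorem scal_coeff {m : ℕ} {P : T4 m} (hP : Cu P) {L : ℝ[X] →ₗ[ℝ] ℝ}
    (hL : ∀ α γ : Fin m → ℝ,
      gm (fun b => (fun i j k l => α b * P i j k l + γ b * unitCurv i j k l : T4 m)) =
      L (∏ b, (C (α b) * X + C (γ b)))) (hm : 0 < m) :
    L X = 2 ^ m * (2 * m - 2).factorial * ∑ i, ∑ j, P i j i j := by
  classical
  set a : Finset (Fin m) → ℝ := fun T =>
    2 ^ m * ∑ σ : Equiv.Perm (Fin m × Bool), yf (pb (Cl P) (σ ∘ iT T)) with ha
  set F : ℝ[X] := ∑ j ∈ range (m + 1), C (L (X ^ j) * (m.choose j : ℝ)) * X ^ j with hF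
  set G : ℝ[X] := ∑ T : Finset (Fin m), C (a T) * X ^ T.card with hG
  have hFG : F = G := by
    refine Polynomial.funext fun t => ?_
    have h1 : F.eval t =
        gm (fun _ => (fun i j k l => t * P i j k l + 1 * unitCurv i j k l : T4 m)) := by
      rw [hL (fun _ => t) (fun _ => 1), prod_const, card_univ, Fintype.card_fin, C_1, add_pow,
        map_sum, hF, eval_finset_sum]
      refine sum_congr rfl fun j _ => ?_
      have e1 : (C t * X) ^ j * 1 ^ (m - j) * (m.choose j : ℝ[X]) =
          (t ^ j * (m.choose j : ℝ)) • (X ^ j : ℝ[X]) := by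
        rw [one_pow, mul_one, mul_pow, ← C_pow, smul_eq_C_mul, C_mul, C_eq_natCast]
        ring
      rw [e1, map_smul, smul_eq_mul, eval_mul, eval_C, eval_pow, eval_X]
      ring
    rw [h1]
    have h2 := lift_sum (B := Fin m) (fun a b c d => 1 * (if a = b then 1 else 0) *
      (if c = d then 1 else 0) + t * Cl P a b c d)
      (fun i j k l => t * P i j k l + 1 * unitCurv i j k l) (by
        intro i j k l
        rw [← Cl_alt hP i j k l]
        simp only [unitCurv]
        ring)
    rw [Fintype.card_fin] at h2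
    rw [gm, h2, Yf_expand 1 (fun a b c d => t * Cl P a b c d), hG, eval_finset_sum, mul_sum]
    refine sum_congr rfl fun T _ => ?_
    simp only [yf_smul, one_pow, one_mul, Fintype.card_coe, ← mul_sum, eval_mul, eval_C,
      eval_pow, eval_X, ha]
    ring
  have h1 : F.coeff 1 = L X * m := by
    rw [hF, finset_sum_coeff, sum_eq_single 1]
    · rw [coeff_C_mul, coeff_X_pow_self, pow_one, Nat.choose_one_right, mul_one]
    · intro j _ hj
      rw [coeff_C_mul, coeff_X_pow, if_neg (Ne.symm hj), mul_zero]
    · intro h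
      exact absurd (mem_range.2 (by omega)) h
  have h2 : G.coeff 1 = ∑ b : Fin m, a {b} := by
    rw [hG, finset_sum_coeff]
    symm
    refine Fintype.sum_of_injective (fun b : Fin m => ({b} : Finset (Fin m)))
      singleton_injective _ _ ?_ ?_
    · intro T hT
      rw [coeff_C_mul, coeff_X_pow, if_neg, mul_zero]
      intro h
      obtain ⟨b, hb⟩ := card_eq_one.1 h.symm
      exact hT ⟨b, hb.symm⟩
    · intro b
      rw [coeff_C_mul, card_singleton, coeff_X_pow_self, mul_one]
  have h3 : ∀ b : Fin m, a {b} = 2 ^ m * ((2 * m - 2).factorial * ∑ i, ∑ j, P i j i j) := by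
    intro b
    rw [ha]
    simp only
    congr 1
    have hT : ∀ c : ↥({b} : Finset (Fin m)), c = ⟨b, mem_singleton_self b⟩ := fun c =>
      Subtype.ext (mem_singleton.1 c.2)
    have e1 : ∀ i : ↥({b} : Finset (Fin m)) × Bool → Fin m × Bool, yf (pb (Cl P) i) =
        P (i (⟨b, mem_singleton_self b⟩, false)) (i (⟨b, mem_singleton_self b⟩, true))
          (i (⟨b, mem_singleton_self b⟩, false)) (i (⟨b, mem_singleton_self b⟩, true)) :=
      fun i => yf_one hP _ hT i
    have h4 := sum_perm_eq (J := Fin m × Bool) (fun i => yf (pb (Cl P) i))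
      (fun i hi => yf_noninj (Cl P) i hi) (iT ({b} : Finset (Fin m))) (iT_injective _)
    have hc1 : Fintype.card (Fin m × Bool) = 2 * m := by
      rw [Fintype.card_prod, Fintype.card_fin, Fintype.card_bool]; ring
    have hc2 : Fintype.card (↥({b} : Finset (Fin m)) × Bool) = 2 := by
      rw [Fintype.card_prod, Fintype.card_coe, card_singleton, Fintype.card_bool]
    have h5 : ∑ i : ↥({b} : Finset (Fin m)) × Bool → Fin m × Bool, yf (pb (Cl P) i) =
        ∑ i, ∑ j, P i j i j := by
      simp only [e1]
      rw [← Fintype.sum_prod_type']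
      refine Fintype.sum_equiv ⟨fun i => (i (⟨b, mem_singleton_self b⟩, false),
          i (⟨b, mem_singleton_self b⟩, true)), fun p q => if q.2 then p.2 else p.1, ?_, ?_⟩ _ _ ?_
      · intro i
        funext q
        obtain ⟨c, β⟩ := q
        rw [hT c]
        cases β <;> simp
      · intro p
        simp
      · intro i
        rfl
    rw [hc1, hc2, h5] at h4
    obtain ⟨n, rfl⟩ : ∃ n, m = n + 1 := ⟨m - 1, by omega⟩
    have e2 : (2 * (n + 1)).descFactorial 2 = (2 * n + 1) * (2 * n + 2) := by
      rw [show 2 * (n + 1) = 2 * n + 2 by ring]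
      simp [Nat.descFactorial_succ]
    have e3 : (2 * (n + 1)).factorial = (2 * n + 2) * ((2 * n + 1) * (2 * n).factorial) := by
      rw [show 2 * (n + 1) = 2 * n + 1 + 1 by ring, Nat.factorial_succ, Nat.factorial_succ]
    have e4 : 2 * (n + 1) - 2 = 2 * n := by omega
    rw [e2, e3] at h4
    rw [e4]
    push_cast at h4
    have hpos : ((2 * (n : ℝ) + 1) * (2 * n + 2)) ≠ 0 := by positivity
    refine mul_left_cancel₀ hpos ?_
    rw [h4]
    ring
  have h4 : L X * m = m * (2 ^ m * ((2 * m - 2).factorial * ∑ i, ∑ j, P i j i j)) := by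
    rw [← h1, hFG, h2, sum_congr rfl fun b _ => h3 b, sum_const, card_univ, Fintype.card_fin,
      nsmul_eq_mul]
  have hm' : (m : ℝ) ≠ 0 := by exact_mod_cast hm.ne'
  have := mul_right_cancel₀ hm' (h4.trans (mul_comm _ _))
  rw [this]
  ring

end Pool.Agent.Helper57.RH
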