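import Pool.Agent.Helper57.RH.Point
import Pool.Graph.R_seed8.Y519.HB.Warp

/-!
# Subspaces, and squares of decomposable two-forms
-/

set_option autoImplicit false

namespace Pool.Agent.Helper57.RH

open Pool.Agent.Y519.HB Pool.Agent.W669.HD Finset
open Pool.Agent.W666.GB hiding EE

theorem sum_prefix {r : ℕ → ℝ} {k : ℕ} (hk : 3 ≤ k) : ∀ m, k ≤ m →
    (∀ j, 3 ≤ j → j < m → r j ≤ r (j + 1)) → ∑ j ∈ Icc 3 m, r j ≤ m →
    ∑ j ∈ Icc 3 k, r j ≤ k := by
  intro m hm
  induction m, hm using Nat.le_induction with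
  | base => exact fun _ h => h
  | succ m hm ih =>
    intro hmono hsum
    refine ih (fun j h3 hj => hmono j h3 (by omega)) ?_
    rw [sum_Icc_succ_top (by omega)] at hsum
    push_cast at hsum
    by_cases h1 : 1 ≤ r (m + 1)
    · linarith
    · push Not at h1
      have h2 : ∀ d, d ≤ m - 3 → r (m - d) ≤ r (m + 1) := by
        intro d
        induction d with
        | zero => exact fun _ => hmono m (by omega) (by omega)
        | succ d ihd =>
          intro hd
          have h3 := hmono (m - (d + 1)) (by omega) (by omega)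
          rw [show m - (d + 1) + 1 = m - d by omega] at h3
          exact h3.trans (ihd (by omega))
      have h4 : ∑ j ∈ Icc 3 m, r j ≤ ∑ _j ∈ Icc 3 m, (1 : ℝ) := by
        refine sum_le_sum fun j hj => ?_
        have hj' := mem_Icc.1 hj
        have h5 := h2 (m - j) (by omega)
        rw [show m - (m - j) = j by omega] at h5
        linarith
      rw [sum_const, Nat.card_Icc, nsmul_eq_mul, mul_one, Nat.cast_sub (by omega)] at h4
      push_cast at h4
      linarith

section

variable {V : Type} [NormedAddCommGroup V] [InnerProductSpace ℝ V] {R : V → V → V → V → ℝ}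
variable {m : ℕ}

theorem iric_restrict {k : ℕ} {ρ : ℝ} (h : IRicGe R k ρ) (E : Submodule ℝ V) :
    IRicGe (fun x y z w : E => R x y z w) k ρ := by
  intro x y hx hxy hy
  refine h x (fun i => (y i : V)) hx (fun i => hxy i) ?_
  exact hy.comp_linearIsometry E.subtypeₗᵢ

/-- the Hopf sign on all even-dimensional subspaces -/
theorem sub_hopf (e : OrthonormalBasis (Fin m × Bool) ℝ V) (hB : S_BETA2) (hF : S_FRIC)
    (hm : 3 ≤ m) (hR : AlgCurv R) {c : ℝ} (h : Pinched m c R) (k : ℕ) (hkm : k ≤ m)
    (E : Submodule ℝ V) (ε : OrthonormalBasis (Fin k × Bool) ℝ E) :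
    0 ≤ (-1) ^ k * gbc ε (fun x y z w : E => R x y z w) := by
  have hfin : FiniteDimensional ℝ V := Module.Finite.of_basis e.toBasis
  have hcard : Module.finrank ℝ E = 2 * k := by
    rw [Module.finrank_eq_card_basis ε.toBasis, Fintype.card_prod, Fintype.card_fin,
      Fintype.card_bool, mul_comm]
  have hq : ∀ x y : V, R x y x y ≤ 0 := by
    intro x y
    have h1 := sec_le hR h.2.1 x y
    have h2 : inner ℝ x y ^ 2 ≤ ‖x‖ ^ 2 * ‖y‖ ^ 2 := by
      have h3 := abs_real_inner_le_norm x y
      have h4 : |(inner ℝ x y : ℝ)| ^ 2 ≤ (‖x‖ * ‖y‖) ^ 2 :=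
        pow_le_pow_left₀ (abs_nonneg _) h3 2
      rw [sq_abs, mul_pow] at h4
      exact h4
    have h5 : 0 ≤ c * (‖x‖ ^ 2 * ‖y‖ ^ 2 - inner ℝ x y ^ 2) :=
      mul_nonneg h.1 (sub_nonneg.2 h2)
    linarith
  rcases h.1.eq_or_lt with h0 | hc
  · subst h0
    have hz : ∀ x y z w : E, R x y z w = 0 := fun x y z w => flat_of_pinched e hF hm hR h x y z w
    have h1 : TwoFive 0 (fun x y z w : E => R x y z w) :=
      twoFive_one (restrict_curv hR E) (U := ⊥) (by simp) (fun x _ y z w => hz x y z w)
        (fun x y => hq x y)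
    exact (roundGB_nonneg le_rfl).trans (two_five ε le_rfl h1)
  · by_cases hk : k < 3
    · have h1 : TwoFive 0 (fun x y z w : E => R x y z w) := by
        refine twoFive_one (restrict_curv hR E) (U := ⊤) (by rw [finrank_top, hcard]; omega) ?_
          (fun x y => hq x y)
        intro a ha y z w
        rw [Submodule.top_orthogonal_eq_bot, Submodule.mem_bot] at ha
        rw [ha]
        have := hR.smul 0 0 (y : V) z w
        simpa using this
      exact (roundGB_nonneg le_rfl).trans (two_five ε le_rfl h1)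
    · push Not at hk
      obtain ⟨r, hIr, hrn, hmono, hsr⟩ := norm_r e hc h
      have hsE : ∀ x y : E, ‖x‖ = 1 → ‖y‖ = 1 → inner ℝ x y = (0 : ℝ) →
          (fun x y z w : E => R x y z w) x y x y ≤ -c := fun x y hx hy hxy =>
        h.2.1 x y hx hy hxy
      have h1 := core ε hB hF hk (restrict_curv hR E) hc hsE
        (fun j h3 hj => iric_restrict (hIr j h3 (by omega)) E)
        (fun j h3 hj => hrn j h3 (by omega)) (fun j h3 hj => hmono j h3 (by omega))
        (sum_prefix hk m hkm hmono (hsr (by omega)))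
      have h2 := second ε hk (restrict_curv hR E) hc.le hsE
      exact (roundGB_nonneg hc.le).trans (h2.trans h1)

/-- **Squares.** -/
theorem sq_bound (e : OrthonormalBasis (Fin m × Bool) ℝ V) (hB : S_BETA2) (hF : S_FRIC)
    (hm : 3 ≤ m) {S : V → V → V → V → ℝ} (hS : AlgCurv S) {c : ℝ} (h : Pinched m c S) {n : ℕ}
    {x y : Fin n → V}
    (hR : ∀ a b c d, R a b c d = S a b c d - ∑ k, sqDec (x k) (y k) a b c d) :
    (-1) ^ m * gbc e S ≤ (-1) ^ m * gbc e R := by
  have h1 := mono_bound (by omega) e (le_refl (0 : ℝ)) hS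
    (fun k hk E ε => sub_hopf e hB hF hm hS h k hk.le E ε) (R := R) (x := x) (y := y) (by
      intro a b c d
      rw [hR]
      ring)
  have h2 : roundGB m 0 = 0 := by
    unfold roundGB
    rw [zero_pow (by omega), mul_zero]
  rw [h2, add_zero] at h1
  exact h1

end

end Pool.Agent.Helper57.RH
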